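import Pool.Agent.H60.FB.Defs
import Pool.Agent.H77.FB.Dens
import Pool.Agent.H77.FB.Inj

/-!
Basic facts on the homogenisation `hp` and its gradient `gr`.
-/

open MvPolynomial MeasureTheory Pool.Agent.H77.FB
open scoped ContDiff

namespace Pool.Agent.H60.FB

variable {n : ℕ}

lemma contDiff_hp (P : MvPolynomial (Fin n) ℂ) (m : ℕ) :
    ContDiff ℂ ∞ (fun x : ℂ × (Fin n → ℂ) => hp P m x.1 x.2) := by
  unfold hp
  refine ContDiff.sum fun s _ => ?_
  refine (contDiff_const.mul (contDiff_fst.pow _)).mul ?_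
  refine contDiff_prod fun i _ => ?_
  exact ((contDiff_apply ℂ ℂ i).comp contDiff_snd).pow _

lemma contDiff_hp_real (P : MvPolynomial (Fin n) ℂ) (m : ℕ) :
    ContDiff ℝ ∞ (fun x : ℂ × (Fin n → ℂ) => hp P m x.1 x.2) :=
  (contDiff_hp P m).restrict_scalars ℝ

lemma differentiable_hp (P : MvPolynomial (Fin n) ℂ) (m : ℕ) (x : ℂ) :
    Differentiable ℂ (fun u : Fin n → ℂ => hp P m x u) := by
  have h1 : Differentiable ℂ (fun y : ℂ × (Fin n → ℂ) => hp P m y.1 y.2) :=
    (contDiff_hp P m).differentiable (by simp)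
  have h2 : Differentiable ℂ (fun u : Fin n → ℂ => (x, u)) :=
    (differentiable_const x).prodMk differentiable_id
  have h3 := h1.comp h2
  simpa only [Function.comp_def] using h3

lemma gr_eq (P : MvPolynomial (Fin n) ℂ) (m : ℕ) (x : ℂ) (u : Fin n → ℂ) (j : Fin n) :
    gr P m x u j
      = fderiv ℂ (fun y : ℂ × (Fin n → ℂ) => hp P m y.1 y.2) (x, u) (0, Pi.single j 1) := by
  have h1 : HasFDerivAt (fun u : Fin n → ℂ => (x, u))
      (ContinuousLinearMap.inr ℂ ℂ (Fin n → ℂ)) u := hasFDerivAt_prodMk_right x u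
  have h2 := ((contDiff_hp P m).differentiable (by simp) (x, u)).hasFDerivAt.comp u h1
  have h3 : fderiv ℂ (fun u => hp P m x u) u
      = (fderiv ℂ (fun y : ℂ × (Fin n → ℂ) => hp P m y.1 y.2) (x, u)).comp
        (ContinuousLinearMap.inr ℂ ℂ (Fin n → ℂ)) := h2.fderiv
  unfold gr
  rw [h3]
  rfl

lemma contDiff_gr (P : MvPolynomial (Fin n) ℂ) (m : ℕ) (j : Fin n) :
    ContDiff ℂ ∞ (fun x : ℂ × (Fin n → ℂ) => gr P m x.1 x.2 j) := by
  have h1 : (fun x : ℂ × (Fin n → ℂ) => gr P m x.1 x.2 j)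
      = fun x => fderiv ℂ (fun y : ℂ × (Fin n → ℂ) => hp P m y.1 y.2) x (0, Pi.single j 1) := by
    funext x; exact gr_eq P m x.1 x.2 j
  rw [h1]
  exact ((contDiff_hp P m).fderiv_right (m := ∞) (by simp)).clm_apply contDiff_const

lemma contDiff_gr_real (P : MvPolynomial (Fin n) ℂ) (m : ℕ) (j : Fin n) :
    ContDiff ℝ ∞ (fun x : ℂ × (Fin n → ℂ) => gr P m x.1 x.2 j) :=
  (contDiff_gr P m j).restrict_scalars ℝ

lemma fderiv_hp (P : MvPolynomial (Fin n) ℂ) (m : ℕ) (x : ℂ) (u v : Fin n → ℂ) :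
    fderiv ℂ (fun u => hp P m x u) u v = ∑ j, v j * gr P m x u j := by
  conv_lhs => rw [pi_eq_sum_univ' v]
  rw [map_sum]
  refine Finset.sum_congr rfl fun j _ => ?_
  rw [map_smul, smul_eq_mul]
  rfl

lemma support_star (P : MvPolynomial (Fin n) ℂ) : (star' P).support = P.support :=
  MvPolynomial.support_map_of_injective P (starRingEnd ℂ).injective

lemma coeff_star (P : MvPolynomial (Fin n) ℂ) (s : Fin n →₀ ℕ) :
    (star' P).coeff s = (starRingEnd ℂ) (P.coeff s) := MvPolynomial.coeff_map _ _ _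

lemma star_star (P : MvPolynomial (Fin n) ℂ) : star' (star' P) = P := by
  ext s
  rw [coeff_star, coeff_star, Complex.conj_conj]

lemma totalDegree_star (P : MvPolynomial (Fin n) ℂ) : (star' P).totalDegree = P.totalDegree := by
  unfold MvPolynomial.totalDegree
  rw [support_star]

lemma conj_hp (P : MvPolynomial (Fin n) ℂ) (m : ℕ) (x : ℂ) (u : Fin n → ℂ) :
    (starRingEnd ℂ) (hp P m x u) = hp (star' P) m ((starRingEnd ℂ) x) (cj u) := by
  unfold hp
  rw [support_star, map_sum]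
  refine Finset.sum_congr rfl fun s _ => ?_
  rw [coeff_star, map_mul, map_mul, map_pow, map_prod]
  congr 1
  refine Finset.prod_congr rfl fun i _ => ?_
  rw [map_pow]
  rfl

lemma conj_gr (P : MvPolynomial (Fin n) ℂ) (m : ℕ) (x : ℂ) (u : Fin n → ℂ) (j : Fin n) :
    (starRingEnd ℂ) (gr P m x u j) = gr (star' P) m ((starRingEnd ℂ) x) (cj u) j := by
  have h1 : (fun u => hp (star' P) m ((starRingEnd ℂ) x) u)
      = fun u => (starRingEnd ℂ) (hp P m x (cj u)) := by
    funext u
    rw [conj_hp, cj_cj]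
  unfold gr
  rw [h1]
  have h2 : HasFDerivAt (fun u => hp P m x u) (fderiv ℂ (fun u => hp P m x u) u) u :=
    (differentiable_hp P m x u).hasFDerivAt
  have h3 : HasDerivAt (fun c : ℂ => hp P m x (u + c • Pi.single j 1))
      (fderiv ℂ (fun u => hp P m x u) u (Pi.single j 1)) 0 := by
    have h4 : HasFDerivAt (fun u => hp P m x u) (fderiv ℂ (fun u => hp P m x u) u)
        (u + (0 : ℂ) • Pi.single j 1) := by rw [zero_smul, add_zero]; exact h2
    have h5 : HasDerivAt (fun c : ℂ => u + c • (Pi.single j 1 : Fin n → ℂ)) (Pi.single j 1) 0 := by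
      have := ((hasDerivAt_id (0 : ℂ)).smul_const (Pi.single j 1 : Fin n → ℂ)).const_add u
      simpa using this
    exact h4.comp_hasDerivAt (0 : ℂ) h5
  have h6 := h3.conj_conj
  have hd : Differentiable ℂ (fun u => (starRingEnd ℂ) (hp P m x (cj u))) :=
    differentiable_conj (differentiable_hp P m x)
  have h7 : HasDerivAt (fun c : ℂ => (starRingEnd ℂ) (hp P m x (cj (cj u + c • Pi.single j 1))))
      (fderiv ℂ (fun u => (starRingEnd ℂ) (hp P m x (cj u))) (cj u) (Pi.single j 1)) 0 := by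
    have h4 : HasFDerivAt (fun u => (starRingEnd ℂ) (hp P m x (cj u)))
        (fderiv ℂ (fun u => (starRingEnd ℂ) (hp P m x (cj u))) (cj u))
        (cj u + (0 : ℂ) • Pi.single j 1) := by
      rw [zero_smul, add_zero]; exact (hd (cj u)).hasFDerivAt
    have h5 : HasDerivAt (fun c : ℂ => cj u + c • (Pi.single j 1 : Fin n → ℂ))
        (Pi.single j 1) 0 := by
      have := ((hasDerivAt_id (0 : ℂ)).smul_const (Pi.single j 1 : Fin n → ℂ)).const_add (cj u)
      simpa using this
    exact h4.comp_hasDerivAt (0 : ℂ) h5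
  have h8 : (⇑(starRingEnd ℂ) ∘ (fun c : ℂ => hp P m x (u + c • Pi.single j 1)) ∘
        ⇑(starRingEnd ℂ))
      = fun c : ℂ => (starRingEnd ℂ) (hp P m x (cj (cj u + c • Pi.single j 1))) := by
    funext c
    change (starRingEnd ℂ) (hp P m x (u + (starRingEnd ℂ) c • Pi.single j 1)) = _
    congr 2
    funext i
    by_cases hi : i = j
    · subst hi; simp [cj]
    · simp [cj, Pi.single_eq_of_ne hi]
  rw [h8, map_zero] at h6
  exact h6.unique h7

/-- Homogeneity. -/
lemma hp_smul {P : MvPolynomial (Fin n) ℂ} {m : ℕ} (hP : P.totalDegree ≤ m) (t x : ℂ)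
    (u : Fin n → ℂ) : hp P m (t * x) (t • u) = t ^ m * hp P m x u := by
  unfold hp
  rw [Finset.mul_sum]
  refine Finset.sum_congr rfl fun s hs => ?_
  have hd : s.degree ≤ m := (MvPolynomial.le_totalDegree hs).trans hP
  have h1 : ∏ i, (t • u) i ^ s i = t ^ s.degree * ∏ i, u i ^ s i := by
    simp only [Pi.smul_apply, smul_eq_mul, mul_pow]
    rw [Finset.prod_mul_distrib, Finset.prod_pow_eq_pow_sum]
    congr 2
    rw [Finsupp.degree_eq_sum]
  rw [h1, mul_pow]
  have h2 : t ^ m = t ^ (m - s.degree) * t ^ s.degree := by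
    rw [← pow_add]; congr 1; omega
  rw [h2]; ring

lemma gr_smul {P : MvPolynomial (Fin n) ℂ} {m : ℕ} (hP : P.totalDegree ≤ m) (t x : ℂ)
    (u : Fin n → ℂ) (j : Fin n) : t * gr P m (t * x) (t • u) j = t ^ m * gr P m x u j := by
  have h1 : HasFDerivAt (fun u : Fin n → ℂ => hp P m (t * x) (t • u))
      ((fderiv ℂ (fun u => hp P m (t * x) u) (t • u)).comp
        (t • ContinuousLinearMap.id ℂ (Fin n → ℂ))) u := by
    have h2 : HasFDerivAt (fun u : Fin n → ℂ => t • u)
        (t • ContinuousLinearMap.id ℂ (Fin n → ℂ)) u :=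
      (hasFDerivAt_id u).const_smul t
    exact (differentiable_hp P m (t * x) (t • u)).hasFDerivAt.comp u h2
  have h3 : HasFDerivAt (fun u : Fin n → ℂ => hp P m (t * x) (t • u))
      (t ^ m • fderiv ℂ (fun u => hp P m x u) u) u := by
    have h4 : (fun u : Fin n → ℂ => hp P m (t * x) (t • u)) = fun u => t ^ m * hp P m x u := by
      funext u; exact hp_smul hP t x u
    rw [h4]
    exact (differentiable_hp P m x u).hasFDerivAt.const_mul (t ^ m)
  have h5 := h1.unique h3
  have h6 := congrArg (fun A : (Fin n → ℂ) →L[ℂ] ℂ => A (Pi.single j 1)) h5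
  simp only [ContinuousLinearMap.comp_apply, smul_apply, ContinuousLinearMap.id_apply,
    map_smul, smul_eq_mul] at h6
  exact h6

end Pool.Agent.H60.FB
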