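import Pool.Agent.H60.FB.Per
import Pool.Agent.H37.FB.Slice

/-!
The a priori estimate for products of polynomials in orthogonal groups of variables.
-/

open MvPolynomial MeasureTheory Pool.Agent.H77.FB

namespace Pool.Agent.H60.FB

variable {n k : ℕ}

/-- `Q1(D) Q2(D) = (Q1 Q2)(D)`. -/
lemma QDE_mul (Q1 Q2 : MvPolynomial (Fin n) ℂ) (u : Ent n) (y : Fin n → ℂ) :
    (QDE Q1 (QDE Q2 u)).1 y = (QDE (Q1 * Q2) u).1 y := by
  set ev : Ent n →ₗ[ℂ] ℂ :=
    { toFun := fun f => f.1 y, map_add' := fun _ _ => rfl, map_smul' := fun _ _ => rfl } with hev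
  set T : Ent n →ₗ[ℂ] ℂ := ev.comp ((QDE Q1).comp (QDE Q2)) - ev.comp (QDE (Q1 * Q2)) with hT
  have hTa : ∀ f : Ent n, T f = (QDE Q1 (QDE Q2 f)).1 y - (QDE (Q1 * Q2) f).1 y := fun _ => rfl
  have hAF : IsAF T := by
    refine ⟨max (‖y‖ + Q1.totalDegree + Q2.totalDegree) (‖y‖ + (Q1 * Q2).totalDegree),
      (∑ s ∈ Q1.support, ‖Q1.coeff s‖) * (∑ s ∈ Q2.support, ‖Q2.coeff s‖)
        + ∑ s ∈ (Q1 * Q2).support, ‖(Q1 * Q2).coeff s‖, fun f A hA => ?_⟩
    rw [hTa, add_mul, mul_assoc]
    refine (norm_sub_le _ _).trans (add_le_add ?_ ?_)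
    · refine QDE_bound Q1 _ ‖y‖ _ (fun z hz => ?_) y le_rfl
      exact QDE_bound Q2 f (‖y‖ + Q1.totalDegree) A
        (fun w hw => hA w (hw.trans (le_max_left _ _))) z hz
    · exact QDE_bound (Q1 * Q2) f ‖y‖ A
        (fun z hz => hA z (hz.trans (le_max_right _ _))) _ le_rfl
  have h0 : T = 0 := by
    refine eq_zero_of_borel hAF fun w => ?_
    rw [hTa, QDE_expo, QDE_expo, map_smul, QDE_expo]
    change eval w Q2 * (eval w Q1 * (expo w).1 y) - eval w (Q1 * Q2) * (expo w).1 y = 0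
    rw [map_mul]
    ring
  have h2 := hTa u
  rw [h0] at h2
  exact (sub_eq_zero.1 h2.symm)

/-- `P1^*(D)` commutes with the multiplication by `P2`, if `P1` depends on variables along which
`P2` is constant. -/
lemma QDE_comm (P1 P2 : MvPolynomial (Fin n) ℂ) (Q : MvPolynomial (Fin k) ℂ)
    (L : Matrix (Fin k) (Fin n) ℂ)
    (hQ : ∀ y, eval y Q = eval (L.conjTranspose.mulVec y) P1)
    (hP : ∀ z, eval z P1 = eval (L.conjTranspose.mulVec (L.mulVec z)) P1)
    (h2 : ∀ y z, eval (z + L.conjTranspose.mulVec y) P2 = eval z P2) (u : Ent n)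
    (z : Fin n → ℂ) :
    (QDE (star' P1) (mulEnt P2 u)).1 z = eval z P2 * (QDE (star' P1) u).1 z := by
  have hstar : ∀ w, eval (L.conjTranspose.transpose.mulVec w) (star' Q) = eval w (star' P1) := by
    intro w
    rw [eval_star', eval_star', hQ, hP (cj w)]
    congr 2
    have h1 : cj (L.conjTranspose.transpose.mulVec w) = L.mulVec (cj w) := by
      funext i
      simp [cj, Matrix.mulVec, dotProduct, map_sum]
    rw [h1]
  have hz : slj L.conjTranspose z 0 = z := by
    unfold slj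
    rw [Matrix.mulVec_zero, add_zero]
  have e1 := slice_key P1 Q L.conjTranspose z hstar (mulEnt P2 u) 0
  have e2 := slice_key P1 Q L.conjTranspose z hstar u 0
  rw [hz] at e1 e2
  rw [← e1, ← e2]
  have e3 : pb L.conjTranspose z (mulEnt P2 u) = eval z P2 • pb L.conjTranspose z u := by
    apply Subtype.ext
    funext y
    change eval (z + L.conjTranspose.mulVec y) P2 * u.1 (slj L.conjTranspose z y)
      = eval z P2 * u.1 (slj L.conjTranspose z y)
    rw [h2]
  rw [e3, map_smul]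
  rfl

/-- The estimate for a product. -/
theorem est_mul (P1 P2 : MvPolynomial (Fin n) ℂ) (Q : MvPolynomial (Fin k) ℂ)
    (L : Matrix (Fin k) (Fin n) ℂ)
    (hQ : ∀ y, eval y Q = eval (L.conjTranspose.mulVec y) P1)
    (hP : ∀ z, eval z P1 = eval (L.conjTranspose.mulVec (L.mulVec z)) P1)
    (h2 : ∀ y z, eval (z + L.conjTranspose.mulVec y) P2 = eval z P2)
    (hE1 : Est P1) (hE2 : Est P2) : Est (P1 * P2) := by
  intro ρ
  obtain ⟨ρ1, C1, hC1⟩ := hE1 ρ
  obtain ⟨ρ2, C2, hC2⟩ := hE2 ρ1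
  refine ⟨ρ2, C1 * C2, fun f hf A hA z hz => ?_⟩
  set u : Ent n := ⟨f, hf⟩ with hu
  set h : Ent n := QDE (star' P1) (mulEnt P1 u) with hh
  have hmul : mulEnt P1 (mulEnt P2 u) = mulEnt P2 (mulEnt P1 u) := by
    apply Subtype.ext
    funext z
    change eval z P1 * (eval z P2 * f z) = eval z P2 * (eval z P1 * f z)
    ring
  have hstar : star' (P1 * P2) = star' P2 * star' P1 := by
    unfold star'
    rw [map_mul, mul_comm]
  -- the first step
  have s1 : ∀ z, ‖z‖ ≤ ρ1 → ‖eval z P2 * h.1 z‖ ≤ C2 * A := by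
    refine hC2 h.1 h.2 A fun w hw => ?_
    have e1 : (QDE (star' P2) (mulEnt P2 h)).1 w = QD (star' P2) 1 (fun z => eval z P2 * h.1 z) w :=
      QDE_eq (star' P2) (mulEnt P2 h) w
    have e2 : mulEnt P2 h = QDE (star' P1) (mulEnt P1 (mulEnt P2 u)) := by
      apply Subtype.ext
      funext z
      rw [hmul, QDE_comm P1 P2 Q L hQ hP h2]
      rfl
    have e3 : (QDE (star' (P1 * P2)) (mulEnt (P1 * P2) u)).1 w
        = QD (star' (P1 * P2)) 1 (fun z => eval z (P1 * P2) * f z) w :=
      QDE_eq (star' (P1 * P2)) (mulEnt (P1 * P2) u) w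
    have e4 : mulEnt (P1 * P2) u = mulEnt P1 (mulEnt P2 u) := by
      apply Subtype.ext
      funext z
      change eval z (P1 * P2) * f z = eval z P1 * (eval z P2 * f z)
      rw [map_mul, mul_assoc]
    rw [← e1, e2, QDE_mul, ← hstar, ← e4, e3]
    exact hA w hw
  -- the second step
  have s2 := hC1 (mulEnt P2 u).1 (mulEnt P2 u).2 (C2 * A) (fun w hw => by
    have e1 : (QDE (star' P1) (mulEnt P1 (mulEnt P2 u))).1 w
        = QD (star' P1) 1 (fun z => eval z P1 * (mulEnt P2 u).1 z) w :=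
      QDE_eq (star' P1) (mulEnt P1 (mulEnt P2 u)) w
    rw [← e1, hmul, QDE_comm P1 P2 Q L hQ hP h2]
    exact s1 w hw) z hz
  rw [map_mul, mul_assoc, mul_assoc]
  exact s2

lemma QD_C {c : ℂ} (hc : c ≠ 0) (g : (Fin n → ℂ) → ℂ) (z : Fin n → ℂ) :
    QD (C c : MvPolynomial (Fin n) ℂ) 1 g z = c * g z := by
  classical
  unfold QD
  have h1 : (C c : MvPolynomial (Fin n) ℂ).support = {0} := by
    rw [C_apply, support_monomial, if_neg hc]
  rw [h1, Finset.sum_singleton, coeff_C, if_pos rfl]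
  have h2 : ls (0 : Fin n →₀ ℕ) = [] := by
    unfold ls
    rw [map_zero, Multiset.toList_zero]
  rw [h2]
  simp [DL]

lemma est_C (c : ℂ) : Est (C c : MvPolynomial (Fin n) ℂ) := by
  intro ρ
  rcases eq_or_ne c 0 with rfl | hc
  · refine ⟨0, 0, fun f hf A hA z hz => ?_⟩
    rw [eval_C, zero_mul, norm_zero, zero_mul]
  · have hc' : (starRingEnd ℂ) c ≠ 0 := by rwa [Ne, map_eq_zero]
    refine ⟨ρ, ‖((starRingEnd ℂ) c)⁻¹‖, fun f hf A hA z hz => ?_⟩
    have h1 := hA z hz
    have h2 : star' (C c : MvPolynomial (Fin n) ℂ) = C ((starRingEnd ℂ) c) := by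
      unfold star'; rw [map_C]
    rw [h2, QD_C hc'] at h1
    calc ‖eval z (C c) * f z‖ = ‖((starRingEnd ℂ) c)⁻¹ * ((starRingEnd ℂ) c * (eval z (C c) * f z))‖ := by
          rw [← mul_assoc, inv_mul_cancel₀ hc', one_mul]
      _ ≤ ‖((starRingEnd ℂ) c)⁻¹‖ * A := by
          rw [norm_mul]
          exact mul_le_mul_of_nonneg_left h1 (norm_nonneg _)

/-- The leading form does not vanish identically. -/
lemma leading_ne_zero {P : MvPolynomial (Fin n) ℂ} (h : P.totalDegree ≠ 0) :
    homogeneousComponent P.totalDegree P ≠ 0 := by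
  intro h0
  have hP : P ≠ 0 := by
    rintro rfl
    exact h totalDegree_zero
  obtain ⟨s, hs, hsd⟩ := Finset.exists_mem_eq_sup P.support (support_nonempty.2 hP)
    (fun s => s.sum fun _ e => e)
  have h1 : P.totalDegree = s.degree := hsd
  have h2 := congrArg (coeff s) h0
  rw [coeff_homogeneousComponent, if_pos h1.symm, coeff_zero] at h2
  exact (mem_support_iff.1 hs) h2

/-- The estimate, if every critical point of the leading form is a period. -/
theorem est_of_period (P : MvPolynomial (Fin n) ℂ)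
    (h : ∀ v : Fin n → ℂ,
      (∀ j, eval v (pderiv j (homogeneousComponent P.totalDegree P)) = 0) →
        ∀ z, eval (z + v) P = eval z P) : Est P := by
  rcases Nat.eq_zero_or_pos P.totalDegree with h0 | hm
  · rw [totalDegree_eq_zero_iff_eq_C.1 h0]
    exact est_C _
  · have hne := leading_ne_zero (P := P) (by omega)
    have hv0 : ∃ v : Fin n → ℂ, hp P P.totalDegree 0 v ≠ 0 := by
      by_contra hcon
      push Not at hcon
      apply hne
      refine MvPolynomial.funext fun v => ?_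
      rw [← hp_zero le_rfl, map_zero]
      exact hcon v
    obtain ⟨k, Q, L, hL, hQ, hPL, hQd, hproj, horth⟩ := exists_reduction P
    obtain ⟨hns, hv⟩ := nonsing_reduction (P := P) (m := P.totalDegree) le_rfl hQd
      (fun v hv z => h v (fun j => by rw [← gr_zero le_rfl]; exact hv j) z) hL hQ hproj horth hv0
    exact est_slice P Q L hL hQ hPL (est_of_nonsing hQd hm hns hv)

/-- The estimate for a product of polynomials in mutually orthogonal groups of variables. -/
theorem est_prod {ι : Type*} (s : Finset ι) (P : ι → MvPolynomial (Fin n) ℂ)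
    (hE : ∀ i ∈ s, Est (P i))
    (ho : ∀ i ∈ s, ∀ j ∈ s, i ≠ j → ∀ v : Fin n → ℂ,
      (∀ u ∈ Prd (P i), ∑ l, v l * (starRingEnd ℂ) (u l) = 0) → v ∈ Prd (P j)) :
    Est (∏ i ∈ s, P i) := by
  classical
  induction s using Finset.induction_on with
  | empty =>
    rw [Finset.prod_empty]
    exact est_C 1
  | insert a s ha ih =>
    rw [Finset.prod_insert ha]
    obtain ⟨k, Q, L, hL, hQ, hPL, hQd, hproj, horth⟩ := exists_reduction (P a)
    refine est_mul (P a) _ Q L hQ hPL (fun y z => ?_) (hE a (Finset.mem_insert_self a s))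
      (ih (fun i hi => hE i (Finset.mem_insert_of_mem hi)) fun i hi j hj =>
        ho i (Finset.mem_insert_of_mem hi) j (Finset.mem_insert_of_mem hj))
    rw [map_prod, map_prod]
    refine Finset.prod_congr rfl fun j hj => ?_
    exact ho a (Finset.mem_insert_self a s) j (Finset.mem_insert_of_mem hj)
      (fun h => ha (h ▸ hj)) _ (horth y) z

end Pool.Agent.H60.FB
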