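import Pool.Agent.H60.FB.Final

/-!
Polynomials for which every critical point of the leading form is a period: reduction to a
polynomial in fewer variables whose leading form has no critical point off the origin.
-/

open MvPolynomial MeasureTheory Pool.Agent.H77.FB
open scoped ContDiff

namespace Pool.Agent.H60.FB

variable {n : ℕ}

/-- The homogenisation in terms of the polynomial. -/
lemma hp_of_ne {P : MvPolynomial (Fin n) ℂ} {m : ℕ} (hP : P.totalDegree ≤ m) {x : ℂ}
    (hx : x ≠ 0) (u : Fin n → ℂ) : hp P m x u = x ^ m * eval (x⁻¹ • u) P := by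
  have h1 := hp_smul hP x 1 (x⁻¹ • u)
  rw [smul_smul, mul_inv_cancel₀ hx, one_smul, mul_one] at h1
  rw [h1]
  congr 1
  unfold hp
  rw [eval_eq']
  refine Finset.sum_congr rfl fun s _ => ?_
  rw [one_pow, mul_one]

lemma continuous_hp_x (P : MvPolynomial (Fin n) ℂ) (m : ℕ) (u : Fin n → ℂ) :
    Continuous fun x : ℂ => hp P m x u := by
  unfold hp
  fun_prop

/-- Two homogenisations that agree for `x ≠ 0` agree for `x = 0`. -/
lemma hp_eq_of_ne {n' : ℕ} {P : MvPolynomial (Fin n) ℂ} {Q : MvPolynomial (Fin n') ℂ} {m : ℕ}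
    {u : Fin n → ℂ} {v : Fin n' → ℂ} (h : ∀ x : ℂ, x ≠ 0 → hp P m x u = hp Q m x v) (x : ℂ) :
    hp P m x u = hp Q m x v := by
  have h1 : (fun x : ℂ => hp P m x u) = fun x => hp Q m x v := by
    refine Continuous.ext_on (s := {x : ℂ | x ≠ 0}) ?_ (continuous_hp_x P m u)
      (continuous_hp_x Q m v) fun x hx => h x hx
    exact dense_compl_singleton 0
  exact congrFun h1 x

variable {P : MvPolynomial (Fin n) ℂ} {m : ℕ}

/-- The set of critical points of the leading form. -/
def Crit (P : MvPolynomial (Fin n) ℂ) (m : ℕ) : Set (Fin n → ℂ) := {v | ∀ j, gr P m 0 v j = 0}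

lemma eval_line (P : MvPolynomial (Fin n) ℂ) (z v : Fin n → ℂ) (t : ℂ) :
    Polynomial.eval t (aeval (fun j => Polynomial.C (z j) + Polynomial.C (v j) * Polynomial.X) P)
      = eval (z + t • v) P := by
  induction P using MvPolynomial.induction_on with
  | C a => rw [aeval_C, eval_C, Polynomial.algebraMap_eq, Polynomial.eval_C]
  | add p q hp hq => rw [map_add, Polynomial.eval_add, hp, hq, map_add]
  | mul_X p i hp =>
    rw [map_mul, Polynomial.eval_mul, hp, aeval_X, map_mul, eval_X, Polynomial.eval_add,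
      Polynomial.eval_mul, Polynomial.eval_C, Polynomial.eval_C, Polynomial.eval_X, Pi.add_apply,
      Pi.smul_apply, smul_eq_mul, mul_comm t]

lemma period_smul {v : Fin n → ℂ} (hv : ∀ z, eval (z + v) P = eval z P) (t : ℂ)
    (z : Fin n → ℂ) : eval (z + t • v) P = eval z P := by
  set p : Polynomial ℂ := aeval (fun j => Polynomial.C (z j) + Polynomial.C (v j) * Polynomial.X) P
    with hp
  have h1 : ∀ t : ℂ, Polynomial.eval t p = eval (z + t • v) P := fun t => eval_line P z v t
  have h2 : ∀ k : ℕ, eval (z + (k : ℂ) • v) P = eval z P := by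
    intro k
    induction k with
    | zero => simp
    | succ k ih =>
      rw [← ih, ← hv (z + (k : ℂ) • v)]
      congr 2
      push_cast
      rw [add_smul, one_smul, add_assoc]
  have h3 : p - Polynomial.C (eval z P) = 0 := by
    refine Polynomial.eq_zero_of_infinite_isRoot _ ?_
    refine Set.Infinite.mono (s := Set.range (fun k : ℕ => (k : ℂ))) ?_
      (Set.infinite_range_of_injective Nat.cast_injective)
    rintro _ ⟨k, rfl⟩
    change Polynomial.IsRoot _ _
    rw [Polynomial.IsRoot, Polynomial.eval_sub, h1, Polynomial.eval_C, h2, sub_self]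
  rw [← h1, sub_eq_zero.1 h3, Polynomial.eval_C]

/-- The subspace of the periods of a polynomial. -/
def Prd (P : MvPolynomial (Fin n) ℂ) : Submodule ℂ (Fin n → ℂ) where
  carrier := {v | ∀ z, eval (z + v) P = eval z P}
  add_mem' := by
    intro v w hv hw z
    rw [← add_assoc, hw, hv]
  zero_mem' := fun z => by rw [add_zero]
  smul_mem' := fun t v hv z => period_smul hv t z

/-- Invariance of the homogenisation under the periods. -/
lemma hp_add_prd (hP : P.totalDegree ≤ m) {v : Fin n → ℂ} (hv : v ∈ Prd P)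
    (z : Fin n → ℂ) (x : ℂ) : hp P m x (z + v) = hp P m x z := by
  refine hp_eq_of_ne (fun x hx => ?_) x
  rw [hp_of_ne hP hx, hp_of_ne hP hx, smul_add, (Prd P).smul_mem x⁻¹ hv]

lemma eval_aeval_lin {k : ℕ} (P : MvPolynomial (Fin n) ℂ) (f : Fin n → MvPolynomial (Fin k) ℂ)
    (y : Fin k → ℂ) : eval y (aeval f P) = eval (fun j => eval y (f j)) P := by
  induction P using MvPolynomial.induction_on with
  | C a => rw [aeval_C, algebraMap_eq, eval_C, eval_C]
  | add p q hp hq => rw [map_add, map_add, map_add, hp, hq]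
  | mul_X p i hp => rw [map_mul, map_mul, map_mul, hp, aeval_X, eval_X]

lemma totalDegree_aeval_lin {k : ℕ} (P : MvPolynomial (Fin n) ℂ)
    (f : Fin n → MvPolynomial (Fin k) ℂ) (hf : ∀ j, (f j).totalDegree ≤ 1) :
    (aeval f P).totalDegree ≤ P.totalDegree := by
  rw [aeval_def, eval₂_eq']
  refine totalDegree_finsetSum_le fun s hs => ?_
  refine (totalDegree_mul _ _).trans ?_
  rw [algebraMap_eq, totalDegree_C, zero_add]
  refine (totalDegree_finsetProd _ _).trans ?_
  have h1 : ∀ i : Fin n, (f i ^ s i).totalDegree ≤ s i := fun i =>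
    (totalDegree_pow _ _).trans (by simpa using Nat.mul_le_mul_left (s i) (hf i))
  refine (Finset.sum_le_sum fun i _ => h1 i).trans ?_
  have h2 := le_totalDegree hs
  rwa [Finsupp.sum_fintype _ _ (fun _ => rfl)] at h2

/-- The reduction. -/
theorem exists_reduction (P : MvPolynomial (Fin n) ℂ) :
    ∃ (k : ℕ) (Q : MvPolynomial (Fin k) ℂ) (L : Matrix (Fin k) (Fin n) ℂ),
      L * L.conjTranspose = 1 ∧ (∀ y, eval y Q = eval (L.conjTranspose.mulVec y) P) ∧
      (∀ z, eval z P = eval (L.conjTranspose.mulVec (L.mulVec z)) P) ∧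
      Q.totalDegree ≤ P.totalDegree ∧
      (∀ z, z - L.conjTranspose.mulVec (L.mulVec z) ∈ Prd P) ∧
      (∀ y, ∀ u ∈ Prd P, ∑ j, L.conjTranspose.mulVec y j * (starRingEnd ℂ) (u j) = 0) := by
  classical
  -- the orthogonal complement
  set S : Submodule ℂ (EuclideanSpace ℂ (Fin n)) :=
    (Prd P).comap (WithLp.linearEquiv 2 ℂ (Fin n → ℂ)).toLinearMap with hS
  set k := Module.finrank ℂ Sᗮ with hk
  set e : OrthonormalBasis (Fin k) ℂ Sᗮ := stdOrthonormalBasis ℂ Sᗮ with he
  set L : Matrix (Fin k) (Fin n) ℂ := fun i j => (starRingEnd ℂ) ((e i : EuclideanSpace ℂ (Fin n)) j)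
    with hL
  have hLs : ∀ y : Fin k → ℂ, L.conjTranspose.mulVec y
      = (WithLp.linearEquiv 2 ℂ (Fin n → ℂ)) (∑ i, y i • (e i : EuclideanSpace ℂ (Fin n))) := by
    intro y
    funext j
    simp only [Matrix.mulVec, dotProduct, Matrix.conjTranspose_apply, hL]
    rw [map_sum, Finset.sum_apply]
    refine Finset.sum_congr rfl fun i _ => ?_
    rw [map_smul, Pi.smul_apply, smul_eq_mul, mul_comm]
    congr 1
    exact Complex.conj_conj _
  have hLz : ∀ z : Fin n → ℂ, ∀ i, L.mulVec z i
      = inner ℂ (e i : EuclideanSpace ℂ (Fin n)) ((WithLp.linearEquiv 2 ℂ (Fin n → ℂ)).symm z) := by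
    intro z i
    rw [PiLp.inner_apply]
    simp only [Matrix.mulVec, dotProduct, hL]
    refine Finset.sum_congr rfl fun j _ => ?_
    rw [mul_comm]
    rfl
  -- the projection
  have hproj : ∀ z : Fin n → ℂ, z - L.conjTranspose.mulVec (L.mulVec z) ∈ Prd P := by
    intro z
    set Z : EuclideanSpace ℂ (Fin n) := (WithLp.linearEquiv 2 ℂ (Fin n → ℂ)).symm z with hZ
    have h1 : ∑ i, (L.mulVec z i) • (e i : EuclideanSpace ℂ (Fin n)) = Sᗮ.starProjection Z := by
      have h2 := e.sum_repr (Sᗮ.orthogonalProjectionOnto Z)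
      rw [Submodule.starProjection_apply, ← h2, Submodule.coe_sum]
      refine Finset.sum_congr rfl fun i _ => ?_
      rw [Submodule.coe_smul]
      congr 1
      rw [hLz, e.repr_apply_apply]
      rw [Submodule.coe_inner]
      have h3 := Submodule.starProjection_inner_eq_zero (K := Sᗮ) Z (e i) (e i).2
      rw [inner_sub_left, sub_eq_zero] at h3
      have h4 := congrArg (starRingEnd ℂ) h3
      rw [inner_conj_symm, inner_conj_symm] at h4
      rw [← hZ, h4]
      rfl
    have h5 : Z - Sᗮ.starProjection Z ∈ S := by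
      have h6 := Submodule.sub_starProjection_mem_orthogonal (K := Sᗮ) Z
      rwa [Submodule.orthogonal_orthogonal] at h6
    have h7 : (WithLp.linearEquiv 2 ℂ (Fin n → ℂ)) (Z - Sᗮ.starProjection Z) ∈ Prd P := h5
    have h8 : (WithLp.linearEquiv 2 ℂ (Fin n → ℂ)) (Z - Sᗮ.starProjection Z)
        = z - L.conjTranspose.mulVec (L.mulVec z) := by
      rw [map_sub, hLs, h1]
      congr 1
    rw [h8] at h7
    exact h7
  have hLL : L * L.conjTranspose = 1 := by
    ext i j
    rw [Matrix.mul_apply]
    have h1 := e.orthonormal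
    rw [orthonormal_iff_ite] at h1
    have h2 := h1 i j
    rw [Submodule.coe_inner, PiLp.inner_apply] at h2
    rw [Matrix.one_apply, ← h2]
    refine Finset.sum_congr rfl fun l _ => ?_
    simp only [Matrix.conjTranspose_apply, hL]
    rw [mul_comm]
    congr 1
    exact Complex.conj_conj _
  have hPL : ∀ z, eval z P = eval (L.conjTranspose.mulVec (L.mulVec z)) P := by
    intro z
    have h1 := hproj z (L.conjTranspose.mulVec (L.mulVec z))
    rw [add_sub_cancel] at h1
    exact h1
  set Q : MvPolynomial (Fin k) ℂ :=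
    aeval (fun j => ∑ i, C ((starRingEnd ℂ) (L i j)) * X i) P with hQdef
  have hQ : ∀ y, eval y Q = eval (L.conjTranspose.mulVec y) P := by
    intro y
    rw [hQdef, eval_aeval_lin]
    congr 2
    funext j
    simp only [map_sum, map_mul, eval_C, eval_X, Matrix.mulVec, dotProduct,
      Matrix.conjTranspose_apply]
    rfl
  have hQd : Q.totalDegree ≤ P.totalDegree := by
    refine (totalDegree_aeval_lin P _ fun j => ?_)
    refine totalDegree_finsetSum_le fun i _ => ?_
    refine (totalDegree_mul _ _).trans ?_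
    rw [totalDegree_C, totalDegree_X]
  refine ⟨k, Q, L, hLL, hQ, hPL, hQd, hproj, ?_⟩
  intro y u hu
  have h2 : ((WithLp.linearEquiv 2 ℂ (Fin n → ℂ)).symm u) ∈ S := hu
  have h1 : (∑ i, y i • (e i : EuclideanSpace ℂ (Fin n))) ∈ Sᗮ :=
    Submodule.sum_mem _ fun i _ => Submodule.smul_mem _ _ (e i).2
  have h3 := (Submodule.mem_orthogonal S _).1 h1 _ h2
  rw [PiLp.inner_apply] at h3
  rw [← h3]
  refine Finset.sum_congr rfl fun j _ => ?_
  rw [hLs]
  rfl

/-- Non-degeneracy of the reduced polynomial. -/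
theorem nonsing_reduction {P : MvPolynomial (Fin n) ℂ} {m k : ℕ} {Q : MvPolynomial (Fin k) ℂ}
    {L : Matrix (Fin k) (Fin n) ℂ} (hP : P.totalDegree ≤ m) (hQd : Q.totalDegree ≤ m)
    (hc : ∀ v ∈ Crit P m, v ∈ Prd P)
    (hLL : L * L.conjTranspose = 1) (hQ : ∀ y, eval y Q = eval (L.conjTranspose.mulVec y) P)
    (hproj : ∀ z, z - L.conjTranspose.mulVec (L.mulVec z) ∈ Prd P)
    (horth : ∀ y, ∀ u ∈ Prd P, ∑ j, L.conjTranspose.mulVec y j * (starRingEnd ℂ) (u j) = 0)
    (hv0 : ∃ v : Fin n → ℂ, hp P m 0 v ≠ 0) :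
    Nonsing Q m ∧ ∃ v : Fin k → ℂ, hp Q m 0 v ≠ 0 := by
  have hhp : ∀ (x : ℂ) (y : Fin k → ℂ), hp Q m x y = hp P m x (L.conjTranspose.mulVec y) := by
    intro x y
    refine hp_eq_of_ne (fun x hx => ?_) x
    rw [hp_of_ne hQd hx, hp_of_ne hP hx, hQ, Matrix.mulVec_smul]
  refine ⟨?_, ?_⟩
  · intro y hy
    by_contra hcon
    push Not at hcon
    -- the point `L^* y` is critical
    set u := L.conjTranspose.mulVec y with hu
    have hLu : L.mulVec u = y := by
      rw [hu, Matrix.mulVec_mulVec, hLL, Matrix.one_mulVec]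
    have hd : DifferentiableAt ℂ (fun u => hp P m 0 u) u := differentiable_hp P m 0 u
    have hc1 : ∀ c ∈ Prd P, fderiv ℂ (fun u => hp P m 0 u) u c = 0 := by
      intro c hc'
      have h1 : HasDerivAt (fun t : ℂ => hp P m 0 (u + t • c))
          (fderiv ℂ (fun u => hp P m 0 u) u c) 0 := by
        have h2 : HasDerivAt (fun t : ℂ => u + t • c) c 0 := by
          simpa using ((hasDerivAt_id (0 : ℂ)).smul_const c).const_add u
        have h3 : HasFDerivAt (fun u => hp P m 0 u) (fderiv ℂ (fun u => hp P m 0 u) u)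
            (u + (0 : ℂ) • c) := by
          rw [zero_smul, add_zero]; exact hd.hasFDerivAt
        exact h3.comp_hasDerivAt (0 : ℂ) h2
      have h4 : (fun t : ℂ => hp P m 0 (u + t • c)) = fun _ => hp P m 0 u := by
        funext t
        exact hp_add_prd hP ((Prd P).smul_mem t hc') u 0
      rw [h4] at h1
      exact h1.unique (hasDerivAt_const _ _)
    have hc2 : ∀ w : Fin k → ℂ,
        fderiv ℂ (fun u => hp P m 0 u) u (L.conjTranspose.mulVec w) = 0 := by
      intro w
      have h1 : HasDerivAt (fun t : ℂ => hp P m 0 (u + t • L.conjTranspose.mulVec w))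
          (fderiv ℂ (fun u => hp P m 0 u) u (L.conjTranspose.mulVec w)) 0 := by
        have h2 : HasDerivAt (fun t : ℂ => u + t • L.conjTranspose.mulVec w)
            (L.conjTranspose.mulVec w) 0 := by
          simpa using ((hasDerivAt_id (0 : ℂ)).smul_const (L.conjTranspose.mulVec w)).const_add u
        have h3 : HasFDerivAt (fun u => hp P m 0 u) (fderiv ℂ (fun u => hp P m 0 u) u)
            (u + (0 : ℂ) • L.conjTranspose.mulVec w) := by
          rw [zero_smul, add_zero]; exact hd.hasFDerivAt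
        exact h3.comp_hasDerivAt (0 : ℂ) h2
      have h1' : HasDerivAt (fun t : ℂ => hp Q m 0 (y + t • w))
          (fderiv ℂ (fun u => hp Q m 0 u) y w) 0 := by
        have h2 : HasDerivAt (fun t : ℂ => y + t • w) w 0 := by
          simpa using ((hasDerivAt_id (0 : ℂ)).smul_const w).const_add y
        have h3 : HasFDerivAt (fun u => hp Q m 0 u) (fderiv ℂ (fun u => hp Q m 0 u) y)
            (y + (0 : ℂ) • w) := by
          rw [zero_smul, add_zero]
          exact (differentiable_hp Q m 0 y).hasFDerivAt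
        exact h3.comp_hasDerivAt (0 : ℂ) h2
      have h4 : (fun t : ℂ => hp P m 0 (u + t • L.conjTranspose.mulVec w))
          = fun t => hp Q m 0 (y + t • w) := by
        funext t
        rw [hhp, Matrix.mulVec_add, Matrix.mulVec_smul]
      rw [h4] at h1
      rw [h1.unique h1', fderiv_hp]
      refine Finset.sum_eq_zero fun i _ => ?_
      rw [hcon i]
      ring
    have hucrit : u ∈ Crit P m := by
      intro j
      have h1 : (Pi.single j (1 : ℂ) : Fin n → ℂ)
          = (Pi.single j 1 - L.conjTranspose.mulVec (L.mulVec (Pi.single j 1)))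
            + L.conjTranspose.mulVec (L.mulVec (Pi.single j 1)) := by
        rw [sub_add_cancel]
      unfold gr
      rw [h1, map_add, hc1 _ (hproj _), hc2, add_zero]
    have h0 := horth y u (hc u hucrit)
    rw [← hu] at h0
    have h1 : ∀ j, u j = 0 := by
      have h2 : ∑ j, ‖u j‖ ^ 2 = 0 := by
        have h3 : ((∑ j, ‖u j‖ ^ 2 : ℝ) : ℂ) = ∑ j, u j * (starRingEnd ℂ) (u j) := by
          push_cast
          exact Finset.sum_congr rfl fun j _ => (Complex.mul_conj' (u j)).symm
        rw [h0] at h3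
        exact_mod_cast h3
      intro j
      have h4 := (Finset.sum_eq_zero_iff_of_nonneg (fun i _ => sq_nonneg ‖u i‖)).1 h2 j
        (Finset.mem_univ j)
      exact norm_eq_zero.1 (pow_eq_zero_iff two_ne_zero |>.1 h4)
    apply hy
    have h5 : u = 0 := funext h1
    rw [← hLu, h5, Matrix.mulVec_zero]
  · obtain ⟨v, hv⟩ := hv0
    refine ⟨L.mulVec v, ?_⟩
    rw [hhp]
    have h1 := hp_add_prd hP (hproj v) (L.conjTranspose.mulVec (L.mulVec v)) 0
    rw [add_sub_cancel] at h1
    rwa [← h1]

end Pool.Agent.H60.FB
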