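import Pool.Agent.H77.FB.Stmt
import Pool.Agent.H77.FB.Gauss

/-!
Definitions for the surjectivity of `Φ_P` when the leading form of `P` has no critical point
off the origin (problem MP_6e521b_an).
-/

open MvPolynomial MeasureTheory Pool.Agent.H77.FB

namespace Pool.Agent.H60.FB

variable {n : ℕ}

/-- `∑_s P_s x^(m-|s|) u^s`: the homogenisation of `P`, for a degree bound `m`. -/
noncomputable def hp (P : MvPolynomial (Fin n) ℂ) (m : ℕ) (x : ℂ) (u : Fin n → ℂ) : ℂ :=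
  ∑ s ∈ P.support, P.coeff s * x ^ (m - s.degree) * ∏ i, u i ^ s i

/-- The partial derivative in `u_j` of the homogenisation. -/
noncomputable def gr (P : MvPolynomial (Fin n) ℂ) (m : ℕ) (x : ℂ) (u : Fin n → ℂ) (j : Fin n) :
    ℂ :=
  fderiv ℂ (fun u => hp P m x u) u (Pi.single j 1)

/-- The leading form of `P` has no critical point off the origin. -/
def Nonsing (P : MvPolynomial (Fin n) ℂ) (m : ℕ) : Prop :=
  ∀ u : Fin n → ℂ, u ≠ 0 → ∃ j, gr P m 0 u j ≠ 0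

/-- `|ζ|^2`. -/
noncomputable def sq (ζ : Fin n → ℂ) : ℝ := ∑ j, ‖ζ j‖ ^ 2

/-- The holomorphic partial derivative. -/
noncomputable def D (j : Fin n) (f : (Fin n → ℂ) → ℂ) (z : Fin n → ℂ) : ℂ :=
  fderiv ℂ f z (Pi.single j 1)

/-- Iterated partial derivatives; the head of the list is applied first. -/
noncomputable def DL : List (Fin n) → ((Fin n → ℂ) → ℂ) → (Fin n → ℂ) → ℂ
  | [], f => f
  | j :: L, f => DL L (D j f)

/-- The list of variables of a multi-index. -/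
noncomputable def ls (s : Fin n →₀ ℕ) : List (Fin n) := (Finsupp.toMultiset s).toList

/-- `Q(εD)`, for a real parameter `ε`. -/
noncomputable def QD (Q : MvPolynomial (Fin n) ℂ) (ε : ℝ) (f : (Fin n → ℂ) → ℂ)
    (z : Fin n → ℂ) : ℂ :=
  ∑ s ∈ Q.support, Q.coeff s * (ε : ℂ) ^ s.degree * DL (ls s) f z

/-- The Wirtinger derivative `∂/∂ζ_j` of a function of `(ζ, ε)`. -/
noncomputable def W (j : Fin n) (b : (Fin n → ℂ) × ℝ → ℂ) (x : (Fin n → ℂ) × ℝ) : ℂ :=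
  (1 / 2) * (fderiv ℝ b x (Pi.single j 1, 0)
    - Complex.I * fderiv ℝ b x (Pi.single j Complex.I, 0))

/-- The coefficients `a_L` of the iterated Wirtinger derivatives of `(1 - ψ)_+^N`. -/
noncomputable def aL (ψ : (Fin n → ℂ) × ℝ → ℝ) : List (Fin n) → (Fin n → ℂ) × ℝ → ℂ
  | [] => fun _ => 1
  | j :: L => fun x => (1 - L.length * (x.2 : ℂ) ^ 2) * W j (fun y => (ψ y : ℂ)) x * aL ψ L x
      - (x.2 : ℂ) ^ 2 * ((1 - ψ x : ℝ) : ℂ) * W j (aL ψ L) x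

/-- The multiplier `M`. -/
noncomputable def MM (P : MvPolynomial (Fin n) ℂ) (m : ℕ) (ψ : (Fin n → ℂ) × ℝ → ℝ)
    (x : (Fin n → ℂ) × ℝ) : ℂ :=
  ∑ s ∈ P.support, (starRingEnd ℂ) (P.coeff s) * ((x.2 * (1 - ψ x) : ℝ) : ℂ) ^ (m - s.degree)
    * aL ψ (ls s) x

/-- The quantity `G^2`, with `g` the value of `1 - ψ`. -/
noncomputable def GG (P : MvPolynomial (Fin n) ℂ) (m : ℕ) (ε g : ℝ) (ζ : Fin n → ℂ) : ℝ :=
  (g * ε) ^ 2 * ∑ j, ‖gr P m ε ζ j‖ ^ 2 + (g * ε) ^ (2 * m)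

/-- The properties of the weight function `ψ` used in the integral estimates; `ω` is its
Wirtinger gradient. -/
structure IsW (L : ℝ) (ψ : (Fin n → ℂ) → ℝ) (ω : (Fin n → ℂ) → Fin n → ℂ) : Prop where
  cont : Continuous ψ
  lower : ∀ ζ, -1 ≤ ψ ζ
  bdd : ∀ ζ, ψ ζ < 1 → sq ζ ≤ 2
  inner : ∀ ζ, sq ζ ≤ 1 / 4 → ψ ζ ≤ 1 / 2
  der : ∀ ζ, ψ ζ < 1 → ∀ w : Fin n → ℂ, ‖w‖ ≤ 1 →
    |ψ (ζ + w) - ψ ζ - 2 * (∑ j, w j * ω ζ j).re| ≤ L * ‖w‖ ^ 2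
  lip : ∀ ζ, ψ ζ < 1 → ∀ j, ‖ω ζ j‖ ≤ L

/-- The a priori estimate. -/
def Est (P : MvPolynomial (Fin n) ℂ) : Prop :=
  ∀ ρ : ℝ, ∃ ρ' C : ℝ, ∀ f : (Fin n → ℂ) → ℂ, Differentiable ℂ f → ∀ A : ℝ,
    (∀ z, ‖z‖ ≤ ρ' → ‖QD (star' P) 1 (fun z => eval z P * f z) z‖ ≤ A) →
      ∀ z, ‖z‖ ≤ ρ → ‖eval z P * f z‖ ≤ C * A

end Pool.Agent.H60.FB
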