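import Pool.Agent.H60.FB.Defs
import Pool.Agent.H77.FB.Dens

/-!
The partial derivatives of an entire function on `ℂ^n` are entire, and an entire function is
continuously differentiable.
-/

open MvPolynomial MeasureTheory Pool.Agent.H77.FB
open scoped ContDiff

namespace Pool.Agent.H60.FB

variable {n : ℕ}

lemma D_eq {f : (Fin n → ℂ) → ℂ} (hf : Differentiable ℂ f) (j : Fin n) (z : Fin n → ℂ) :
    D j f z = (2 * Real.pi * Complex.I : ℂ)⁻¹ • ∫ θ in (0 : ℝ)..2 * Real.pi,
      deriv (circleMap 0 1) θ • ((1 / (circleMap 0 1 θ - 0) ^ 2) •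
        f (z + circleMap 0 1 θ • Pi.single j 1)) := by
  have h1 : HasDerivAt (fun c : ℂ => f (z + c • Pi.single j 1)) (D j f z) 0 := by
    have h2 : HasFDerivAt f (fderiv ℂ f z) (z + (0 : ℂ) • Pi.single j 1) := by
      rw [zero_smul, add_zero]; exact (hf z).hasFDerivAt
    have h3 : HasDerivAt (fun c : ℂ => z + c • (Pi.single j 1 : Fin n → ℂ)) (Pi.single j 1) 0 := by
      have := ((hasDerivAt_id (0 : ℂ)).smul_const (Pi.single j 1 : Fin n → ℂ)).const_add z
      simpa using this
    exact h2.comp_hasDerivAt (0 : ℂ) h3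
  have h4 : Differentiable ℂ (fun c : ℂ => f (z + c • (Pi.single j 1 : Fin n → ℂ))) :=
    hf.comp ((differentiable_id.smul_const _).const_add z)
  have h5 := (h4.diffContOnCl (s := Metric.ball 0 1)).deriv_eq_smul_circleIntegral one_pos
  rw [h1.deriv] at h5
  rw [eq_inv_smul_iff₀ Complex.two_pi_I_ne_zero, ← h5]
  rfl

/-- The partial derivatives of an entire function are entire. -/
lemma differentiable_D {f : (Fin n → ℂ) → ℂ} (hf : Differentiable ℂ f) (j : Fin n) :
    Differentiable ℂ (D j f) := by
  have h1 : D j f = fun z => (2 * Real.pi * Complex.I : ℂ)⁻¹ • ∫ θ in (0 : ℝ)..2 * Real.pi,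
      deriv (circleMap 0 1) θ • ((1 / (circleMap 0 1 θ - 0) ^ 2) •
        f (z + circleMap 0 1 θ • Pi.single j 1)) := by
    funext z; exact D_eq hf j z
  rw [h1]
  apply Differentiable.fun_const_smul
  apply differentiable_integral
  · have hne : ∀ θ : ℝ, circleMap 0 1 θ - 0 ≠ 0 := fun θ => by
      rw [sub_zero]; exact circleMap_ne_center one_ne_zero
    have hcm : Continuous (fun p : ℝ × (Fin n → ℂ) => circleMap 0 1 p.1) :=
      (continuous_circleMap 0 1).comp continuous_fst
    change Continuous (fun p : ℝ × (Fin n → ℂ) => deriv (circleMap 0 1) p.1 •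
      ((1 / (circleMap 0 1 p.1 - 0) ^ 2) •
        f (p.2 + circleMap 0 1 p.1 • Pi.single j 1)))
    have hz : Continuous (fun p : ℝ × (Fin n → ℂ) =>
        p.2 + circleMap 0 1 p.1 • (Pi.single j 1 : Fin n → ℂ)) :=
      continuous_snd.add (Continuous.smul hcm continuous_const)
    simp only [smul_eq_mul]
    refine Continuous.mul ?_ (Continuous.mul ?_ ?_)
    · simp only [deriv_circleMap]
      exact hcm.mul continuous_const
    · exact continuous_const.div ((hcm.sub continuous_const).pow 2)
        fun p => pow_ne_zero 2 (hne p.1)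
    · exact hf.continuous.comp hz
  · intro θ
    apply Differentiable.fun_const_smul
    apply Differentiable.fun_const_smul
    exact hf.comp (differentiable_id.add_const _)

lemma differentiable_DL {f : (Fin n → ℂ) → ℂ} (hf : Differentiable ℂ f) (L : List (Fin n)) :
    Differentiable ℂ (DL L f) := by
  induction L generalizing f with
  | nil => exact hf
  | cons j L ih => exact ih (differentiable_D hf j)

lemma fderiv_eq_sum (f : (Fin n → ℂ) → ℂ) (z v : Fin n → ℂ) :
    fderiv ℂ f z v = ∑ j, v j * D j f z := by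
  conv_lhs => rw [pi_eq_sum_univ' v]
  rw [map_sum]
  refine Finset.sum_congr rfl fun j _ => ?_
  rw [map_smul, smul_eq_mul]
  unfold D
  congr 2

/-- An entire function is continuously differentiable. -/
lemma contDiff_one {f : (Fin n → ℂ) → ℂ} (hf : Differentiable ℂ f) : ContDiff ℂ 1 f := by
  rw [contDiff_one_iff_fderiv]
  refine ⟨hf, ?_⟩
  have h1 : fderiv ℂ f = fun z => ∑ j, D j f z •
      (ContinuousLinearMap.proj j : (Fin n → ℂ) →L[ℂ] ℂ) := by
    funext z
    ext v
    rw [fderiv_eq_sum]
    simp [mul_comm]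
  rw [h1]
  refine continuous_finsetSum _ fun j _ => ?_
  exact (differentiable_D hf j).continuous.smul continuous_const

end Pool.Agent.H60.FB
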