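import Pool.Agent.H60.FB.Weight
import Pool.Agent.H10.FB.Kappa
import Pool.Agent.H37.FB.Est
import Pool.Agent.H37.FB.Borel
import Pool.Agent.H37.FB.Surj
import Pool.Agent.H55.FB.Qest

/-!
Surjectivity of `Φ_P` when the leading form of `P` has no critical point off the origin.
-/

open MvPolynomial MeasureTheory Pool.Agent.H77.FB
open scoped ContDiff

namespace Pool.Agent.H60.FB

variable {n : ℕ}

lemma hp_zero {P : MvPolynomial (Fin n) ℂ} {m : ℕ} (hP : P.totalDegree ≤ m) (u : Fin n → ℂ) :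
    hp P m 0 u = eval u (homogeneousComponent m P) := by
  rw [homogeneousComponent_apply, map_sum]
  unfold hp
  rw [Finset.sum_filter]
  refine Finset.sum_congr rfl fun s hs => ?_
  have hd : s.degree ≤ m := (MvPolynomial.le_totalDegree hs).trans hP
  split_ifs with h
  · rw [h, Nat.sub_self, pow_zero, mul_one, eval_monomial, Finsupp.prod_fintype]
    intro i; exact pow_zero _
  · have : m - s.degree ≠ 0 := by omega
    rw [zero_pow this]
    ring

/-- The derivative of the evaluation of a polynomial. -/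
lemma fderiv_eval (Q : MvPolynomial (Fin n) ℂ) (u : Fin n → ℂ) (j : Fin n) :
    fderiv ℂ (fun u => eval u Q) u (Pi.single j 1) = eval u (pderiv j Q) := by
  induction Q using MvPolynomial.induction_on with
  | C a =>
    simp only [eval_C, pderiv_C, map_zero]
    rw [fderiv_fun_const]
    rfl
  | add p q hp hq =>
    have h1 : (fun u : Fin n → ℂ => eval u (p + q)) = fun u => eval u p + eval u q := by
      funext u; rw [map_add]
    rw [h1, fderiv_fun_add (differentiable_eval p u) (differentiable_eval q u), add_apply, hp, hq,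
      map_add, map_add]
  | mul_X p i hp =>
    have h1 : (fun u : Fin n → ℂ => eval u (p * X i)) = fun u => eval u p * u i := by
      funext u; rw [map_mul, eval_X]
    have h2 : HasFDerivAt (fun u : Fin n → ℂ => u i)
        (ContinuousLinearMap.proj i : (Fin n → ℂ) →L[ℂ] ℂ) u :=
      (ContinuousLinearMap.proj i : (Fin n → ℂ) →L[ℂ] ℂ).hasFDerivAt
    have h3 : HasFDerivAt (fun u : Fin n → ℂ => eval u p * u i) _ u :=
      (differentiable_eval p u).hasFDerivAt.mul h2
    rw [h1, h3.fderiv]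
    simp only [add_apply, smul_apply, smul_eq_mul, ContinuousLinearMap.proj_apply]
    rw [hp, pderiv_mul, map_add, map_mul, map_mul, eval_X, pderiv_X]
    by_cases hij : i = j
    · subst hij; simp; ring
    · rw [Pi.single_eq_of_ne hij, Pi.single_eq_of_ne hij, map_zero]; ring

lemma gr_zero {P : MvPolynomial (Fin n) ℂ} {m : ℕ} (hP : P.totalDegree ≤ m) (u : Fin n → ℂ)
    (j : Fin n) : gr P m 0 u j = eval u (pderiv j (homogeneousComponent m P)) := by
  unfold gr
  rw [← fderiv_eval]
  congr 2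
  funext u
  exact hp_zero hP u

theorem exists_KD {P : MvPolynomial (Fin n) ℂ} {m : ℕ} (hP : P.totalDegree ≤ m)
    (hns : Nonsing P m) (η : ℝ) (hη : 0 < η) (hη1 : η ≤ 1) :
    ∃ (κ : (Fin n → ℂ) × ℝ → ℂ) (ε₀ C : ℝ), 0 < ε₀ ∧ KD P m η ε₀ C κ := by
  obtain ⟨κ, h1, h2, h3, h4, ε₀, hε₀, C, h5⟩ := exists_kappa P hP hns hη hη1
  exact ⟨κ, ε₀, C, hε₀, ⟨⟨h1, h2⟩, h3, h4, h5⟩⟩

/-- The a priori estimate for polynomials whose leading form has no critical point off the
origin. -/
theorem est_of_nonsing {P : MvPolynomial (Fin n) ℂ} {m : ℕ} (hP : P.totalDegree ≤ m)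
    (hm : 1 ≤ m) (hns : Nonsing P m) (hv : ∃ v : Fin n → ℂ, hp P m 0 v ≠ 0) : Est P :=
  est_of P hP (weight_of hP hm hns (exists_KD hP hns)) (fun L => Pool.Agent.H55.FB.qest P hP hv L)

lemma exists_ne_of_nonsing {P : MvPolynomial (Fin n) ℂ} {m : ℕ} (hn : 0 < n)
    (hns : Nonsing P m) : ∃ v : Fin n → ℂ, hp P m 0 v ≠ 0 := by
  by_contra h
  push Not at h
  obtain ⟨j, hj⟩ := hns (Pi.single ⟨0, hn⟩ 1) (by
    intro h0
    have := congrFun h0 ⟨0, hn⟩
    simp at this)
  apply hj
  unfold gr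
  have h1 : (fun u : Fin n → ℂ => hp P m 0 u) = fun _ => 0 := funext h
  rw [h1, fderiv_fun_const]
  rfl

theorem surj_of_nonsing {P : MvPolynomial (Fin n) ℂ} {m : ℕ} (hn : 0 < n)
    (hP : P.totalDegree ≤ m) (hm : 1 ≤ m) (hns : Nonsing P m) : PhiSurjective P :=
  surj_of_est P (est_of_nonsing hP hm hns (exists_ne_of_nonsing hn hns))
    (fun _ hs => borel_repr hs)

end Pool.Agent.H60.FB
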