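import Pool.Agent.H60.FB.Psi

/-!
Homogeneous bounds for the gradient of the homogenisation.
-/

open MvPolynomial MeasureTheory Pool.Agent.H77.FB
open scoped ContDiff

namespace Pool.Agent.H60.FB

variable {n : ℕ} {P : MvPolynomial (Fin n) ℂ} {m : ℕ}

lemma sq_smul (t : ℝ) (ζ : Fin n → ℂ) : sq (t • ζ) = t ^ 2 * sq ζ := by
  unfold sq
  rw [Finset.mul_sum]
  refine Finset.sum_congr rfl fun j _ => ?_
  rw [Pi.smul_apply, norm_smul, mul_pow, Real.norm_eq_abs, sq_abs]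

lemma gr_smul_real (hP : P.totalDegree ≤ m) (hm : 1 ≤ m) {t : ℝ} (ht : 0 < t) (x : ℝ)
    (u : Fin n → ℂ) (j : Fin n) :
    gr P m ((t * x : ℝ) : ℂ) (t • u) j = (t : ℂ) ^ (m - 1) * gr P m (x : ℂ) u j := by
  have h1 := gr_smul hP (t : ℂ) (x : ℂ) u j
  have h2 : (t : ℂ) ^ m = t * (t : ℂ) ^ (m - 1) := by
    rw [← pow_succ']; congr 1; omega
  rw [h2, mul_assoc] at h1
  have h3 := mul_left_cancel₀ (by exact_mod_cast ht.ne' : (t : ℂ) ≠ 0) h1
  rw [← h3]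
  push_cast
  congr 1

lemma sq_eq_zero {ζ : Fin n → ℂ} (h : sq ζ = 0) : ζ = 0 := by
  funext j
  have h1 := (Finset.sum_eq_zero_iff_of_nonneg (fun j _ => by positivity)).1 h j
    (Finset.mem_univ j)
  exact norm_eq_zero.1 (pow_eq_zero_iff two_ne_zero |>.1 h1)

/-- The lower bound for the gradient. -/
lemma hom_lower (hP : P.totalDegree ≤ m) (hm : 1 ≤ m) (hns : Nonsing P m) :
    ∃ c > (0 : ℝ), ∀ (ζ : Fin n → ℂ) (ε : ℝ), 0 < ε →
      c * (sq ζ + ε ^ 2) ^ (m - 1) ≤ (∑ j, ‖gr P m ε ζ j‖ ^ 2) + (ε ^ 2) ^ (m - 1) := by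
  set f : (Fin n → ℂ) × ℝ → ℝ := fun x =>
    (∑ j, ‖gr P m x.2 x.1 j‖ ^ 2) + (x.2 ^ 2) ^ (m - 1) with hf
  have hfc : Continuous f := by
    refine Continuous.add ?_ (by fun_prop)
    exact continuous_finsetSum _ fun j _ => ((contDiff_grt P m j).continuous.norm.pow 2)
  set K : Set ((Fin n → ℂ) × ℝ) := {x | sq x.1 + x.2 ^ 2 = 1 ∧ 0 ≤ x.2} with hK
  have hKc : IsCompact K := by
    refine Metric.isCompact_of_isClosed_isBounded ?_ ?_
    · refine IsClosed.and ?_ ?_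
      · exact isClosed_eq (((contDiff_sq.continuous).comp continuous_fst).add
          (continuous_snd.pow 2)) continuous_const
      · exact isClosed_le continuous_const continuous_snd
    · refine (Metric.isBounded_closedBall (x := (0 : (Fin n → ℂ) × ℝ)) (r := 2)).subset ?_
      rintro ⟨ζ, ε⟩ ⟨h1, h2⟩
      rw [mem_closedBall_zero_iff]
      simp only at h1 h2
      have h3 := sq_nonneg' ζ
      refine norm_prod_le_iff.2 ⟨?_, ?_⟩
      · have h4 := norm_le_of_sq (ζ := ζ) (R := 1) (by nlinarith [sq_nonneg ε])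
        exact h4.trans (by norm_num)
      · change |ε| ≤ 2
        rw [abs_le]
        constructor <;> nlinarith
  have hKn : K.Nonempty := ⟨(0, 1), by simp [sq], by simp⟩
  obtain ⟨x₀, hx₀, hmin⟩ := hKc.exists_isMinOn hKn hfc.continuousOn
  have hpos : 0 < f x₀ := by
    have h0 : ∀ j, 0 ≤ ‖gr P m x₀.2 x₀.1 j‖ ^ 2 := fun j => by positivity
    rcases hx₀.2.eq_or_lt with h | h
    · have h1 : x₀.1 ≠ 0 := by
        intro h2
        have h3 := hx₀.1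
        rw [h2, ← h] at h3
        simp [sq] at h3
      obtain ⟨j, hj⟩ := hns x₀.1 h1
      have h4 : 0 < ‖gr P m x₀.2 x₀.1 j‖ ^ 2 := by
        rw [← h, Complex.ofReal_zero]; positivity
      have h5 := Finset.single_le_sum (f := fun j => ‖gr P m x₀.2 x₀.1 j‖ ^ 2)
        (fun j _ => h0 j) (Finset.mem_univ j)
      have h6 : 0 ≤ (x₀.2 ^ 2) ^ (m - 1) := by positivity
      exact add_pos_of_pos_of_nonneg (lt_of_lt_of_le h4 h5) h6
    · exact add_pos_of_nonneg_of_pos (Finset.sum_nonneg fun j _ => h0 j) (by positivity)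
  refine ⟨f x₀, hpos, fun ζ ε hε => ?_⟩
  have hr : 0 < sq ζ + ε ^ 2 := by have := sq_nonneg' ζ; positivity
  set t := Real.sqrt (sq ζ + ε ^ 2) with ht
  have ht0 : 0 < t := Real.sqrt_pos.2 hr
  have ht2 : t ^ 2 = sq ζ + ε ^ 2 := Real.sq_sqrt hr.le
  have hmem : ((t⁻¹ : ℝ) • ζ, t⁻¹ * ε) ∈ K := by
    refine ⟨?_, by positivity⟩
    simp only
    rw [sq_smul, mul_pow, ← mul_add, ← ht2, ← mul_pow, inv_mul_cancel₀ ht0.ne', one_pow]
  have h1 := hmin hmem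
  have h2 : ∀ j, gr P m ε ζ j
      = (t : ℂ) ^ (m - 1) * gr P m ((t⁻¹ * ε : ℝ) : ℂ) ((t⁻¹ : ℝ) • ζ) j := by
    intro j
    rw [← gr_smul_real hP hm ht0, smul_smul, mul_inv_cancel₀ ht0.ne', one_smul, ← mul_assoc,
      mul_inv_cancel₀ ht0.ne', one_mul]
  have h3 : f (ζ, ε) = (t ^ 2) ^ (m - 1) * f ((t⁻¹ : ℝ) • ζ, t⁻¹ * ε) := by
    simp only [hf]
    rw [mul_add, Finset.mul_sum]
    congr 1
    · refine Finset.sum_congr rfl fun j _ => ?_
      rw [h2 j, norm_mul, norm_pow, Complex.norm_real, Real.norm_of_nonneg ht0.le, mul_pow]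
      ring
    · rw [← mul_pow, ← mul_pow, ← mul_assoc, mul_inv_cancel₀ ht0.ne', one_mul]
  have h4 : f x₀ * (sq ζ + ε ^ 2) ^ (m - 1) ≤ f (ζ, ε) := by
    rw [h3, ← ht2, mul_comm]
    exact mul_le_mul_of_nonneg_left h1 (by positivity)
  exact h4

/-- A lower bound for the gradient away from the origin. -/
lemma shell_lower (hns : Nonsing P m) {η : ℝ} (hη : 0 < η) :
    ∃ c > (0 : ℝ), ∃ ε₂ > (0 : ℝ), ∀ (ζ : Fin n → ℂ) (ε : ℝ), η ≤ sq ζ → sq ζ ≤ 2 → |ε| ≤ ε₂ →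
      c ≤ ∑ j, ‖gr P m ε ζ j‖ ^ 2 := by
  set f : (Fin n → ℂ) × ℝ → ℝ := fun x => ∑ j, ‖gr P m x.2 x.1 j‖ ^ 2 with hf
  have hfs : ContDiff ℝ ∞ f :=
    ContDiff.sum fun j _ => (contDiff_norm_sq ℝ).comp (contDiff_grt P m j)
  set K : Set (Fin n → ℂ) := {ζ | η ≤ sq ζ ∧ sq ζ ≤ 2} with hK
  have hKc : IsCompact K := by
    refine (isCompact_sq 2).of_isClosed_subset ?_ fun ζ h => h.2
    exact (isClosed_le continuous_const contDiff_sq.continuous).and
      (isClosed_le contDiff_sq.continuous continuous_const)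
  rcases K.eq_empty_or_nonempty with h0 | h0
  · refine ⟨1, one_pos, 1, one_pos, fun ζ ε h1 h2 _ => ?_⟩
    exact absurd (show ζ ∈ K from ⟨h1, h2⟩) (by rw [h0]; simp)
  obtain ⟨ζ₀, hζ₀, hmin⟩ := hKc.exists_isMinOn h0
    ((hfs.continuous.comp (continuous_id.prodMk continuous_const)).continuousOn
      (f := fun ζ => f (ζ, 0)))
  have hpos : 0 < f (ζ₀, 0) := by
    have h1 : ζ₀ ≠ 0 := by
      intro h
      have := hζ₀.1
      rw [h] at this
      simp [sq] at this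
      linarith
    obtain ⟨j, hj⟩ := hns ζ₀ h1
    have h4 : 0 < ‖gr P m ((0 : ℝ) : ℂ) ζ₀ j‖ ^ 2 := by
      rw [Complex.ofReal_zero]; positivity
    exact lt_of_lt_of_le h4 (Finset.single_le_sum (f := fun j => ‖gr P m ((0 : ℝ) : ℂ) ζ₀ j‖ ^ 2)
        (fun j _ => by positivity) (Finset.mem_univ j))
  have hvan : Van (fun x : (Fin n → ℂ) × ℝ => f x - f (x.1, 0)) :=
    ⟨hfs.sub (hfs.comp (contDiff_fst.prodMk contDiff_const)), fun ζ => sub_self _⟩
  obtain ⟨C, hC, h1⟩ := hvan.bound 3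
  refine ⟨f (ζ₀, 0) / 2, by positivity, min 1 (f (ζ₀, 0) / 2 / (C + 1)), by positivity,
    fun ζ ε hζ hζ2 hε => ?_⟩
  have h2 := h1 ζ ε ((norm_le_of_sq hζ2).trans (by norm_num)) (hε.trans (min_le_left _ _))
  have h3 : C * |ε| ≤ f (ζ₀, 0) / 2 := by
    have h4 := hε.trans (min_le_right _ _)
    rw [le_div_iff₀ (by linarith)] at h4
    nlinarith [abs_nonneg ε]
  have h5 : f (ζ₀, 0) ≤ f (ζ, 0) := hmin (show ζ ∈ K from ⟨hζ, hζ2⟩)
  have h6 := (abs_le.1 ((Real.norm_eq_abs _).symm.le.trans h2)).1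
  change f (ζ₀, 0) / 2 ≤ f (ζ, ε)
  simp only at h6
  linarith

/-- The derivative in `x` of the homogenisation. -/
noncomputable def gx (P : MvPolynomial (Fin n) ℂ) (m : ℕ) (u : Fin n → ℂ) : ℂ :=
  fderiv ℝ (fun y : ℂ × (Fin n → ℂ) => hp P m y.1 y.2) (0, u) (1, 0)

lemma gx_smul (hP : P.totalDegree ≤ m) (hm : 1 ≤ m) {t : ℝ} (ht : 0 < t) (u : Fin n → ℂ) :
    gx P m (t • u) = (t : ℂ) ^ (m - 1) * gx P m u := by
  set Φ : ℂ × (Fin n → ℂ) → ℂ := fun y => hp P m y.1 y.2 with hΦ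
  have hd : Differentiable ℝ Φ := (contDiff_hp_real P m).differentiable (by simp)
  have h1 : HasFDerivAt (fun y : ℂ × (Fin n → ℂ) => Φ (t • y))
      ((fderiv ℝ Φ (t • ((0 : ℂ), u))).comp
        (t • ContinuousLinearMap.id ℝ (ℂ × (Fin n → ℂ)))) ((0 : ℂ), u) := by
    have h2 : HasFDerivAt (fun y : ℂ × (Fin n → ℂ) => t • y)
        (t • ContinuousLinearMap.id ℝ (ℂ × (Fin n → ℂ))) ((0 : ℂ), u) :=
      (hasFDerivAt_id _).const_smul t
    exact (hd (t • ((0 : ℂ), u))).hasFDerivAt.comp _ h2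
  have h3 : HasFDerivAt (fun y : ℂ × (Fin n → ℂ) => Φ (t • y))
      ((t ^ m : ℝ) • fderiv ℝ Φ ((0 : ℂ), u)) ((0 : ℂ), u) := by
    have h4 : (fun y : ℂ × (Fin n → ℂ) => Φ (t • y)) = fun y => (t ^ m : ℝ) • Φ y := by
      funext y
      have h5 := hp_smul hP (t : ℂ) y.1 y.2
      simp only [hΦ]
      have h6 : (t • y).1 = (t : ℂ) * y.1 := by rw [Prod.smul_fst]; rfl
      have h7 : (t • y).2 = (t : ℂ) • y.2 := by rw [Prod.smul_snd]; rfl
      rw [h6, h7, h5, Complex.real_smul]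
      push_cast; rfl
    rw [h4]
    exact HasFDerivAt.const_smul (hd ((0 : ℂ), u)).hasFDerivAt (t ^ m : ℝ)
  have h5 := congrArg (fun A : (ℂ × (Fin n → ℂ)) →L[ℝ] ℂ => A (1, 0)) (h1.unique h3)
  simp only [ContinuousLinearMap.comp_apply, smul_apply, ContinuousLinearMap.id_apply,
    map_smul] at h5
  have h8 : t • ((0 : ℂ), u) = ((0 : ℂ), t • u) := by
    rw [Prod.smul_mk, smul_zero]
  rw [h8, Complex.real_smul, Complex.real_smul] at h5
  have h9 : ((t ^ m : ℝ) : ℂ) = t * (t : ℂ) ^ (m - 1) := by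
    rw [← pow_succ']
    push_cast
    congr 1; omega
  rw [h9, mul_assoc] at h5
  exact mul_left_cancel₀ (by exact_mod_cast ht.ne' : (t : ℂ) ≠ 0) h5

lemma gx_bound (hP : P.totalDegree ≤ m) (hm : 1 ≤ m) :
    ∃ C : ℝ, 0 ≤ C ∧ ∀ (u : Fin n → ℂ) (r : ℝ), 0 < r → sq u ≤ r ^ 2 →
      ‖gx P m u‖ ≤ C * r ^ (m - 1) := by
  have hc : Continuous (gx P m) := by
    have h1 : Continuous (fderiv ℝ (fun y : ℂ × (Fin n → ℂ) => hp P m y.1 y.2)) :=
      (contDiff_hp_real P m).continuous_fderiv (by simp)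
    exact (h1.comp (continuous_const.prodMk continuous_id)).clm_apply continuous_const
  obtain ⟨C, hC⟩ := (isCompact_sq (n := n) 1).exists_bound_of_continuousOn hc.continuousOn
  refine ⟨max C 0, le_max_right _ _, fun u r hr hu => ?_⟩
  have h1 : u = r • (r⁻¹ • u) := by
    rw [smul_smul, mul_inv_cancel₀ hr.ne', one_smul]
  rw [h1, gx_smul hP hm hr, norm_mul, norm_pow, Complex.norm_real, Real.norm_of_nonneg hr.le,
    mul_comm]
  apply mul_le_mul_of_nonneg_right _ (by positivity)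
  refine (hC (r⁻¹ • u) ?_).trans (le_max_left _ _)
  change sq (r⁻¹ • u) ≤ 1
  rw [sq_smul, inv_pow, inv_mul_le_iff₀ (by positivity), mul_one]
  exact hu

end Pool.Agent.H60.FB
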