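import Pool.Agent.H60.FB.Ent

/-!
Integration by parts and the iterated Wirtinger derivatives of `(1 - ψ)_+^N`.
-/

open MvPolynomial MeasureTheory Pool.Agent.H77.FB
open scoped ContDiff

namespace Pool.Agent.H60.FB

variable {n : ℕ}

/-- `x ↦ x_+^k` is differentiable for `k ≥ 2`. -/
lemma hasDerivAt_mp {k : ℕ} (hk : 2 ≤ k) (x : ℝ) :
    HasDerivAt (fun x : ℝ => (max x 0) ^ k) (k * (max x 0) ^ (k - 1)) x := by
  rcases lt_trichotomy x 0 with hx | hx | hx
  · have h1 : (fun x : ℝ => (max x 0) ^ k) =ᶠ[nhds x] fun _ => 0 := by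
      filter_upwards [Iio_mem_nhds hx] with y hy
      rw [max_eq_right (le_of_lt hy), zero_pow (by omega)]
    rw [max_eq_right hx.le, zero_pow (by omega), mul_zero]
    exact (hasDerivAt_const x (0 : ℝ)).congr_of_eventuallyEq h1
  · subst hx
    rw [max_self, zero_pow (by omega), mul_zero]
    rw [hasDerivAt_iff_isLittleO_nhds_zero]
    simp only [zero_add, max_self, smul_zero, sub_zero, zero_pow (show k ≠ 0 by omega)]
    have h1 : (fun h : ℝ => h ^ k) =o[nhds 0] fun h : ℝ => h := by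
      simpa using Asymptotics.isLittleO_pow_id (𝕜 := ℝ) (n := k) (by omega)
    refine Asymptotics.IsBigO.trans_isLittleO ?_ h1
    refine Asymptotics.IsBigO.of_bound 1 (Filter.Eventually.of_forall fun h => ?_)
    rw [one_mul, norm_pow, norm_pow]
    apply pow_le_pow_left₀ (norm_nonneg _)
    rw [Real.norm_eq_abs, Real.norm_eq_abs, abs_of_nonneg (le_max_right _ _)]
    exact max_le (le_abs_self h) (abs_nonneg h)
  · have h1 : (fun x : ℝ => (max x 0) ^ k) =ᶠ[nhds x] fun y => y ^ k := by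
      filter_upwards [Ioi_mem_nhds hx] with y hy
      rw [max_eq_left (le_of_lt hy)]
    rw [max_eq_left hx.le]
    exact (hasDerivAt_pow k x).congr_of_eventuallyEq h1

lemma contDiff_mp {k : ℕ} (hk : 2 ≤ k) : ContDiff ℝ 1 (fun x : ℝ => (max x 0) ^ k) := by
  rw [contDiff_one_iff_deriv]
  refine ⟨fun x => (hasDerivAt_mp hk x).differentiableAt, ?_⟩
  have h1 : deriv (fun x : ℝ => (max x 0) ^ k) = fun x : ℝ => (k : ℝ) * (max x 0) ^ (k - 1) := by
    funext x; exact (hasDerivAt_mp hk x).deriv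
  rw [h1]
  fun_prop

/-- The Wirtinger derivative on functions of `ζ`. -/
noncomputable def W0 (j : Fin n) (b : (Fin n → ℂ) → ℂ) (ζ : Fin n → ℂ) : ℂ :=
  (1 / 2) * (fderiv ℝ b ζ (Pi.single j 1) - Complex.I * fderiv ℝ b ζ (Pi.single j Complex.I))

lemma fderiv_slice {b : (Fin n → ℂ) × ℝ → ℂ} {ζ : Fin n → ℂ} {ε : ℝ}
    (hb : DifferentiableAt ℝ b (ζ, ε)) (v : Fin n → ℂ) :
    fderiv ℝ (fun ζ => b (ζ, ε)) ζ v = fderiv ℝ b (ζ, ε) (v, 0) := by
  have h1 : HasFDerivAt (fun ζ : Fin n → ℂ => (ζ, ε))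
      (ContinuousLinearMap.inl ℝ (Fin n → ℂ) ℝ) ζ := hasFDerivAt_prodMk_left ζ ε
  have h2 := hb.hasFDerivAt.comp ζ h1
  have h3 : fderiv ℝ (fun ζ => b (ζ, ε)) ζ
      = (fderiv ℝ b (ζ, ε)).comp (ContinuousLinearMap.inl ℝ (Fin n → ℂ) ℝ) := h2.fderiv
  rw [h3]
  rfl

lemma W0_slice {b : (Fin n → ℂ) × ℝ → ℂ} {ζ : Fin n → ℂ} {ε : ℝ}
    (hb : DifferentiableAt ℝ b (ζ, ε)) (j : Fin n) :
    W0 j (fun ζ => b (ζ, ε)) ζ = W j b (ζ, ε) := by
  unfold W0 W
  rw [fderiv_slice hb, fderiv_slice hb]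

lemma contDiff_W {b : (Fin n → ℂ) × ℝ → ℂ} (hb : ContDiff ℝ ∞ b) (j : Fin n) :
    ContDiff ℝ ∞ (W j b) := by
  have h1 : ContDiff ℝ ∞ (fderiv ℝ b) := hb.fderiv_right (by simp)
  unfold W
  have h2 : ∀ v : (Fin n → ℂ) × ℝ, ContDiff ℝ ∞ (fun x => fderiv ℝ b x v) := fun v =>
    h1.clm_apply contDiff_const
  exact contDiff_const.mul ((h2 _).sub (contDiff_const.mul (h2 _)))

lemma contDiff_aL {ψ : (Fin n → ℂ) × ℝ → ℝ} (hψ : ContDiff ℝ ∞ ψ) (L : List (Fin n)) :
    ContDiff ℝ ∞ (aL ψ L) := by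
  have hψc : ContDiff ℝ ∞ (fun y => (ψ y : ℂ)) := Complex.ofRealCLM.contDiff.comp hψ
  have he : ContDiff ℝ ∞ (fun x : (Fin n → ℂ) × ℝ => (x.2 : ℂ)) :=
    Complex.ofRealCLM.contDiff.comp contDiff_snd
  have hg : ContDiff ℝ ∞ (fun x : (Fin n → ℂ) × ℝ => ((1 - ψ x : ℝ) : ℂ)) :=
    Complex.ofRealCLM.contDiff.comp (contDiff_const.sub hψ)
  induction L with
  | nil => exact contDiff_const
  | cons j L ih =>
    unfold aL
    exact (((contDiff_const.sub (contDiff_const.mul (he.pow 2))).mul (contDiff_W hψc j)).mul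
      ih).sub (((he.pow 2).mul hg).mul (contDiff_W ih j))

/-- Integration by parts. -/
lemma ibp {G F b : (Fin n → ℂ) → ℂ} (hG : Differentiable ℂ G) (hF : Differentiable ℂ F)
    (hb : ContDiff ℝ 1 b) (hc : HasCompactSupport b) (j : Fin n) :
    ∫ ζ, D j G ζ * (starRingEnd ℂ) (F ζ) * b ζ
      = -∫ ζ, G ζ * (starRingEnd ℂ) (F ζ) * W0 j b ζ := by
  have hGc : ContDiff ℝ 1 G := (contDiff_one hG).restrict_scalars ℝ
  have hFc : ContDiff ℝ 1 F := (contDiff_one hF).restrict_scalars ℝ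
  have hFs : ContDiff ℝ 1 (fun ζ => (starRingEnd ℂ) (F ζ)) :=
    Complex.conjCLE.contDiff.comp hFc
  set H : (Fin n → ℂ) → ℂ := fun ζ => G ζ * (starRingEnd ℂ) (F ζ) with hH
  have hHc : ContDiff ℝ 1 H := hGc.mul hFs
  have hcH : Continuous H := hHc.continuous
  have hdb : ∀ v : Fin n → ℂ, Continuous fun ζ => fderiv ℝ b ζ v := fun v =>
    (hb.continuous_fderiv (by simp)).clm_apply continuous_const
  have hdH : ∀ v : Fin n → ℂ, Continuous fun ζ => fderiv ℝ H ζ v := fun v =>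
    (hHc.continuous_fderiv (by simp)).clm_apply continuous_const
  have hcb : ∀ v : Fin n → ℂ, HasCompactSupport fun ζ => fderiv ℝ b ζ v := fun v =>
    hc.fderiv_apply ℝ v
  have key : ∀ v : Fin n → ℂ, ∫ ζ, b ζ * fderiv ℝ H ζ v = -∫ ζ, fderiv ℝ b ζ v * H ζ := by
    intro v
    refine integral_mul_fderiv_eq_neg_fderiv_mul_of_integrable ?_ ?_ ?_
      (fun ζ _ => (hb.differentiable (by simp)) ζ)
      (fun ζ _ => (hHc.differentiable (by simp)) ζ)
    · exact ((hdb v).mul hcH).integrable_of_hasCompactSupport (hcb v).mul_right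
    · exact (hb.continuous.mul (hdH v)).integrable_of_hasCompactSupport hc.mul_right
    · exact (hb.continuous.mul hcH).integrable_of_hasCompactSupport hc.mul_right
  have hder : ∀ (ζ v : Fin n → ℂ), fderiv ℝ H ζ v
      = fderiv ℂ G ζ v * (starRingEnd ℂ) (F ζ) + G ζ * (starRingEnd ℂ) (fderiv ℂ F ζ v) := by
    intro ζ v
    have h1 : HasFDerivAt G ((fderiv ℂ G ζ).restrictScalars ℝ) ζ :=
      (hG ζ).hasFDerivAt.restrictScalars ℝ
    have h2 : HasFDerivAt F ((fderiv ℂ F ζ).restrictScalars ℝ) ζ :=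
      (hF ζ).hasFDerivAt.restrictScalars ℝ
    have h3 : HasFDerivAt (fun ζ => (starRingEnd ℂ) (F ζ))
        ((Complex.conjCLE : ℂ →L[ℝ] ℂ).comp ((fderiv ℂ F ζ).restrictScalars ℝ)) ζ :=
      (Complex.conjCLE : ℂ →L[ℝ] ℂ).hasFDerivAt.comp ζ h2
    have h4 : HasFDerivAt H _ ζ := h1.mul h3
    rw [h4.fderiv]
    simp only [add_apply, smul_apply, smul_eq_mul,
      ContinuousLinearMap.comp_apply, ContinuousLinearMap.coe_restrictScalars',
      ContinuousLinearEquiv.coe_coe, Complex.conjCLE_apply]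
    ring
  have hpt : ∀ ζ, D j G ζ * (starRingEnd ℂ) (F ζ) * b ζ
      = (1 / 2) * (b ζ * fderiv ℝ H ζ (Pi.single j 1))
        - (Complex.I / 2) * (b ζ * fderiv ℝ H ζ (Pi.single j Complex.I)) := by
    intro ζ
    rw [hder, hder]
    have h5 : (Pi.single j Complex.I : Fin n → ℂ) = Complex.I • Pi.single j (1 : ℂ) := by
      rw [← Pi.single_smul]; simp
    rw [h5, map_smul, map_smul, smul_eq_mul, smul_eq_mul, map_mul, Complex.conj_I]
    unfold D
    ring_nf
    rw [Complex.I_sq]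
    ring
  have hi1 : ∀ v : Fin n → ℂ, Integrable fun ζ => b ζ * fderiv ℝ H ζ v := fun v =>
    (hb.continuous.mul (hdH v)).integrable_of_hasCompactSupport hc.mul_right
  have hi2 : ∀ v : Fin n → ℂ, Integrable fun ζ => fderiv ℝ b ζ v * H ζ := fun v =>
    ((hdb v).mul hcH).integrable_of_hasCompactSupport (hcb v).mul_right
  simp only [hpt]
  rw [integral_sub ((hi1 _).const_mul _) ((hi1 _).const_mul _), integral_const_mul,
    integral_const_mul, key, key]
  have hpt2 : ∀ ζ, G ζ * (starRingEnd ℂ) (F ζ) * W0 j b ζ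
      = (1 / 2) * (fderiv ℝ b ζ (Pi.single j 1) * H ζ)
        - (Complex.I / 2) * (fderiv ℝ b ζ (Pi.single j Complex.I) * H ζ) := by
    intro ζ
    simp only [hH, W0]
    ring
  simp only [hpt2]
  rw [integral_sub ((hi2 _).const_mul _) ((hi2 _).const_mul _), integral_const_mul,
    integral_const_mul]
  ring

end Pool.Agent.H60.FB
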