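import Pool.Agent.H60.FB.Ibp

/-!
The identity behind the a priori estimate: integration by parts against `(1 - ψ)_+^N`.
-/

open MvPolynomial MeasureTheory Pool.Agent.H77.FB
open scoped ContDiff

namespace Pool.Agent.H60.FB

variable {n : ℕ}

/-- The positive part of `1 - ψ(·, ε)`. -/
noncomputable def gp (ψ : (Fin n → ℂ) × ℝ → ℝ) (ε : ℝ) (ζ : Fin n → ℂ) : ℝ :=
  max (1 - ψ (ζ, ε)) 0

/-- The functions arising by integration by parts. -/
noncomputable def bL (N : ℕ) (ψ : (Fin n → ℂ) × ℝ → ℝ) (ε : ℝ) (L : List (Fin n))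
    (ζ : Fin n → ℂ) : ℂ :=
  (N : ℂ) ^ L.length * ((gp ψ ε ζ : ℝ) : ℂ) ^ (N - L.length) * aL ψ L (ζ, ε)

lemma isCompact_sq (R : ℝ) : IsCompact {ζ : Fin n → ℂ | sq ζ ≤ R} := by
  refine Metric.isCompact_of_isClosed_isBounded ?_ ?_
  · exact isClosed_le (by unfold sq; fun_prop) continuous_const
  · refine (Metric.isBounded_closedBall (x := (0 : Fin n → ℂ)) (r := R + 1)).subset ?_
    intro ζ hζ
    rw [mem_closedBall_zero_iff]
    have hR : 0 ≤ R := le_trans (Finset.sum_nonneg fun j _ => by positivity) hζ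
    refine (pi_norm_le_iff_of_nonneg (by linarith)).2 fun j => ?_
    have h1 : ‖ζ j‖ ^ 2 ≤ R :=
      le_trans (Finset.single_le_sum (f := fun j => ‖ζ j‖ ^ 2) (fun j _ => by positivity)
        (Finset.mem_univ j)) hζ
    nlinarith [sq_nonneg (‖ζ j‖ - 1)]

lemma gp_eq_zero {ψ : (Fin n → ℂ) × ℝ → ℝ} {ε : ℝ} (hb : ∀ ζ, ψ (ζ, ε) < 1 → sq ζ ≤ 2)
    {ζ : Fin n → ℂ} (hζ : ζ ∉ {ζ : Fin n → ℂ | sq ζ ≤ 2}) : gp ψ ε ζ = 0 := by
  unfold gp
  apply max_eq_right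
  have h1 : ¬ ψ (ζ, ε) < 1 := fun h => hζ (hb ζ h)
  linarith [not_lt.1 h1]

lemma continuous_gp {ψ : (Fin n → ℂ) × ℝ → ℝ} (hψ : Continuous ψ) (ε : ℝ) :
    Continuous (gp ψ ε) := by
  unfold gp
  exact (continuous_const.sub (hψ.comp (continuous_id.prodMk continuous_const))).max
    continuous_const

lemma slice_contDiff {b : (Fin n → ℂ) × ℝ → ℂ} (hb : ContDiff ℝ ∞ b) (ε : ℝ) :
    ContDiff ℝ 1 (fun ζ => b (ζ, ε)) :=
  (hb.of_le (by exact_mod_cast le_top)).comp (contDiff_id.prodMk contDiff_const)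

lemma bL_support {N : ℕ} {ψ : (Fin n → ℂ) × ℝ → ℝ} {ε : ℝ}
    (hb : ∀ ζ, ψ (ζ, ε) < 1 → sq ζ ≤ 2) {L : List (Fin n)} (hL : L.length + 2 ≤ N) :
    HasCompactSupport (bL N ψ ε L) := by
  refine HasCompactSupport.intro (isCompact_sq 2) fun ζ hζ => ?_
  unfold bL
  rw [gp_eq_zero hb hζ, Complex.ofReal_zero, zero_pow (by omega)]
  ring

lemma gp_pow_contDiff {ψ : (Fin n → ℂ) × ℝ → ℝ} (hψ : ContDiff ℝ ∞ ψ) (ε : ℝ) {k : ℕ}
    (hk : 2 ≤ k) : ContDiff ℝ 1 (fun ζ : Fin n → ℂ => ((gp ψ ε ζ : ℝ) : ℂ) ^ k) := by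
  have h1 : ContDiff ℝ 1 (fun ζ : Fin n → ℂ => 1 - ψ (ζ, ε)) :=
    contDiff_const.sub ((hψ.of_le (by exact_mod_cast le_top)).comp
      (contDiff_id.prodMk contDiff_const))
  have h2 := Complex.ofRealCLM.contDiff.comp ((contDiff_mp hk).comp h1)
  have h3 : (fun ζ : Fin n → ℂ => ((gp ψ ε ζ : ℝ) : ℂ) ^ k)
      = fun ζ => (((gp ψ ε ζ) ^ k : ℝ) : ℂ) := by
    funext ζ; push_cast; rfl
  rw [h3]
  exact h2

lemma bL_contDiff {N : ℕ} {ψ : (Fin n → ℂ) × ℝ → ℝ} (hψ : ContDiff ℝ ∞ ψ) {ε : ℝ}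
    {L : List (Fin n)} (hL : L.length + 2 ≤ N) : ContDiff ℝ 1 (bL N ψ ε L) := by
  unfold bL
  exact (contDiff_const.mul (gp_pow_contDiff hψ ε (by omega))).mul
    (slice_contDiff (contDiff_aL hψ L) ε)

/-- One step of the iteration. -/
lemma W0_bL {N : ℕ} {ψ : (Fin n → ℂ) × ℝ → ℝ} (hψ : ContDiff ℝ ∞ ψ) {ε : ℝ}
    (hNε : N * ε ^ 2 = 1) {L : List (Fin n)} (hL : L.length + 2 ≤ N) (j : Fin n)
    (ζ : Fin n → ℂ) : -W0 j (bL N ψ ε L) ζ = bL N ψ ε (j :: L) ζ := by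
  have hd : Differentiable ℝ (fun ζ : Fin n → ℂ => ((gp ψ ε ζ : ℝ) : ℂ) ^ (N - L.length)) :=
    (gp_pow_contDiff hψ ε (by omega)).differentiable (by simp)
  have ha : Differentiable ℝ (aL ψ L) := (contDiff_aL hψ L).differentiable (by simp)
  have hψc : Differentiable ℝ (fun y => (ψ y : ℂ)) :=
    (Complex.ofRealCLM.contDiff.comp hψ : ContDiff ℝ ∞ _).differentiable (by simp)
  have has : Differentiable ℝ (fun ζ : Fin n → ℂ => aL ψ L (ζ, ε)) :=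
    ha.comp (differentiable_id.prodMk (differentiable_const _))
  -- the derivative of the power
  have h1 : ∀ v : Fin n → ℂ,
      fderiv ℝ (fun ζ : Fin n → ℂ => ((gp ψ ε ζ : ℝ) : ℂ) ^ (N - L.length)) ζ v
        = -(((N - L.length : ℕ) : ℂ) * ((gp ψ ε ζ : ℝ) : ℂ) ^ (N - L.length - 1)
          * fderiv ℝ (fun y => (ψ y : ℂ)) (ζ, ε) (v, 0)) := by
    intro v
    have h2 : HasFDerivAt (fun ζ : Fin n → ℂ => (1 - ψ (ζ, ε) : ℝ))
        (-((fderiv ℝ ψ (ζ, ε)).comp (ContinuousLinearMap.inl ℝ (Fin n → ℂ) ℝ))) ζ := by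
      have h3 : HasFDerivAt (fun ζ : Fin n → ℂ => ψ (ζ, ε))
          ((fderiv ℝ ψ (ζ, ε)).comp (ContinuousLinearMap.inl ℝ (Fin n → ℂ) ℝ)) ζ :=
        ((hψ.differentiable (by simp)) (ζ, ε)).hasFDerivAt.comp ζ (hasFDerivAt_prodMk_left ζ ε)
      exact h3.const_sub 1
    have h4 := (hasDerivAt_mp (k := N - L.length) (by omega)
      (1 - ψ (ζ, ε))).comp_hasFDerivAt ζ h2
    have h5 := (Complex.ofRealCLM : ℝ →L[ℝ] ℂ).hasFDerivAt.comp ζ h4
    have h6 : (fun ζ : Fin n → ℂ => ((gp ψ ε ζ : ℝ) : ℂ) ^ (N - L.length))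
        = (⇑(Complex.ofRealCLM : ℝ →L[ℝ] ℂ) ∘ ((fun x : ℝ => (max x 0) ^ (N - L.length)) ∘
          fun ζ : Fin n → ℂ => (1 - ψ (ζ, ε) : ℝ))) := by
      funext ζ
      simp [gp]
    rw [h6, h5.fderiv]
    have h7 : fderiv ℝ (fun y => (ψ y : ℂ)) (ζ, ε) (v, 0)
        = ((fderiv ℝ ψ (ζ, ε) (v, 0) : ℝ) : ℂ) := by
      have h8 := (Complex.ofRealCLM : ℝ →L[ℝ] ℂ).hasFDerivAt.comp (ζ, ε)
        ((hψ.differentiable (by simp)) (ζ, ε)).hasFDerivAt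
      have h9 : fderiv ℝ (fun y => (ψ y : ℂ)) (ζ, ε)
          = (Complex.ofRealCLM : ℝ →L[ℝ] ℂ).comp (fderiv ℝ ψ (ζ, ε)) := h8.fderiv
      rw [h9]; rfl
    rw [h7]
    simp only [ContinuousLinearMap.comp_apply, smul_apply, neg_apply, smul_eq_mul,
      Complex.ofRealCLM_apply, ContinuousLinearMap.inl_apply, gp]
    push_cast
    ring
  have h10 : ∀ v : Fin n → ℂ, fderiv ℝ (bL N ψ ε L) ζ v
      = (N : ℂ) ^ L.length * (((gp ψ ε ζ : ℝ) : ℂ) ^ (N - L.length)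
          * fderiv ℝ (aL ψ L) (ζ, ε) (v, 0)
        - ((N - L.length : ℕ) : ℂ) * ((gp ψ ε ζ : ℝ) : ℂ) ^ (N - L.length - 1)
          * fderiv ℝ (fun y => (ψ y : ℂ)) (ζ, ε) (v, 0) * aL ψ L (ζ, ε)) := by
    intro v
    have h11 : bL N ψ ε L = fun ζ => (N : ℂ) ^ L.length *
        (((gp ψ ε ζ : ℝ) : ℂ) ^ (N - L.length) * aL ψ L (ζ, ε)) := by
      funext ζ; unfold bL; ring
    have h12 : HasFDerivAt (fun ζ : Fin n → ℂ => (N : ℂ) ^ L.length *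
        (((gp ψ ε ζ : ℝ) : ℂ) ^ (N - L.length) * aL ψ L (ζ, ε))) _ ζ :=
      ((hd ζ).hasFDerivAt.mul (has ζ).hasFDerivAt).const_mul ((N : ℂ) ^ L.length)
    rw [h11, h12.fderiv]
    simp only [add_apply, smul_apply, smul_eq_mul]
    rw [h1 v, fderiv_slice (ha (ζ, ε))]
    ring
  have hk : ((gp ψ ε ζ : ℝ) : ℂ) ^ (N - L.length)
      = ((gp ψ ε ζ : ℝ) : ℂ) ^ (N - L.length - 1) * ((1 - ψ (ζ, ε) : ℝ) : ℂ) := by
    rcases le_total (1 - ψ (ζ, ε)) 0 with h | h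
    · have h13 : gp ψ ε ζ = 0 := max_eq_right h
      rw [h13, Complex.ofReal_zero, zero_pow (by omega), zero_pow (by omega), zero_mul]
    · have h13 : gp ψ ε ζ = 1 - ψ (ζ, ε) := max_eq_left h
      rw [h13, ← pow_succ]
      congr 1
      omega
  have hN : (N : ℂ) * (ε : ℂ) ^ 2 = 1 := by exact_mod_cast hNε
  have hsub : ((N - L.length : ℕ) : ℂ) = N * (1 - L.length * (ε : ℂ) ^ 2) := by
    rw [Nat.cast_sub (by omega)]
    linear_combination (L.length : ℂ) * hN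
  unfold W0
  rw [h10, h10]
  unfold bL
  rw [List.length_cons, show N - (L.length + 1) = N - L.length - 1 by omega]
  change _ = (N : ℂ) ^ (L.length + 1) * ((gp ψ ε ζ : ℝ) : ℂ) ^ (N - L.length - 1)
    * ((1 - L.length * (ε : ℂ) ^ 2) * W j (fun y => (ψ y : ℂ)) (ζ, ε) * aL ψ L (ζ, ε)
      - (ε : ℂ) ^ 2 * ((1 - ψ (ζ, ε) : ℝ) : ℂ) * W j (aL ψ L) (ζ, ε))
  rw [hk, hsub]
  unfold W
  linear_combination ((1 / 2 : ℂ) * (N : ℂ) ^ L.length * ((gp ψ ε ζ : ℝ) : ℂ) ^ (N - L.length - 1) *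
    ((1 - ψ (ζ, ε) : ℝ) : ℂ) * (fderiv ℝ (aL ψ L) (ζ, ε) (Pi.single j 1, 0)
      - Complex.I * fderiv ℝ (aL ψ L) (ζ, ε) (Pi.single j Complex.I, 0))) * hN

/-- Iterated integration by parts. -/
lemma ibp_iter {N : ℕ} {ψ : (Fin n → ℂ) × ℝ → ℝ} (hψ : ContDiff ℝ ∞ ψ) {ε : ℝ}
    (hNε : N * ε ^ 2 = 1) (hb : ∀ ζ, ψ (ζ, ε) < 1 → sq ζ ≤ 2) {F : (Fin n → ℂ) → ℂ}
    (hF : Differentiable ℂ F) (L : List (Fin n)) (hL : L.length + 2 ≤ N)
    {G : (Fin n → ℂ) → ℂ} (hG : Differentiable ℂ G) :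
    ∫ ζ, DL L G ζ * (starRingEnd ℂ) (F ζ) * bL N ψ ε [] ζ
      = ∫ ζ, G ζ * (starRingEnd ℂ) (F ζ) * bL N ψ ε L ζ := by
  induction L generalizing G with
  | nil => rfl
  | cons j L ih =>
    rw [List.length_cons] at hL
    have h1 := ih (by omega) (differentiable_D hG j)
    have h2 : ∫ ζ, DL (j :: L) G ζ * (starRingEnd ℂ) (F ζ) * bL N ψ ε [] ζ
        = ∫ ζ, DL L (D j G) ζ * (starRingEnd ℂ) (F ζ) * bL N ψ ε [] ζ := rfl
    rw [h2, h1, ibp hG hF (bL_contDiff hψ (by omega)) (bL_support hb (by omega)),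
      ← integral_neg]
    refine integral_congr_ae (Filter.Eventually.of_forall fun ζ => ?_)
    change -(G ζ * (starRingEnd ℂ) (F ζ) * W0 j (bL N ψ ε L) ζ)
      = G ζ * (starRingEnd ℂ) (F ζ) * bL N ψ ε (j :: L) ζ
    rw [← W0_bL hψ hNε (show L.length + 2 ≤ N by omega) j ζ]
    ring

lemma length_ls (s : Fin n →₀ ℕ) : (ls s).length = s.degree := by
  unfold ls
  rw [Multiset.length_toList, Finsupp.card_toMultiset]
  rfl

theorem ident (P : MvPolynomial (Fin n) ℂ) {m N : ℕ} (hP : P.totalDegree ≤ m) (hN : m + 2 ≤ N)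
    {ε : ℝ} (hNε : N * ε ^ 2 = 1) {ψ : (Fin n → ℂ) × ℝ → ℝ}
    (hψ : ContDiff ℝ ∞ ψ) (hb : ∀ ζ, ψ (ζ, ε) < 1 → sq ζ ≤ 2)
    {G F : (Fin n → ℂ) → ℂ} (hG : Differentiable ℂ G) (hF : Differentiable ℂ F) :
    (ε : ℂ) ^ m * ∫ ζ, QD (star' P) ε G ζ * (starRingEnd ℂ) (F ζ)
        * ((max (1 - ψ (ζ, ε)) 0 : ℝ) : ℂ) ^ N
      = ∫ ζ, G ζ * (starRingEnd ℂ) (F ζ) * MM P m ψ (ζ, ε)
        * ((max (1 - ψ (ζ, ε)) 0 : ℝ) : ℂ) ^ (N - m) := by
  have hsupp : (star' P).support = P.support :=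
    MvPolynomial.support_map_of_injective P (starRingEnd ℂ).injective
  have hco : ∀ s, (star' P).coeff s = (starRingEnd ℂ) (P.coeff s) := fun s =>
    MvPolynomial.coeff_map _ _ _
  have hdeg : ∀ s ∈ P.support, s.degree ≤ m := fun s hs =>
    (MvPolynomial.le_totalDegree hs).trans hP
  have hbc : ∀ L : List (Fin n), L.length + 2 ≤ N → ∀ {G : (Fin n → ℂ) → ℂ}, Continuous G →
      Integrable fun ζ => G ζ * (starRingEnd ℂ) (F ζ) * bL N ψ ε L ζ := by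
    intro L hL G hG
    refine Continuous.integrable_of_hasCompactSupport ?_ (bL_support hb hL).mul_left
    exact (hG.mul (Complex.continuous_conj.comp hF.continuous)).mul
      (bL_contDiff hψ hL).continuous
  have h1 : ∫ ζ, QD (star' P) ε G ζ * (starRingEnd ℂ) (F ζ)
        * ((max (1 - ψ (ζ, ε)) 0 : ℝ) : ℂ) ^ N
      = ∑ s ∈ P.support, (starRingEnd ℂ) (P.coeff s) * (ε : ℂ) ^ s.degree *
        ∫ ζ, G ζ * (starRingEnd ℂ) (F ζ) * bL N ψ ε (ls s) ζ := by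
    have h2 : ∀ ζ, QD (star' P) ε G ζ * (starRingEnd ℂ) (F ζ)
          * ((max (1 - ψ (ζ, ε)) 0 : ℝ) : ℂ) ^ N
        = ∑ s ∈ P.support, (starRingEnd ℂ) (P.coeff s) * (ε : ℂ) ^ s.degree *
          (DL (ls s) G ζ * (starRingEnd ℂ) (F ζ) * bL N ψ ε [] ζ) := by
      intro ζ
      unfold QD
      rw [hsupp, Finset.sum_mul, Finset.sum_mul]
      refine Finset.sum_congr rfl fun s _ => ?_
      rw [hco]
      simp only [bL, List.length_nil, pow_zero, one_mul, Nat.sub_zero, aL, gp, mul_one]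
      ring
    simp only [h2]
    rw [integral_finsetSum]
    · refine Finset.sum_congr rfl fun s hs => ?_
      rw [integral_const_mul]
      congr 1
      exact ibp_iter hψ hNε hb hF (ls s) (by rw [length_ls]; have := hdeg s hs; omega) hG
    · intro s _
      refine Integrable.const_mul ?_ _
      exact hbc [] (by simp; omega) (differentiable_DL hG (ls s)).continuous
  have h3 : ∫ ζ, G ζ * (starRingEnd ℂ) (F ζ) * MM P m ψ (ζ, ε)
        * ((max (1 - ψ (ζ, ε)) 0 : ℝ) : ℂ) ^ (N - m)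
      = ∑ s ∈ P.support, (ε : ℂ) ^ m * ((starRingEnd ℂ) (P.coeff s) * (ε : ℂ) ^ s.degree) *
        ∫ ζ, G ζ * (starRingEnd ℂ) (F ζ) * bL N ψ ε (ls s) ζ := by
    have h4 : ∀ ζ, G ζ * (starRingEnd ℂ) (F ζ) * MM P m ψ (ζ, ε)
          * ((max (1 - ψ (ζ, ε)) 0 : ℝ) : ℂ) ^ (N - m)
        = ∑ s ∈ P.support, (ε : ℂ) ^ m * ((starRingEnd ℂ) (P.coeff s) * (ε : ℂ) ^ s.degree) *
          (G ζ * (starRingEnd ℂ) (F ζ) * bL N ψ ε (ls s) ζ) := by
      intro ζ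
      unfold MM
      rw [Finset.mul_sum, Finset.sum_mul]
      refine Finset.sum_congr rfl fun s hs => ?_
      have hd := hdeg s hs
      unfold bL
      rw [length_ls]
      have h5 : ((max (1 - ψ (ζ, ε)) 0 : ℝ) : ℂ) ^ (N - m)
            * (((ε * (1 - ψ (ζ, ε)) : ℝ) : ℂ)) ^ (m - s.degree)
          = ((gp ψ ε ζ : ℝ) : ℂ) ^ (N - s.degree) * (ε : ℂ) ^ (m - s.degree) := by
        rcases le_total (1 - ψ (ζ, ε)) 0 with h | h
        · have h13 : gp ψ ε ζ = 0 := max_eq_right h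
          rw [h13, max_eq_right h, Complex.ofReal_zero, zero_pow (by omega),
            zero_pow (by omega), zero_mul, zero_mul]
        · have h13 : gp ψ ε ζ = 1 - ψ (ζ, ε) := max_eq_left h
          rw [h13, max_eq_left h, Complex.ofReal_mul, mul_pow,
            show N - s.degree = (N - m) + (m - s.degree) by omega, pow_add]
          ring
      have hNc : (N : ℂ) * (ε : ℂ) ^ 2 = 1 := by exact_mod_cast hNε
      have h6 : (ε : ℂ) ^ (m - s.degree)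
          = (ε : ℂ) ^ m * (ε : ℂ) ^ s.degree * (N : ℂ) ^ s.degree := by
        have h7 : (ε : ℂ) ^ m = (ε : ℂ) ^ (m - s.degree) * (ε : ℂ) ^ s.degree := by
          rw [← pow_add]; congr 1; omega
        have h8 : (ε : ℂ) ^ s.degree * (ε : ℂ) ^ s.degree * (N : ℂ) ^ s.degree = 1 := by
          rw [← mul_pow, ← mul_pow, ← pow_two, mul_comm, hNc, one_pow]
        rw [h7]
        linear_combination (-(ε : ℂ) ^ (m - s.degree)) * h8
      calc G ζ * (starRingEnd ℂ) (F ζ) * ((starRingEnd ℂ) (P.coeff s)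
            * (((ζ, ε).2 * (1 - ψ (ζ, ε)) : ℝ) : ℂ) ^ (m - s.degree) * aL ψ (ls s) (ζ, ε))
            * ((max (1 - ψ (ζ, ε)) 0 : ℝ) : ℂ) ^ (N - m)
          = G ζ * (starRingEnd ℂ) (F ζ) * (starRingEnd ℂ) (P.coeff s) * aL ψ (ls s) (ζ, ε)
            * (((max (1 - ψ (ζ, ε)) 0 : ℝ) : ℂ) ^ (N - m)
            * (((ε * (1 - ψ (ζ, ε)) : ℝ) : ℂ)) ^ (m - s.degree)) := by ring
        _ = _ := by rw [h5, h6]; ring
    simp only [h4]
    rw [integral_finsetSum]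
    · refine Finset.sum_congr rfl fun s hs => ?_
      rw [integral_const_mul]
    · intro s hs
      refine Integrable.const_mul ?_ _
      exact hbc (ls s) (by rw [length_ls]; have := hdeg s hs; omega) hG.continuous
  rw [h1, h3, Finset.mul_sum]
  refine Finset.sum_congr rfl fun s _ => ?_
  ring

end Pool.Agent.H60.FB
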