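import Pool.Agent.H60.FB.Wt

/-!
The weight `ψ = |ζ|² + 2 Re(κ P̃)`.
-/

open MvPolynomial MeasureTheory Pool.Agent.H77.FB
open scoped ContDiff

namespace Pool.Agent.H60.FB

variable {n : ℕ}

lemma W_sum {ι : Type*} (s : Finset ι) {f : ι → (Fin n → ℂ) × ℝ → ℂ} {x : (Fin n → ℂ) × ℝ}
    (hf : ∀ i, DifferentiableAt ℝ (f i) x) (j : Fin n) :
    W j (fun y => ∑ i ∈ s, f i y) x = ∑ i ∈ s, W j (f i) x := by
  classical
  induction s using Finset.induction_on with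
  | empty =>
    have h := W_snd (n := n) (fun _ => (0 : ℂ)) (x := x) (differentiableAt_const _) j
    simpa using h
  | insert a s ha ih =>
    have h1 : (fun y => ∑ i ∈ insert a s, f i y) = fun y => f a y + ∑ i ∈ s, f i y := by
      funext y; rw [Finset.sum_insert ha]
    rw [h1, W_add (hf a) (DifferentiableAt.fun_sum fun i _ => hf i), ih, Finset.sum_insert ha]

/-- The polynomial `P̃` as a function of `(ζ, ε)`. -/
noncomputable def Pt (P : MvPolynomial (Fin n) ℂ) (m : ℕ) (x : (Fin n → ℂ) × ℝ) : ℂ :=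
  hp P m (x.2 : ℂ) x.1

lemma contDiff_swap : ContDiff ℝ ∞ (fun x : (Fin n → ℂ) × ℝ => ((x.2 : ℂ), x.1)) :=
  (Complex.ofRealCLM.contDiff.comp contDiff_snd).prodMk contDiff_fst

lemma contDiff_Pt (P : MvPolynomial (Fin n) ℂ) (m : ℕ) : ContDiff ℝ ∞ (Pt P m) := by
  have h := (contDiff_hp_real P m).comp (contDiff_swap (n := n))
  have h1 : Pt P m = (fun x : ℂ × (Fin n → ℂ) => hp P m x.1 x.2) ∘
      (fun x : (Fin n → ℂ) × ℝ => ((x.2 : ℂ), x.1)) := rfl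
  rw [h1]
  exact h

lemma contDiff_grt (P : MvPolynomial (Fin n) ℂ) (m : ℕ) (j : Fin n) :
    ContDiff ℝ ∞ (fun x : (Fin n → ℂ) × ℝ => gr P m (x.2 : ℂ) x.1 j) := by
  have h := (contDiff_gr_real P m j).comp (contDiff_swap (n := n))
  have h1 : (fun x : (Fin n → ℂ) × ℝ => gr P m (x.2 : ℂ) x.1 j)
      = (fun x : ℂ × (Fin n → ℂ) => gr P m x.1 x.2 j) ∘
      (fun x : (Fin n → ℂ) × ℝ => ((x.2 : ℂ), x.1)) := rfl
  rw [h1]
  exact h

lemma contDiff_sq : ContDiff ℝ ∞ (sq (n := n)) := by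
  unfold sq
  exact ContDiff.sum fun j _ => (contDiff_norm_sq ℝ).comp (contDiff_apply ℝ ℂ j)

lemma sq_nonneg' (ζ : Fin n → ℂ) : 0 ≤ sq ζ := Finset.sum_nonneg fun j _ => by positivity

/-- The weight. -/
noncomputable def psi (P : MvPolynomial (Fin n) ℂ) (m : ℕ) (κ : (Fin n → ℂ) × ℝ → ℂ)
    (x : (Fin n → ℂ) × ℝ) : ℝ := sq x.1 + 2 * (κ x * Pt P m x).re

/-- The perturbation. -/
noncomputable def sf (P : MvPolynomial (Fin n) ℂ) (m : ℕ) (κ : (Fin n → ℂ) × ℝ → ℂ)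
    (x : (Fin n → ℂ) × ℝ) : ℝ := 2 * (κ x * Pt P m x).re

variable {P : MvPolynomial (Fin n) ℂ} {m : ℕ} {κ : (Fin n → ℂ) × ℝ → ℂ}

lemma van_sf (hκ : Van κ) : Van (sf P m κ) := by
  refine ⟨?_, fun ζ => by simp [sf, hκ.zero]⟩
  exact contDiff_const.mul (Complex.reCLM.contDiff.comp (hκ.smooth.mul (contDiff_Pt P m)))

lemma contDiff_psi (hκ : Van κ) : ContDiff ℝ ∞ (psi P m κ) :=
  (contDiff_sq.comp contDiff_fst).add (van_sf hκ).smooth

lemma psi_complex (x : (Fin n → ℂ) × ℝ) : ((psi P m κ x : ℝ) : ℂ)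
    = (∑ i, x.1 i * (starRingEnd ℂ) (x.1 i))
      + (κ x * Pt P m x + (starRingEnd ℂ) (κ x) * (starRingEnd ℂ) (Pt P m x)) := by
  unfold psi sq
  push_cast
  have h1 : ((2 * (κ x * Pt P m x).re : ℝ) : ℂ)
      = κ x * Pt P m x + (starRingEnd ℂ) (κ x * Pt P m x) := (Complex.add_conj _).symm
  rw [map_mul] at h1
  push_cast at h1
  rw [h1]
  congr 1
  refine Finset.sum_congr rfl fun i _ => ?_
  rw [Complex.mul_conj']

lemma W_coord (i j : Fin n) (x : (Fin n → ℂ) × ℝ) :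
    W j (fun y => y.1 i) x = (if i = j then 1 else 0) ∧
      W j (fun y => (starRingEnd ℂ) (y.1 i)) x = 0 := by
  have h1 : DifferentiableAt ℝ (fun y : (Fin n → ℂ) × ℝ => y.1 i) x := by fun_prop
  have h2 : HasFDerivAt (fun ζ : Fin n → ℂ => ζ i)
      (ContinuousLinearMap.proj i : (Fin n → ℂ) →L[ℂ] ℂ) x.1 :=
    (ContinuousLinearMap.proj i : (Fin n → ℂ) →L[ℂ] ℂ).hasFDerivAt
  obtain ⟨h3, h4⟩ := W_hol (b := fun y : (Fin n → ℂ) × ℝ => y.1 i) (ζ := x.1) (ε := x.2) h1 h2 j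
  refine ⟨?_, h4⟩
  rw [show x = (x.1, x.2) from rfl, h3]
  simp [Pi.single_apply]

lemma W_Pt (j : Fin n) (x : (Fin n → ℂ) × ℝ) :
    W j (Pt P m) x = gr P m (x.2 : ℂ) x.1 j ∧
      W j (fun y => (starRingEnd ℂ) (Pt P m y)) x = 0 := by
  have h1 : DifferentiableAt ℝ (Pt P m) x := (contDiff_Pt P m).differentiable (by simp) x
  have h2 := (differentiable_hp P m (x.2 : ℂ) x.1).hasFDerivAt
  exact W_hol (b := Pt P m) (ζ := x.1) (ε := x.2) h1 h2 j

lemma W_psi (hκ : Van κ) (j : Fin n) (x : (Fin n → ℂ) × ℝ) :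
    W j (fun y => ((psi P m κ y : ℝ) : ℂ)) x
      = (starRingEnd ℂ) (x.1 j) + κ x * gr P m (x.2 : ℂ) x.1 j
        + (W j κ x * Pt P m x
          + W j (fun y => (starRingEnd ℂ) (κ y)) x * (starRingEnd ℂ) (Pt P m x)) := by
  have hd : ∀ {f : (Fin n → ℂ) × ℝ → ℂ}, ContDiff ℝ ∞ f → DifferentiableAt ℝ f x :=
    fun hf => (hf.differentiable (by simp)) x
  have hPc : ContDiff ℝ ∞ (fun y => (starRingEnd ℂ) (Pt P m y)) :=
    (Complex.conjCLE : ℂ →L[ℝ] ℂ).contDiff.comp (contDiff_Pt P m)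
  have h1 : ∀ i : Fin n, DifferentiableAt ℝ (fun y : (Fin n → ℂ) × ℝ => y.1 i) x := by
    intro i; fun_prop
  have h2 : ∀ i : Fin n, DifferentiableAt ℝ
      (fun y : (Fin n → ℂ) × ℝ => (starRingEnd ℂ) (y.1 i)) x := fun i =>
    (Complex.conjCLE : ℂ →L[ℝ] ℂ).differentiableAt.comp x (h1 i)
  have h3 : (fun y => ((psi P m κ y : ℝ) : ℂ))
      = fun y => (∑ i, y.1 i * (starRingEnd ℂ) (y.1 i))
      + (κ y * Pt P m y + (starRingEnd ℂ) (κ y) * (starRingEnd ℂ) (Pt P m y)) := by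
    funext y; exact psi_complex y
  have h5 : ∀ i : Fin n, DifferentiableAt ℝ
      (fun y : (Fin n → ℂ) × ℝ => y.1 i * (starRingEnd ℂ) (y.1 i)) x := fun i =>
    (h1 i).fun_mul (h2 i)
  have h6 : DifferentiableAt ℝ (fun y => κ y * Pt P m y) x :=
    (hd hκ.smooth).fun_mul (hd (contDiff_Pt P m))
  have h7 : DifferentiableAt ℝ (fun y => (starRingEnd ℂ) (κ y) * (starRingEnd ℂ) (Pt P m y)) x :=
    (hd hκ.conj.smooth).fun_mul (hd hPc)
  rw [h3, W_add (DifferentiableAt.fun_sum fun i _ => h5 i) (h6.fun_add h7),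
    W_sum _ h5, W_add h6 h7, W_mul (hd hκ.smooth) (hd (contDiff_Pt P m)), W_mul (hd hκ.conj.smooth) (hd hPc),
    (W_Pt j x).1, (W_Pt j x).2]
  have h4 : ∀ i, W j (fun y : (Fin n → ℂ) × ℝ => y.1 i * (starRingEnd ℂ) (y.1 i)) x
      = if i = j then (starRingEnd ℂ) (x.1 i) else 0 := by
    intro i
    rw [W_mul (h1 i) (h2 i), (W_coord i j x).1, (W_coord i j x).2]
    split_ifs <;> simp
  simp only [h4, Finset.sum_ite_eq', Finset.mem_univ, if_true]
  ring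

lemma sq_add (ζ w : Fin n → ℂ) :
    sq (ζ + w) - sq ζ - 2 * (∑ j, w j * (starRingEnd ℂ) (ζ j)).re = sq w := by
  unfold sq
  rw [Complex.re_sum, Finset.mul_sum, ← Finset.sum_sub_distrib, ← Finset.sum_sub_distrib]
  refine Finset.sum_congr rfl fun j _ => ?_
  rw [Pi.add_apply, Complex.sq_norm, Complex.sq_norm, Complex.sq_norm, Complex.normSq_apply,
    Complex.normSq_apply, Complex.normSq_apply]
  simp
  ring

lemma sq_le (w : Fin n → ℂ) : sq w ≤ n * ‖w‖ ^ 2 := by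
  unfold sq
  calc ∑ j, ‖w j‖ ^ 2 ≤ ∑ _j : Fin n, ‖w‖ ^ 2 := by
        refine Finset.sum_le_sum fun j _ => ?_
        exact pow_le_pow_left₀ (norm_nonneg _) (norm_le_pi_norm w j) 2
    _ = _ := by simp

/-- The properties of the weight used in the integral estimates. -/
lemma isW_psi (hκ : Van κ) (hout : ∀ x : (Fin n → ℂ) × ℝ, 3 ≤ sq x.1 → κ x = 0) :
    ∃ ε₁ > (0 : ℝ), ∀ ε : ℝ, 0 < ε → ε ≤ ε₁ →
      IsW (n + 3) (fun ζ => psi P m κ (ζ, ε))
        (fun ζ j => W j (fun y => ((psi P m κ y : ℝ) : ℂ)) (ζ, ε)) := by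
  have hs := van_sf (P := P) (m := m) hκ
  have hd := contDiff_psi (P := P) (m := m) hκ
  obtain ⟨C₁, hC₁, h1⟩ := hs.bound 4
  obtain ⟨C₂, hC₂, h2⟩ := hs.taylor 4
  obtain ⟨C₃, hC₃, h3⟩ := hs.dz.bound 4
  set C := C₁ + C₂ + C₃ + 1 with hC
  refine ⟨1 / (4 * C), by positivity, fun ε hε hεC => ?_⟩
  have hCε : C * ε ≤ 1 / 4 := by
    have hC0 : 0 < C := by linarith
    rw [le_div_iff₀ (by linarith)] at hεC
    linarith
  have hε1 : ε ≤ 1 := by
    have : 1 ≤ C := by linarith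
    nlinarith
  have habs : |ε| ≤ 1 := by rw [abs_of_pos hε]; exact hε1
  have hb1 : ∀ ζ : Fin n → ℂ, ‖ζ‖ ≤ 4 → |sf P m κ (ζ, ε)| ≤ 1 / 4 := by
    intro ζ hζ
    have h4 := h1 ζ ε hζ habs
    rw [Real.norm_eq_abs, abs_of_pos hε] at h4
    nlinarith
  have hb1' : ∀ ζ : Fin n → ℂ, |sf P m κ (ζ, ε)| ≤ 1 / 4 := by
    intro ζ
    rcases le_total (sq ζ) 3 with h | h
    · exact hb1 ζ ((norm_le_of_sq h).trans (by norm_num))
    · have : sf P m κ (ζ, ε) = 0 := by simp [sf, hout (ζ, ε) h]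
      rw [this, abs_zero]; norm_num
  have hpsi : ∀ ζ, psi P m κ (ζ, ε) = sq ζ + sf P m κ (ζ, ε) := fun ζ => rfl
  have hbdd : ∀ ζ, psi P m κ (ζ, ε) < 1 → sq ζ ≤ 2 := by
    intro ζ hζ
    have := abs_le.1 (hb1' ζ)
    rw [hpsi] at hζ
    linarith [this.1]
  -- the derivative of the perturbation
  have hdz : ∀ ζ w : Fin n → ℂ, dz (psi P m κ) (ζ, ε) w
      = 2 * (∑ j, w j * (starRingEnd ℂ) (ζ j)).re + dz (sf P m κ) (ζ, ε) w := by
    intro ζ w
    have h4 : HasFDerivAt (fun ζ => psi P m κ (ζ, ε)) (dz (psi P m κ) (ζ, ε)) ζ :=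
      dz_hasFDerivAt (hd.differentiable (by simp) (ζ, ε))
    have h5 : HasFDerivAt (fun ζ => sf P m κ (ζ, ε)) (dz (sf P m κ) (ζ, ε)) ζ :=
      dz_hasFDerivAt (hs.smooth.differentiable (by simp) (ζ, ε))
    have h6 : HasFDerivAt (fun ζ : Fin n → ℂ => sq ζ) (fderiv ℝ sq ζ) ζ :=
      (contDiff_sq.differentiable (by simp) ζ).hasFDerivAt
    have h7 : dz (psi P m κ) (ζ, ε) = fderiv ℝ sq ζ + dz (sf P m κ) (ζ, ε) :=
      h4.unique (h6.add h5)
    rw [h7, add_apply]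
    congr 1
    have h8 : HasDerivAt (fun t : ℝ => sq (ζ + t • w)) (fderiv ℝ sq ζ w) 0 := by
      have h9 : HasFDerivAt (fun ζ : Fin n → ℂ => sq ζ) (fderiv ℝ sq ζ) (ζ + (0 : ℝ) • w) := by
        rw [zero_smul, add_zero]; exact h6
      have h10 : HasDerivAt (fun t : ℝ => ζ + t • w) w 0 := by
        have := ((hasDerivAt_id (0 : ℝ)).smul_const w).const_add ζ
        simpa using this
      exact h9.comp_hasDerivAt (0 : ℝ) h10
    have h11 : (fun t : ℝ => sq (ζ + t • w)) = fun t : ℝ =>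
        sq ζ + t * (2 * (∑ j, w j * (starRingEnd ℂ) (ζ j)).re) + t ^ 2 * sq w := by
      funext t
      have h12 := sq_add ζ (t • w)
      have h13 : (∑ j, (t • w) j * (starRingEnd ℂ) (ζ j)).re
          = t * (∑ j, w j * (starRingEnd ℂ) (ζ j)).re := by
        rw [Complex.re_sum, Complex.re_sum, Finset.mul_sum]
        refine Finset.sum_congr rfl fun j _ => ?_
        simp
        ring
      have h14 : sq (t • w) = t ^ 2 * sq w := by
        unfold sq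
        rw [Finset.mul_sum]
        refine Finset.sum_congr rfl fun j _ => ?_
        rw [Pi.smul_apply, norm_smul, mul_pow, Real.norm_eq_abs, sq_abs]
      rw [h13, h14] at h12
      linarith
    rw [h11] at h8
    have h15 : HasDerivAt (fun t : ℝ => sq ζ + t * (2 * (∑ j, w j * (starRingEnd ℂ) (ζ j)).re)
        + t ^ 2 * sq w) (0 + 1 * (2 * (∑ j, w j * (starRingEnd ℂ) (ζ j)).re)
          + (2 * (0 : ℝ) ^ 1) * sq w) 0 := by
      refine (((hasDerivAt_id (0 : ℝ)).mul_const _).const_add _ |>.congr_deriv (by simp)).add ?_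
      have := (hasDerivAt_pow 2 (0 : ℝ)).mul_const (sq w)
      simpa using this
    have h16 := h8.unique h15
    rw [h16]; ring
  refine ⟨hd.continuous.comp (continuous_id.prodMk continuous_const), fun ζ => ?_, hbdd,
    fun ζ hζ => ?_, fun ζ hζ w hw => ?_, fun ζ hζ j => ?_⟩
  · have := abs_le.1 (hb1' ζ)
    change -1 ≤ psi P m κ (ζ, ε)
    rw [hpsi]
    linarith [sq_nonneg' ζ, this.1]
  · have := abs_le.1 (hb1' ζ)
    change psi P m κ (ζ, ε) ≤ 1 / 2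
    rw [hpsi]
    linarith [this.2]
  · have hζ2 := norm_le_of_sq (hbdd ζ hζ)
    have hw2 : ‖ζ + w‖ ≤ 4 := (norm_add_le _ _).trans (by linarith)
    have h4 := h2 ζ w ε (by linarith) hw2 habs
    rw [Real.norm_eq_abs, abs_of_pos hε] at h4
    have h5 := dz_real (b := psi P m κ) (hd.differentiable (by simp) (ζ, ε)) w
    change |psi P m κ (ζ + w, ε) - psi P m κ (ζ, ε)
      - 2 * (∑ j, w j * W j (fun y => ((psi P m κ y : ℝ) : ℂ)) (ζ, ε)).re| ≤ _
    rw [← h5, hdz, hpsi, hpsi]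
    have h6 : sq (ζ + w) + sf P m κ (ζ + w, ε) - (sq ζ + sf P m κ (ζ, ε))
        - (2 * (∑ j, w j * (starRingEnd ℂ) (ζ j)).re + dz (sf P m κ) (ζ, ε) w)
        = sq w + (sf P m κ (ζ + w, ε) - sf P m κ (ζ, ε) - dz (sf P m κ) (ζ, ε) w) := by
      rw [← sq_add ζ w]; ring
    rw [h6]
    refine (abs_add_le _ _).trans ?_
    rw [abs_of_nonneg (sq_nonneg' w)]
    have h7 := sq_le w
    have h8 : C₂ * ε * ‖w‖ ^ 2 ≤ 1 * ‖w‖ ^ 2 := by
      apply mul_le_mul_of_nonneg_right _ (by positivity)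
      nlinarith
    nlinarith [sq_nonneg ‖w‖]
  · have hζ2 := norm_le_of_sq (hbdd ζ hζ)
    have h4 := h3 ζ ε (by linarith) habs
    rw [abs_of_pos hε] at h4
    -- the Wirtinger derivative in terms of dz
    have hreal : ∀ v : Fin n → ℂ, dz (fun y => ((psi P m κ y : ℝ) : ℂ)) (ζ, ε) v
        = ((dz (psi P m κ) (ζ, ε) v : ℝ) : ℂ) := by
      intro v
      have h8 := (Complex.ofRealCLM : ℝ →L[ℝ] ℂ).hasFDerivAt.comp (ζ, ε)
        (hd.differentiable (by simp) (ζ, ε)).hasFDerivAt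
      have h9 : fderiv ℝ (fun y => ((psi P m κ y : ℝ) : ℂ)) (ζ, ε)
          = (Complex.ofRealCLM : ℝ →L[ℝ] ℂ).comp (fderiv ℝ (psi P m κ) (ζ, ε)) := h8.fderiv
      unfold dz
      rw [h9]; rfl
    have hv : ∀ v : Fin n → ℂ, ‖v‖ ≤ 1 → |dz (psi P m κ) (ζ, ε) v| ≤ 2 * (∑ i, ‖v i‖ * ‖ζ i‖) + 1 := by
      intro v hv
      rw [hdz]
      refine (abs_add_le _ _).trans (add_le_add ?_ ?_)
      · rw [abs_mul, abs_of_pos (by norm_num : (0 : ℝ) < 2)]
        apply mul_le_mul_of_nonneg_left _ (by norm_num)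
        refine (Complex.abs_re_le_norm _).trans ((norm_sum_le _ _).trans ?_)
        refine Finset.sum_le_sum fun i _ => ?_
        rw [norm_mul, RCLike.norm_conj]
      · have h10 := (dz (sf P m κ) (ζ, ε)).le_opNorm v
        rw [Real.norm_eq_abs] at h10
        have h11 : ‖dz (sf P m κ) (ζ, ε)‖ ≤ 1 := by nlinarith
        calc _ ≤ ‖dz (sf P m κ) (ζ, ε)‖ * ‖v‖ := h10
          _ ≤ 1 * 1 := mul_le_mul h11 hv (norm_nonneg _) (by norm_num)
          _ = 1 := one_mul 1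
    have hsing : ∀ c : ℂ, ‖c‖ = 1 → |dz (psi P m κ) (ζ, ε) (Pi.single j c)| ≤ 2 * ‖ζ j‖ + 1 := by
      intro c hc
      have h12 := hv (Pi.single j c) (by
        rw [Pi.norm_single, hc])
      have h13 : (∑ i, ‖(Pi.single j c : Fin n → ℂ) i‖ * ‖ζ i‖) = ‖ζ j‖ := by
        rw [Finset.sum_eq_single j]
        · simp [hc]
        · intro i _ hi
          simp [Pi.single_eq_of_ne hi]
        · simp
      rwa [h13] at h12
    have hζj : ‖ζ j‖ ≤ 3 / 2 := by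
      have h14 : ‖ζ j‖ ^ 2 ≤ 2 :=
        le_trans (Finset.single_le_sum (f := fun j => ‖ζ j‖ ^ 2) (fun j _ => by positivity)
          (Finset.mem_univ j)) (hbdd ζ hζ)
      nlinarith [norm_nonneg (ζ j)]
    change ‖W j (fun y => ((psi P m κ y : ℝ) : ℂ)) (ζ, ε)‖ ≤ n + 3
    rw [W_eq, hreal, hreal]
    have h15 := hsing 1 (by simp)
    have h16 := hsing Complex.I (by simp)
    rw [norm_mul]
    have h17 : ‖(1 / 2 : ℂ)‖ = 1 / 2 := by norm_num
    have h18 : ‖((dz (psi P m κ) (ζ, ε) (Pi.single j 1) : ℝ) : ℂ)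
        - Complex.I * ((dz (psi P m κ) (ζ, ε) (Pi.single j Complex.I) : ℝ) : ℂ)‖
        ≤ |dz (psi P m κ) (ζ, ε) (Pi.single j 1)|
          + |dz (psi P m κ) (ζ, ε) (Pi.single j Complex.I)| := by
      refine (norm_sub_le _ _).trans ?_
      rw [norm_mul, Complex.norm_I, one_mul, Complex.norm_real, Complex.norm_real,
        Real.norm_eq_abs, Real.norm_eq_abs]
    rw [h17]
    have hn : (0 : ℝ) ≤ n := Nat.cast_nonneg n
    have hn1 : (1 : ℝ) ≤ n := by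
      have : 0 < n := j.pos
      exact_mod_cast this
    linarith

end Pool.Agent.H60.FB
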