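import Pool.Agent.H60.FB.Hom

/-!
The multiplier `M`: general decomposition, and the estimates in the three regions.
-/

open MvPolynomial MeasureTheory Pool.Agent.H77.FB
open scoped ContDiff

namespace Pool.Agent.H60.FB

variable {n : ℕ} {P : MvPolynomial (Fin n) ℂ} {m : ℕ}

lemma concl {A M : ℂ} {E D : ℝ} (h : ‖M - (starRingEnd ℂ) A‖ ≤ 1 / 4 * ‖A‖ + E)
    (hD : E ^ 2 ≤ D) : 1 / 2 * ‖A‖ ^ 2 - D ≤ (A * M).re := by
  have h1 : A * M = ((‖A‖ ^ 2 : ℝ) : ℂ) + A * (M - (starRingEnd ℂ) A) := by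
    rw [mul_sub, Complex.mul_conj']
    push_cast
    ring
  rw [h1, Complex.add_re, Complex.ofReal_re]
  have h2 : -(‖A‖ * (1 / 4 * ‖A‖ + E)) ≤ (A * (M - (starRingEnd ℂ) A)).re := by
    have h3 := (abs_le.1 (Complex.abs_re_le_norm (A * (M - (starRingEnd ℂ) A)))).1
    rw [norm_mul] at h3
    have h4 := mul_le_mul_of_nonneg_left h (norm_nonneg A)
    linarith
  nlinarith [sq_nonneg (1 / 2 * ‖A‖ - E), norm_nonneg A]

lemma exists_bound_cont {U : Type*} [NormedAddCommGroup U] {f : (Fin n → ℂ) × ℝ → U}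
    (hf : Continuous f) (R : ℝ) :
    ∃ C : ℝ, 0 ≤ C ∧ ∀ (ζ : Fin n → ℂ) (ε : ℝ), ‖ζ‖ ≤ R → |ε| ≤ 1 → ‖f (ζ, ε)‖ ≤ C := by
  obtain ⟨C, hC⟩ := (isCompact_closedBall (0 : (Fin n → ℂ) × ℝ)
    (max R 1)).exists_bound_of_continuousOn hf.continuousOn
  refine ⟨max C 0, le_max_right _ _, fun ζ ε hζ hε => (hC (ζ, ε) ?_).trans (le_max_left _ _)⟩
  rw [mem_closedBall_zero_iff]
  exact norm_prod_le_iff.2 ⟨hζ.trans (le_max_left _ _), hε.trans (le_max_right _ _)⟩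

/-- `M` is close to `θ_m P̃^*_{εg}(∂ψ)`. -/
lemma MM_dec {ψ : (Fin n → ℂ) × ℝ → ℝ} (hψ : ContDiff ℝ ∞ ψ) (hP : P.totalDegree ≤ m) (R : ℝ) :
    ∃ C : ℝ, 0 ≤ C ∧ ∀ (ζ : Fin n → ℂ) (ε : ℝ), ‖ζ‖ ≤ R → 0 < ε → ε ≤ 1 → ψ (ζ, ε) < 1 →
      -1 ≤ ψ (ζ, ε) →
      ‖MM P m ψ (ζ, ε) - (th m ε : ℂ) * hp (star' P) m ((ε * (1 - ψ (ζ, ε)) : ℝ) : ℂ)
        (fun j => W j (fun y => (ψ y : ℂ)) (ζ, ε))‖ ≤ C * ε ^ 2 * (1 - ψ (ζ, ε)) := by
  choose c hc hL using fun s : Fin n →₀ ℕ => aL_struct hψ (ls s)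
  set T : (Fin n →₀ ℕ) → (Fin n → ℂ) → ℝ → ℂ := fun s ζ ε =>
    (starRingEnd ℂ) (P.coeff s) * ((ε * (1 - ψ (ζ, ε)) : ℝ) : ℂ) ^ (m - s.degree) *
      (((th s.degree ε - th m ε : ℝ) : ℂ) * pr ψ (ls s) (ζ, ε)
        + (ε : ℂ) ^ 2 * ((1 - ψ (ζ, ε) : ℝ) : ℂ) * c s (ζ, ε)) with hT
  have h1 : ∀ ζ ε, MM P m ψ (ζ, ε) - (th m ε : ℂ) * hp (star' P) m
      ((ε * (1 - ψ (ζ, ε)) : ℝ) : ℂ) (fun j => W j (fun y => (ψ y : ℂ)) (ζ, ε))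
      = ∑ s ∈ P.support, T s ζ ε := by
    intro ζ ε
    unfold MM hp
    rw [support_star, Finset.mul_sum, ← Finset.sum_sub_distrib]
    refine Finset.sum_congr rfl fun s _ => ?_
    rw [hL s, length_ls, pr_eq, list_prod_ls, coeff_star]
    simp only [hT]
    rw [pr_eq, list_prod_ls]
    push_cast
    ring
  have h2 : ∀ s ∈ P.support, ∃ B : ℝ, 0 ≤ B ∧ ∀ (ζ : Fin n → ℂ) (ε : ℝ), ‖ζ‖ ≤ R → 0 < ε →
      ε ≤ 1 → ψ (ζ, ε) < 1 → -1 ≤ ψ (ζ, ε) → ‖T s ζ ε‖ ≤ B * ε ^ 2 * (1 - ψ (ζ, ε)) := by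
    intro s hs
    obtain ⟨B₁, hB₁, hb₁⟩ := exists_bound_cont (contDiff_pr hψ (ls s)).continuous R
    obtain ⟨B₂, hB₂, hb₂⟩ := exists_bound_cont (hc s).continuous R
    obtain ⟨B₃, hB₃, hb₃⟩ := th_bound s.degree
    obtain ⟨B₄, hB₄, hb₄⟩ := th_bound m
    have hd : s.degree ≤ m := (MvPolynomial.le_totalDegree hs).trans hP
    refine ⟨‖P.coeff s‖ * 2 ^ m * ((B₃ + B₄) * B₁ + B₂), by positivity,
      fun ζ ε hζ hε hε1 hg1 hg2 => ?_⟩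
    set g := 1 - ψ (ζ, ε) with hg
    have hg0 : 0 < g := by linarith
    have hg3 : g ≤ 2 := by linarith
    have habs : |ε| ≤ 1 := by rw [abs_of_pos hε]; exact hε1
    have hεg : ε * g ≤ 2 := by nlinarith
    have hεg0 : 0 < ε * g := by positivity
    have e1 := hb₁ ζ ε hζ habs
    have e2 := hb₂ ζ ε hζ habs
    have e3 := (hb₃ ε habs).1
    have e4 := (hb₄ ε habs).1
    have e5 : ‖(((ε * g : ℝ) : ℂ)) ^ (m - s.degree)‖ = (ε * g) ^ (m - s.degree) := by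
      rw [norm_pow, Complex.norm_real, Real.norm_of_nonneg hεg0.le]
    have e6 : (ε * g) ^ (m - s.degree) ≤ 2 ^ m := by
      calc (ε * g) ^ (m - s.degree) ≤ 2 ^ (m - s.degree) :=
            pow_le_pow_left₀ hεg0.le hεg _
        _ ≤ 2 ^ m := pow_le_pow_right₀ (by norm_num) (by omega)
    have e7 : ‖(ε : ℂ) ^ 2 * ((g : ℝ) : ℂ) * c s (ζ, ε)‖ ≤ ε ^ 2 * g * B₂ := by
      rw [norm_mul, norm_mul, norm_pow, Complex.norm_real, Complex.norm_real,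
        Real.norm_of_nonneg hε.le, Real.norm_of_nonneg hg0.le]
      exact mul_le_mul_of_nonneg_left e2 (by positivity)
    have e8 : (ε * g) ^ (m - s.degree) * (|th s.degree ε - th m ε| * ‖pr ψ (ls s) (ζ, ε)‖)
        ≤ 2 ^ m * ((B₃ + B₄) * B₁) * ε ^ 2 * g := by
      rcases hd.eq_or_lt with h | h
      · rw [← h, sub_self, abs_zero, zero_mul, mul_zero]
        positivity
      · have e9 : |th s.degree ε - th m ε| ≤ (B₃ + B₄) * ε ^ 2 := by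
          have : th s.degree ε - th m ε = (th s.degree ε - 1) - (th m ε - 1) := by ring
          rw [this]
          refine (abs_sub _ _).trans ?_
          linarith
        have e10 : (ε * g) ^ (m - s.degree) ≤ 2 ^ m * g := by
          have : m - s.degree = (m - s.degree - 1) + 1 := by omega
          rw [this, pow_succ]
          have e11 : (ε * g) ^ (m - s.degree - 1) ≤ 2 ^ m := by
            calc (ε * g) ^ (m - s.degree - 1) ≤ 2 ^ (m - s.degree - 1) :=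
                  pow_le_pow_left₀ hεg0.le hεg _
              _ ≤ 2 ^ m := pow_le_pow_right₀ (by norm_num) (by omega)
          have e12 : ε * g ≤ g := by nlinarith
          exact mul_le_mul e11 e12 hεg0.le (by positivity)
        calc _ ≤ (2 ^ m * g) * (((B₃ + B₄) * ε ^ 2) * B₁) :=
              mul_le_mul e10 (mul_le_mul e9 e1 (norm_nonneg _) (by positivity))
                (by positivity) (by positivity)
          _ = _ := by ring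
    calc ‖T s ζ ε‖ ≤ ‖P.coeff s‖ * (ε * g) ^ (m - s.degree) *
          (|th s.degree ε - th m ε| * ‖pr ψ (ls s) (ζ, ε)‖ + ε ^ 2 * g * B₂) := by
          simp only [hT]
          rw [norm_mul, norm_mul, RCLike.norm_conj, e5]
          apply mul_le_mul_of_nonneg_left _ (by positivity)
          refine (norm_add_le _ _).trans (add_le_add ?_ e7)
          rw [norm_mul, Complex.norm_real, Real.norm_eq_abs]
      _ = ‖P.coeff s‖ * ((ε * g) ^ (m - s.degree) * (|th s.degree ε - th m ε|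
            * ‖pr ψ (ls s) (ζ, ε)‖) + (ε * g) ^ (m - s.degree) * (ε ^ 2 * g * B₂)) := by ring
      _ ≤ ‖P.coeff s‖ * (2 ^ m * ((B₃ + B₄) * B₁) * ε ^ 2 * g + 2 ^ m * (ε ^ 2 * g * B₂)) := by
          apply mul_le_mul_of_nonneg_left _ (norm_nonneg _)
          exact add_le_add e8 (mul_le_mul_of_nonneg_right e6 (by positivity))
      _ = _ := by ring
  choose! B hB0 hB using h2
  refine ⟨∑ s ∈ P.support, B s, Finset.sum_nonneg fun s hs => hB0 s hs,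
    fun ζ ε hζ hε hε1 hg1 hg2 => ?_⟩
  rw [h1, Finset.sum_mul, Finset.sum_mul]
  exact (norm_sum_le _ _).trans (Finset.sum_le_sum fun s hs => hB s hs ζ ε hζ hε hε1 hg1 hg2)

/-- The data of the matching function. -/
structure KD (P : MvPolynomial (Fin n) ℂ) (m : ℕ) (η ε₀ C : ℝ) (κ : (Fin n → ℂ) × ℝ → ℂ) :
    Prop where
  van : Van κ
  inn : ∀ x, sq x.1 ≤ η / 2 → κ x = 0
  out : ∀ x, 3 ≤ sq x.1 → κ x = 0
  eqn : ∀ (ζ : Fin n → ℂ) (ε : ℝ), |ε| ≤ ε₀ → η / 2 ≤ sq ζ → sq ζ ≤ 2 →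
        ∃ (y : ℂ) (τ : ℝ), 0 ≤ τ ∧ τ ≤ 1 ∧ (η ≤ sq ζ → τ = 1) ∧ κ (ζ, ε) = τ * y ∧
          ‖y‖ ≤ C * |ε| ∧
          hp (star' P) m ((ε * (1 - sq ζ) : ℝ) : ℂ)
              (fun j => (starRingEnd ℂ) (ζ j) + y * gr P m ε ζ j)
            = (starRingEnd ℂ) (hp P m ε ζ)

/-- The shell and the middle region: the common part of the estimate. -/
lemma MM_near (hP : P.totalDegree ≤ m) {κ : (Fin n → ℂ) × ℝ → ℂ} (hκ : Van κ)
    (hout : ∀ x : (Fin n → ℂ) × ℝ, 3 ≤ sq x.1 → κ x = 0) {C₂ : ℝ} (hC₂ : 0 ≤ C₂)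
    (h2 : ∀ ε : ℝ, |ε| ≤ 1 → |th m ε - 1| ≤ C₂ * ε ^ 2 ∧ |th m ε| ≤ C₂) :
    ∃ C : ℝ, 0 ≤ C ∧ ∃ ε₁ > (0 : ℝ), ∀ (ζ : Fin n → ℂ) (ε : ℝ), 0 < ε → ε ≤ ε₁ →
      psi P m κ (ζ, ε) < 1 → ∀ (A : ℂ) (_ : A = hp (star' P) m ((ε * (1 - sq ζ) : ℝ) : ℂ)
        (fun j => (starRingEnd ℂ) (ζ j) + κ (ζ, ε) * gr P m ε ζ j)),
      ‖MM P m (psi P m κ) (ζ, ε) - (starRingEnd ℂ) (hp P m ε ζ)‖
        ≤ C * ε * ‖hp P m ε ζ‖ + C * ε ^ 2 * (1 - psi P m κ (ζ, ε))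
          + C₂ * ‖A - (starRingEnd ℂ) (hp P m ε ζ)‖ := by
  have hd := contDiff_psi (P := P) (m := m) hκ
  obtain ⟨ε₁, hε₁, hW⟩ := isW_psi (P := P) (m := m) hκ hout
  obtain ⟨C₁, hC₁, h1⟩ := MM_dec (P := P) (m := m) hd hP 3
  obtain ⟨C₃, hC₃, h3⟩ := hκ.bound 3
  have hWb : ∀ j, ∃ C : ℝ, 0 ≤ C ∧ ∀ (ζ : Fin n → ℂ) (ε : ℝ), ‖ζ‖ ≤ 3 → |ε| ≤ 1 →
      ‖W j κ (ζ, ε)‖ ≤ C * |ε| ∧ ‖W j (fun y => (starRingEnd ℂ) (κ y)) (ζ, ε)‖ ≤ C * |ε| := by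
    intro j
    obtain ⟨C, hC, h⟩ := (hκ.W j).bound 3
    obtain ⟨C', hC', h'⟩ := (hκ.conj.W j).bound 3
    refine ⟨C + C', by positivity, fun ζ ε hζ hε => ⟨?_, ?_⟩⟩
    · have := h ζ ε hζ hε
      nlinarith [abs_nonneg ε]
    · have := h' ζ ε hζ hε
      nlinarith [abs_nonneg ε]
  choose C₄ hC₄ h4 using hWb
  set C₅ := ∑ j, C₄ j with hC₅
  have hC₅0 : 0 ≤ C₅ := Finset.sum_nonneg fun j _ => hC₄ j
  have hC₅j : ∀ j, C₄ j ≤ C₅ := fun j =>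
    Finset.single_le_sum (fun j _ => hC₄ j) (Finset.mem_univ j)
  have hgb : ∀ j, ∃ C : ℝ, 0 ≤ C ∧ ∀ (ζ : Fin n → ℂ) (ε : ℝ), ‖ζ‖ ≤ 3 → |ε| ≤ 1 →
      ‖gr P m (ε : ℂ) ζ j‖ ≤ C := fun j =>
    exists_bound_cont (f := fun x => gr P m (x.2 : ℂ) x.1 j) (contDiff_grt P m j).continuous 3
  choose C₆ hC₆ h6 using hgb
  set C₇ := ∑ j, C₆ j with hC₇
  have hC₇0 : 0 ≤ C₇ := Finset.sum_nonneg fun j _ => hC₆ j
  have hC₇j : ∀ j, C₆ j ≤ C₇ := fun j =>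
    Finset.single_le_sum (fun j _ => hC₆ j) (Finset.mem_univ j)
  set R := (n : ℝ) + 3 + 3 + C₃ * C₇ with hR
  obtain ⟨C₈, hC₈, h8⟩ := lip_ball
    ((contDiff_hp_real (star' P) m).of_le (m := 1) (by exact_mod_cast le_top)) R
  set C := C₁ + C₂ * (C₈ * (2 * C₃ + 2 * C₅)) + C₂ + C₂ with hC
  refine ⟨C, by positivity, min ε₁ 1, by positivity, fun ζ ε hε hεm hψ A hA => ?_⟩
  have hεε₁ : ε ≤ ε₁ := hεm.trans (min_le_left _ _)
  have hε1 : ε ≤ 1 := hεm.trans (min_le_right _ _)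
  have habs : |ε| ≤ 1 := by rw [abs_of_pos hε]; exact hε1
  have hw := hW ε hε hεε₁
  have hζ3 : ‖ζ‖ ≤ 3 := (norm_le_of_sq (hw.bdd ζ hψ)).trans (by norm_num)
  have hlow : -1 ≤ psi P m κ (ζ, ε) := hw.lower ζ
  set g := 1 - psi P m κ (ζ, ε) with hg
  have hg0 : 0 < g := by linarith
  have hg2 : g ≤ 2 := by linarith
  set Q := hp P m (ε : ℂ) ζ with hQ
  have hQ' : Q = Pt P m (ζ, ε) := rfl
  -- the two points
  set u₁ : Fin n → ℂ := fun j => W j (fun y => ((psi P m κ y : ℝ) : ℂ)) (ζ, ε) with hu₁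
  set u₀ : Fin n → ℂ := fun j => (starRingEnd ℂ) (ζ j) + κ (ζ, ε) * gr P m ε ζ j with hu₀
  have hn : (0 : ℝ) ≤ n := Nat.cast_nonneg n
  have e1 : ‖u₁ - u₀‖ ≤ 2 * C₅ * ε * ‖Q‖ := by
    refine (pi_norm_le_iff_of_nonneg (by positivity)).2 fun j => ?_
    have h9 : (u₁ - u₀) j = W j κ (ζ, ε) * Pt P m (ζ, ε)
        + W j (fun y => (starRingEnd ℂ) (κ y)) (ζ, ε) * (starRingEnd ℂ) (Pt P m (ζ, ε)) := by
      rw [Pi.sub_apply, hu₁, hu₀]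
      simp only
      rw [W_psi hκ j (ζ, ε)]
      ring
    rw [h9]
    refine (norm_add_le _ _).trans ?_
    rw [norm_mul, norm_mul, RCLike.norm_conj, ← hQ']
    obtain ⟨h10, h11⟩ := h4 j ζ ε hζ3 habs
    rw [abs_of_pos hε] at h10 h11
    have h12 : C₄ j * ε * ‖Q‖ ≤ C₅ * ε * ‖Q‖ := by
      have := hC₅j j
      gcongr
    have h13 := mul_le_mul_of_nonneg_right h10 (norm_nonneg Q)
    have h14 := mul_le_mul_of_nonneg_right h11 (norm_nonneg Q)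
    linarith
  have hκb : ‖κ (ζ, ε)‖ ≤ C₃ * ε := by
    have := h3 ζ ε hζ3 habs
    rwa [abs_of_pos hε] at this
  have e2 : |ε * g - ε * (1 - sq ζ)| ≤ 2 * C₃ * ε * ‖Q‖ := by
    have h9 : ε * g - ε * (1 - sq ζ) = -(ε * (2 * (κ (ζ, ε) * Pt P m (ζ, ε)).re)) := by
      rw [hg]; unfold psi; ring
    rw [h9, abs_neg, abs_mul, abs_of_pos hε, abs_mul, abs_of_pos (by norm_num : (0 : ℝ) < 2)]
    have h10 := Complex.abs_re_le_norm (κ (ζ, ε) * Pt P m (ζ, ε))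
    rw [norm_mul, ← hQ'] at h10
    have h11 : |(κ (ζ, ε) * Pt P m (ζ, ε)).re| ≤ C₃ * ‖Q‖ := by
      refine h10.trans (mul_le_mul_of_nonneg_right ?_ (norm_nonneg _))
      nlinarith
    nlinarith [norm_nonneg Q]
  have hu₁R : ‖u₁‖ ≤ R := by
    refine (pi_norm_le_iff_of_nonneg (by positivity)).2 fun j => ?_
    have := hw.lip ζ hψ j
    have h9 : 0 ≤ C₃ * C₇ := by positivity
    rw [hR]
    linarith
  have hu₀R : ‖u₀‖ ≤ R := by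
    refine (pi_norm_le_iff_of_nonneg (by positivity)).2 fun j => ?_
    refine (norm_add_le _ _).trans ?_
    rw [RCLike.norm_conj, norm_mul]
    have h9 : ‖ζ j‖ ≤ 3 := (norm_le_pi_norm ζ j).trans hζ3
    have h10 : ‖κ (ζ, ε)‖ * ‖gr P m (ε : ℂ) ζ j‖ ≤ C₃ * C₇ := by
      refine mul_le_mul (hκb.trans (by nlinarith)) ((h6 j ζ ε hζ3 habs).trans (hC₇j j))
        (norm_nonneg _) hC₃
    rw [hR]
    linarith
  have hsq : sq ζ ≤ 2 := hw.bdd ζ hψ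
  have hx : ∀ x : ℝ, |x| ≤ 3 → ‖(x : ℂ)‖ ≤ R := by
    intro x hx
    rw [Complex.norm_real, Real.norm_eq_abs, hR]
    have h9 : 0 ≤ C₃ * C₇ := by positivity
    linarith
  have hx1 : |ε * g| ≤ 3 := by
    rw [abs_of_pos (by positivity)]; nlinarith
  have hx0 : |ε * (1 - sq ζ)| ≤ 3 := by
    have := sq_nonneg' ζ
    rw [abs_le]
    constructor <;> nlinarith
  have e3 : ‖hp (star' P) m ((ε * g : ℝ) : ℂ) u₁ - A‖
      ≤ C₈ * (2 * C₃ + 2 * C₅) * ε * ‖Q‖ := by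
    have h9 := h8 (((ε * g : ℝ) : ℂ), u₁) (((ε * (1 - sq ζ) : ℝ) : ℂ), u₀)
      (norm_prod_le_iff.2 ⟨hx _ hx1, hu₁R⟩) (norm_prod_le_iff.2 ⟨hx _ hx0, hu₀R⟩)
    simp only at h9
    rw [← hA, Prod.mk_sub_mk] at h9
    refine h9.trans ?_
    rw [mul_assoc, mul_assoc]
    apply mul_le_mul_of_nonneg_left _ hC₈
    refine norm_prod_le_iff.2 ⟨?_, ?_⟩
    · rw [← Complex.ofReal_sub, Complex.norm_real, Real.norm_eq_abs]
      have : 0 ≤ 2 * C₅ * (ε * ‖Q‖) := by positivity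
      calc _ ≤ 2 * C₃ * ε * ‖Q‖ := e2
        _ ≤ _ := by nlinarith
    · have : 0 ≤ 2 * C₃ * (ε * ‖Q‖) := by positivity
      calc _ ≤ 2 * C₅ * ε * ‖Q‖ := e1
        _ ≤ _ := by nlinarith
  have e4 := h1 ζ ε hζ3 hε hε1 hψ hlow
  obtain ⟨e5, e6⟩ := h2 ε habs
  have e7 : MM P m (psi P m κ) (ζ, ε) - (starRingEnd ℂ) Q
      = (MM P m (psi P m κ) (ζ, ε) - (th m ε : ℂ) * hp (star' P) m ((ε * g : ℝ) : ℂ) u₁)
        + (th m ε : ℂ) * (hp (star' P) m ((ε * g : ℝ) : ℂ) u₁ - A)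
        + (th m ε : ℂ) * (A - (starRingEnd ℂ) Q)
        + ((th m ε - 1 : ℝ) : ℂ) * (starRingEnd ℂ) Q := by
    push_cast; ring
  rw [e7]
  have e8 : ‖(th m ε : ℂ) * (hp (star' P) m ((ε * g : ℝ) : ℂ) u₁ - A)‖
      ≤ C₂ * (C₈ * (2 * C₃ + 2 * C₅) * ε * ‖Q‖) := by
    rw [norm_mul, Complex.norm_real, Real.norm_eq_abs]
    exact mul_le_mul e6 e3 (norm_nonneg _) hC₂
  have e9 : ‖(th m ε : ℂ) * (A - (starRingEnd ℂ) Q)‖ ≤ C₂ * ‖A - (starRingEnd ℂ) Q‖ := by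
    rw [norm_mul, Complex.norm_real, Real.norm_eq_abs]
    exact mul_le_mul_of_nonneg_right e6 (norm_nonneg _)
  have e10 : ‖((th m ε - 1 : ℝ) : ℂ) * (starRingEnd ℂ) Q‖ ≤ C₂ * ε * ‖Q‖ := by
    rw [norm_mul, Complex.norm_real, Real.norm_eq_abs, RCLike.norm_conj]
    apply mul_le_mul_of_nonneg_right _ (norm_nonneg _)
    refine e5.trans ?_
    rw [pow_two, ← mul_assoc]
    exact mul_le_of_le_one_right (by positivity) hε1
  have t1 : 0 ≤ C₁ * (ε * ‖Q‖) := by positivity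
  have t2 : 0 ≤ C₂ * (ε * ‖Q‖) := by positivity
  have t3 : 0 ≤ C₂ * (C₈ * (2 * C₃ + 2 * C₅)) * (ε ^ 2 * g) := by positivity
  have t4 : 0 ≤ C₂ * (ε ^ 2 * g) := by positivity
  calc _ ≤ ‖(MM P m (psi P m κ) (ζ, ε) - (th m ε : ℂ) * hp (star' P) m ((ε * g : ℝ) : ℂ) u₁)‖
        + ‖(th m ε : ℂ) * (hp (star' P) m ((ε * g : ℝ) : ℂ) u₁ - A)‖
        + ‖(th m ε : ℂ) * (A - (starRingEnd ℂ) Q)‖
        + ‖((th m ε - 1 : ℝ) : ℂ) * (starRingEnd ℂ) Q‖ := norm_add₄_le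
    _ ≤ C₁ * ε ^ 2 * g + C₂ * (C₈ * (2 * C₃ + 2 * C₅) * ε * ‖Q‖)
        + C₂ * ‖A - (starRingEnd ℂ) Q‖ + C₂ * ε * ‖Q‖ :=
        add_le_add (add_le_add (add_le_add e4 e8) e9) e10
    _ ≤ _ := by rw [hC]; nlinarith

end Pool.Agent.H60.FB
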