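import Pool.Agent.H60.FB.Reg

/-!
The middle and the inner region.
-/

open MvPolynomial MeasureTheory Pool.Agent.H77.FB
open scoped ContDiff

namespace Pool.Agent.H60.FB

variable {n : ℕ} {P : MvPolynomial (Fin n) ℂ} {m : ℕ}

/-- The Taylor expansion in the middle region. -/
lemma mid_taylor (P : MvPolynomial (Fin n) ℂ) (m : ℕ) (C₁ : ℝ) :
    ∃ C : ℝ, 0 ≤ C ∧ ∀ (ζ : Fin n → ℂ) (ε : ℝ), 0 < ε → ε ≤ 1 → sq ζ ≤ 2 →
      ∀ (y : ℂ) (τ : ℝ), 0 ≤ τ → τ ≤ 1 → ‖y‖ ≤ C₁ * ε →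
      hp (star' P) m ((ε * (1 - sq ζ) : ℝ) : ℂ)
        (fun j => (starRingEnd ℂ) (ζ j) + y * gr P m ε ζ j) = (starRingEnd ℂ) (hp P m ε ζ) →
      ‖hp (star' P) m ((ε * (1 - sq ζ) : ℝ) : ℂ)
        (fun j => (starRingEnd ℂ) (ζ j) + (τ * y) * gr P m ε ζ j)
          - (starRingEnd ℂ) (hp P m ε ζ)‖
        ≤ (1 - τ) * ε * sq ζ * ‖gx (star' P) m (cj ζ)‖ + C * ε ^ 2 := by
  set C₂ := max C₁ 0 with hC₂
  have hC₂0 : 0 ≤ C₂ := le_max_right _ _
  have hgb : ∀ j, ∃ C : ℝ, 0 ≤ C ∧ ∀ (ζ : Fin n → ℂ) (ε : ℝ), ‖ζ‖ ≤ 3 → |ε| ≤ 1 →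
      ‖gr P m (ε : ℂ) ζ j‖ ≤ C := fun j =>
    exists_bound_cont (f := fun x => gr P m (x.2 : ℂ) x.1 j) (contDiff_grt P m j).continuous 3
  choose C₆ hC₆ h6 using hgb
  set C₇ := ∑ j, C₆ j with hC₇
  have hC₇0 : 0 ≤ C₇ := Finset.sum_nonneg fun j _ => hC₆ j
  have hC₇j : ∀ j, C₆ j ≤ C₇ := fun j =>
    Finset.single_le_sum (fun j _ => hC₆ j) (Finset.mem_univ j)
  set B := C₂ * C₇ + 1 with hB
  have hc2 : ContDiff ℝ 2 (fun x : ℂ × (Fin n → ℂ) => hp (star' P) m x.1 x.2) := by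
    exact_mod_cast contDiff_infty.1 (contDiff_hp_real (star' P) m) 2
  obtain ⟨C, hC, hT⟩ := taylor_ball hc2 (3 + B)
  have hB1 : 1 ≤ B := by
    have : 0 ≤ C₂ * C₇ := by positivity
    linarith
  refine ⟨3 * (C * B ^ 2), by positivity, fun ζ ε hε hε1 hsq y τ hτ0 hτ1 hy heq => ?_⟩
  set Φ : ℂ × (Fin n → ℂ) → ℂ := fun y => hp (star' P) m y.1 y.2 with hΦ
  set p₀ : ℂ × (Fin n → ℂ) := (0, cj ζ) with hp₀
  set w : Fin n → ℂ := fun j => y * gr P m ε ζ j with hw
  set T := fderiv ℝ Φ p₀ with hTdef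
  have hζ3 : ‖ζ‖ ≤ 3 := (norm_le_of_sq hsq).trans (by norm_num)
  have habs : |ε| ≤ 1 := by rw [abs_of_pos hε]; exact hε1
  have hwn : ‖w‖ ≤ B * ε := by
    refine (pi_norm_le_iff_of_nonneg (by positivity)).2 fun j => ?_
    rw [hw]
    simp only
    rw [norm_mul]
    have e1 : ‖y‖ ≤ C₂ * ε := hy.trans (mul_le_mul_of_nonneg_right (le_max_left _ _) hε.le)
    calc ‖y‖ * ‖gr P m (ε : ℂ) ζ j‖ ≤ (C₂ * ε) * C₇ :=
          mul_le_mul e1 ((h6 j ζ ε hζ3 habs).trans (hC₇j j)) (norm_nonneg _) (by positivity)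
      _ ≤ B * ε := by rw [hB]; nlinarith
  have hs0 := sq_nonneg' ζ
  have hx0 : |ε * (1 - sq ζ)| ≤ B * ε := by
    rw [abs_mul, abs_of_pos hε, mul_comm]
    apply mul_le_mul_of_nonneg_right _ hε.le
    refine le_trans ?_ hB1
    rw [abs_le]; constructor <;> linarith
  have hx1 : ‖((ε * (1 - sq ζ) : ℝ) : ℂ)‖ ≤ B * ε := by
    rw [Complex.norm_real, Real.norm_eq_abs]; exact hx0
  have hx2 : ‖(ε : ℂ)‖ ≤ B * ε := by
    rw [Complex.norm_real, Real.norm_eq_abs, abs_of_pos hε]; nlinarith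
  have hp0n : ‖p₀‖ ≤ 3 + B := by
    refine norm_prod_le_iff.2 ⟨?_, ?_⟩
    · rw [hp₀]; simp; linarith
    · rw [hp₀]
      simp only
      rw [norm_cj]; linarith
  have key : ∀ h : ℂ × (Fin n → ℂ), ‖h‖ ≤ B * ε →
      ‖Φ (p₀ + h) - Φ p₀ - T h‖ ≤ C * B ^ 2 * ε ^ 2 := by
    intro h hh
    have e1 : ‖p₀ + h‖ ≤ 3 + B := by
      refine (norm_add_le _ _).trans ?_
      have e2 : ‖p₀‖ ≤ 3 := by
        refine norm_prod_le_iff.2 ⟨?_, ?_⟩
        · rw [hp₀]; simp
        · rw [hp₀]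
          simp only
          rw [norm_cj]; linarith
      have e3 : ‖h‖ ≤ B := hh.trans (by nlinarith)
      linarith
    refine (hT p₀ h hp0n e1).trans ?_
    calc C * ‖h‖ ^ 2 ≤ C * (B * ε) ^ 2 := by gcongr
      _ = _ := by ring
  set h₁ : ℂ × (Fin n → ℂ) := (((ε * (1 - sq ζ) : ℝ) : ℂ), τ • w) with hh₁
  set h₂ : ℂ × (Fin n → ℂ) := ((ε : ℂ), 0) with hh₂
  set h₃ : ℂ × (Fin n → ℂ) := (((ε * (1 - sq ζ) : ℝ) : ℂ), w) with hh₃
  have k₁ := key h₁ (norm_prod_le_iff.2 ⟨hx1, by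
    change ‖τ • w‖ ≤ B * ε
    rw [norm_smul, Real.norm_of_nonneg hτ0]
    exact (mul_le_of_le_one_left (norm_nonneg _) hτ1).trans hwn⟩)
  have k₂ := key h₂ (norm_prod_le_iff.2 ⟨hx2, by
    change ‖(0 : Fin n → ℂ)‖ ≤ B * ε
    rw [norm_zero]; positivity⟩)
  have k₃ := key h₃ (norm_prod_le_iff.2 ⟨hx1, hwn⟩)
  have v₁ : Φ (p₀ + h₁) = hp (star' P) m ((ε * (1 - sq ζ) : ℝ) : ℂ)
      (fun j => (starRingEnd ℂ) (ζ j) + (τ * y) * gr P m ε ζ j) := by
    rw [hΦ, hp₀, hh₁]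
    simp only [Prod.mk_add_mk, zero_add]
    congr 1
    funext j
    rw [Pi.add_apply, Pi.smul_apply, hw, Complex.real_smul]
    simp only [cj]
    ring
  have v₂ : Φ (p₀ + h₂) = (starRingEnd ℂ) (hp P m ε ζ) := by
    rw [hΦ, hp₀, hh₂, conj_hp, Complex.conj_ofReal]
    simp only [Prod.mk_add_mk, zero_add, add_zero]
  have v₃ : Φ (p₀ + h₃) = (starRingEnd ℂ) (hp P m ε ζ) := by
    rw [← heq, hΦ, hp₀, hh₃]
    simp only [Prod.mk_add_mk, zero_add]
    congr 1
  rw [← v₁, ← v₂]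
  have lin : T h₁ = τ • T h₃ + (1 - τ) • T h₂
      - ((1 - τ) * (ε * sq ζ)) • T ((1 : ℂ), (0 : Fin n → ℂ)) := by
    rw [← map_smul, ← map_smul, ← map_smul, ← map_add, ← map_sub]
    congr 1
    rw [hh₁, hh₂, hh₃]
    refine Prod.ext ?_ ?_
    · simp only [Prod.fst_sub, Prod.fst_add, Prod.smul_fst, Complex.real_smul]
      push_cast; ring
    · simp only [Prod.snd_sub, Prod.snd_add, Prod.smul_snd, smul_zero, add_zero, sub_zero]
  have e5 : Φ (p₀ + h₁) - Φ (p₀ + h₂) = (Φ (p₀ + h₁) - Φ p₀ - T h₁)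
      - τ • (Φ (p₀ + h₃) - Φ p₀ - T h₃) - (1 - τ) • (Φ (p₀ + h₂) - Φ p₀ - T h₂)
      - ((1 - τ) * (ε * sq ζ)) • T ((1 : ℂ), (0 : Fin n → ℂ)) := by
    have e6 : Φ (p₀ + h₃) = Φ (p₀ + h₂) := by rw [v₃, v₂]
    rw [e6, lin]
    simp only [Complex.real_smul]
    push_cast
    ring
  rw [e5]
  have e7 : ‖T ((1 : ℂ), (0 : Fin n → ℂ))‖ = ‖gx (star' P) m (cj ζ)‖ := rfl
  have e8 : ‖τ • (Φ (p₀ + h₃) - Φ p₀ - T h₃)‖ ≤ C * B ^ 2 * ε ^ 2 := by
    rw [norm_smul, Real.norm_of_nonneg hτ0]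
    exact (mul_le_of_le_one_left (norm_nonneg _) hτ1).trans k₃
  have e9 : ‖(1 - τ) • (Φ (p₀ + h₂) - Φ p₀ - T h₂)‖ ≤ C * B ^ 2 * ε ^ 2 := by
    rw [norm_smul, Real.norm_of_nonneg (by linarith)]
    exact (mul_le_of_le_one_left (norm_nonneg _) (by linarith)).trans k₂
  have e10 : ‖((1 - τ) * (ε * sq ζ)) • T ((1 : ℂ), (0 : Fin n → ℂ))‖
      = (1 - τ) * ε * sq ζ * ‖gx (star' P) m (cj ζ)‖ := by
    rw [norm_smul, e7, Real.norm_of_nonneg (mul_nonneg (by linarith) (by positivity))]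
    ring
  have e11 := norm_sub_le ((Φ (p₀ + h₁) - Φ p₀ - T h₁)
      - τ • (Φ (p₀ + h₃) - Φ p₀ - T h₃) - (1 - τ) • (Φ (p₀ + h₂) - Φ p₀ - T h₂))
      (((1 - τ) * (ε * sq ζ)) • T ((1 : ℂ), (0 : Fin n → ℂ)))
  have e12 := norm_sub_le ((Φ (p₀ + h₁) - Φ p₀ - T h₁)
      - τ • (Φ (p₀ + h₃) - Φ p₀ - T h₃)) ((1 - τ) • (Φ (p₀ + h₂) - Φ p₀ - T h₂))
  have e13 := norm_sub_le (Φ (p₀ + h₁) - Φ p₀ - T h₁) (τ • (Φ (p₀ + h₃) - Φ p₀ - T h₃))
  rw [e10] at e11
  linarith

/-- In the inner region the coefficients `a_L` are explicit. -/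
lemma aL_inner {κ : (Fin n → ℂ) × ℝ → ℂ} (hκ : Van κ) {η : ℝ}
    (hinn : ∀ x : (Fin n → ℂ) × ℝ, sq x.1 ≤ η → κ x = 0) (L : List (Fin n)) :
    ∀ x : (Fin n → ℂ) × ℝ, sq x.1 < η → aL (psi P m κ) L x
      = (th L.length x.2 : ℂ) * (L.map fun j => (starRingEnd ℂ) (x.1 j)).prod := by
  have hop : IsOpen {x : (Fin n → ℂ) × ℝ | sq x.1 < η} :=
    isOpen_lt (contDiff_sq.continuous.comp continuous_fst) continuous_const
  induction L with
  | nil => intro x _; simp [aL, th]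
  | cons j L ih =>
    intro x hx
    have h1 : aL (psi P m κ) L =ᶠ[nhds x] fun x =>
        (th L.length x.2 : ℂ) * (L.map fun j => (starRingEnd ℂ) (x.1 j)).prod := by
      filter_upwards [hop.mem_nhds hx] with y hy using ih y hy
    have h2 : W j (aL (psi P m κ) L) x = 0 := by
      rw [W_congr h1]
      have h3 : DifferentiableAt ℝ (fun x : (Fin n → ℂ) × ℝ => (th L.length x.2 : ℂ)) x := by
        have : ContDiff ℝ ∞ (fun x : (Fin n → ℂ) × ℝ => (th L.length x.2 : ℂ)) :=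
          Complex.ofRealCLM.contDiff.comp ((contDiff_th _).comp contDiff_snd)
        exact this.differentiable (by simp) x
      -- the product is antiholomorphic
      have h4 : DifferentiableAt ℝ (fun x : (Fin n → ℂ) × ℝ => (L.map fun j => x.1 j).prod) x ∧
          ∃ A : (Fin n → ℂ) →L[ℂ] ℂ,
            HasFDerivAt (fun ζ : Fin n → ℂ => (L.map fun j => ζ j).prod) A x.1 := by
        clear h1 ih
        induction L with
        | nil => exact ⟨by simp, 0, by simpa using hasFDerivAt_const (1 : ℂ) x.1⟩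
        | cons i L ih =>
          have h3' : DifferentiableAt ℝ (fun x : (Fin n → ℂ) × ℝ => (th L.length x.2 : ℂ)) x := by
            have : ContDiff ℝ ∞ (fun x : (Fin n → ℂ) × ℝ => (th L.length x.2 : ℂ)) :=
              Complex.ofRealCLM.contDiff.comp ((contDiff_th _).comp contDiff_snd)
            exact this.differentiable (by simp) x
          obtain ⟨g1, A, g2⟩ := ih h3'
          have g3 : DifferentiableAt ℝ (fun x : (Fin n → ℂ) × ℝ => x.1 i) x := by fun_prop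
          have g4 : HasFDerivAt (fun ζ : Fin n → ℂ => ζ i)
              (ContinuousLinearMap.proj i : (Fin n → ℂ) →L[ℂ] ℂ) x.1 :=
            (ContinuousLinearMap.proj i : (Fin n → ℂ) →L[ℂ] ℂ).hasFDerivAt
          refine ⟨?_, x.1 i • A + (L.map fun j => x.1 j).prod •
              (ContinuousLinearMap.proj i : (Fin n → ℂ) →L[ℂ] ℂ), ?_⟩
          · simp only [List.map_cons, List.prod_cons]
            exact g3.fun_mul g1
          · simp only [List.map_cons, List.prod_cons]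
            exact g4.mul g2
      obtain ⟨h5, A, h6⟩ := h4
      have h7 : (fun x : (Fin n → ℂ) × ℝ => (L.map fun j => (starRingEnd ℂ) (x.1 j)).prod)
          = fun x => (starRingEnd ℂ) ((L.map fun j => x.1 j).prod) := by
        funext y
        rw [map_list_prod, List.map_map]
        rfl
      have h8 : DifferentiableAt ℝ
          (fun x : (Fin n → ℂ) × ℝ => (L.map fun j => (starRingEnd ℂ) (x.1 j)).prod) x := by
        rw [h7]
        exact (Complex.conjCLE : ℂ →L[ℝ] ℂ).differentiableAt.comp x h5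
      have h9 : W j (fun x : (Fin n → ℂ) × ℝ => (L.map fun j => (starRingEnd ℂ) (x.1 j)).prod) x
          = 0 := by
        rw [h7]
        exact (W_hol (b := fun x : (Fin n → ℂ) × ℝ => (L.map fun j => x.1 j).prod)
          (ζ := x.1) (ε := x.2) h5 h6 j).2
      have h10 : DifferentiableAt ℝ (fun ε : ℝ => (th L.length ε : ℂ)) x.2 := by
        have : ContDiff ℝ ∞ (fun ε : ℝ => (th L.length ε : ℂ)) :=
          Complex.ofRealCLM.contDiff.comp (contDiff_th _)
        exact this.differentiable (by simp) x.2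
      rw [W_mul h3 h8, h9, W_snd (fun ε => (th L.length ε : ℂ)) h10]
      ring
    have h11 : W j (fun y => ((psi P m κ y : ℝ) : ℂ)) x = (starRingEnd ℂ) (x.1 j) := by
      have hz : κ =ᶠ[nhds x] fun _ => 0 := by
        filter_upwards [hop.mem_nhds hx] with y hy using hinn y (le_of_lt hy)
      have hz' : (fun y => (starRingEnd ℂ) (κ y)) =ᶠ[nhds x] fun _ => 0 := by
        filter_upwards [hz] with y hy
        rw [hy, map_zero]
      rw [W_psi hκ j x, W_congr hz, W_congr hz', W_snd (fun _ => (0 : ℂ)) (differentiableAt_const _),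
        hz.self_of_nhds]
      ring
    change (1 - L.length * (x.2 : ℂ) ^ 2) * W j (fun y => ((psi P m κ y : ℝ) : ℂ)) x
      * aL (psi P m κ) L x
      - (x.2 : ℂ) ^ 2 * ((1 - psi P m κ x : ℝ) : ℂ) * W j (aL (psi P m κ) L) x = _
    rw [h2, h11, ih x hx, List.length_cons, th_succ, List.map_cons, List.prod_cons]
    push_cast
    ring

/-- The inner region. -/
lemma MM_inner (hP : P.totalDegree ≤ m) (hm : 1 ≤ m) :
    ∃ C : ℝ, 0 ≤ C ∧ ∀ (κ : (Fin n → ℂ) × ℝ → ℂ), Van κ → ∀ η : ℝ, 0 < η → η ≤ 1 →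
      (∀ x : (Fin n → ℂ) × ℝ, sq x.1 ≤ η → κ x = 0) →
      ∀ (ζ : Fin n → ℂ) (ε r : ℝ), sq ζ < η → 0 < ε → ε ≤ 1 → 0 < r → r ^ 2 = sq ζ + ε ^ 2 →
        ‖MM P m (psi P m κ) (ζ, ε) - (starRingEnd ℂ) (hp P m ε ζ)‖
          ≤ C * (η + ε) * (ε * r ^ (m - 1)) := by
  choose B hB hth using th_bound
  refine ⟨∑ s ∈ P.support, ‖P.coeff s‖ * (2 * B s.degree + m * B s.degree + B s.degree),
    Finset.sum_nonneg fun s _ => ?_, fun κ hκ η hη hη1 hinn ζ ε r hζ hε hε1 hr hr2 => ?_⟩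
  · have := hB s.degree; positivity
  have habs : |ε| ≤ 1 := by rw [abs_of_pos hε]; exact hε1
  have ha0 := sq_nonneg' ζ
  have hψ : psi P m κ (ζ, ε) = sq ζ := by
    unfold psi
    rw [hinn (ζ, ε) hζ.le]
    simp
  have hεr : ε ≤ r := by nlinarith
  have hζr : ∀ i, ‖ζ i‖ ≤ r := by
    intro i
    have h14 : ‖ζ i‖ ^ 2 ≤ sq ζ :=
      Finset.single_le_sum (f := fun j => ‖ζ j‖ ^ 2) (fun j _ => by positivity)
        (Finset.mem_univ i)
    nlinarith [norm_nonneg (ζ i), sq_nonneg ε]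
  have hr2' : r ≤ 2 := by nlinarith
  have h1 : MM P m (psi P m κ) (ζ, ε) - (starRingEnd ℂ) (hp P m ε ζ)
      = ∑ s ∈ P.support, (starRingEnd ℂ) (P.coeff s) * ((ε : ℂ) ^ (m - s.degree)
        * (∏ i, (starRingEnd ℂ) (ζ i) ^ s i)
        * (((1 - sq ζ) ^ (m - s.degree) * th s.degree ε - 1 : ℝ) : ℂ)) := by
    unfold MM hp
    rw [map_sum, ← Finset.sum_sub_distrib]
    refine Finset.sum_congr rfl fun s _ => ?_
    rw [aL_inner hκ hinn (ls s) (ζ, ε) hζ, length_ls, list_prod_ls, hψ, map_mul, map_mul, map_pow,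
      map_prod, Complex.conj_ofReal]
    simp only [map_pow]
    rw [Complex.ofReal_mul, mul_pow]
    push_cast
    ring
  rw [h1, Finset.sum_mul, Finset.sum_mul]
  refine (norm_sum_le _ _).trans (Finset.sum_le_sum fun s hs => ?_)
  have hd : s.degree ≤ m := (MvPolynomial.le_totalDegree hs).trans hP
  have hBs := hB s.degree
  obtain ⟨t1, t2⟩ := hth s.degree ε habs
  rw [norm_mul, RCLike.norm_conj, norm_mul, norm_mul, norm_pow, Complex.norm_real,
    Real.norm_of_nonneg hε.le, Complex.norm_real, Real.norm_eq_abs, norm_prod]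
  have h2 : ∏ i, ‖(starRingEnd ℂ) (ζ i) ^ s i‖ ≤ r ^ s.degree := by
    calc ∏ i, ‖(starRingEnd ℂ) (ζ i) ^ s i‖ ≤ ∏ i, r ^ s i := by
          refine Finset.prod_le_prod (fun i _ => norm_nonneg _) fun i _ => ?_
          rw [norm_pow, RCLike.norm_conj]
          exact pow_le_pow_left₀ (norm_nonneg _) (hζr i) _
      _ = r ^ s.degree := by
          rw [Finset.prod_pow_eq_pow_sum, Finsupp.degree_eq_sum]
  have h2' : 0 ≤ ∏ i, ‖(starRingEnd ℂ) (ζ i) ^ s i‖ :=
    Finset.prod_nonneg fun i _ => norm_nonneg _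
  have hm0 : (0 : ℝ) ≤ m := Nat.cast_nonneg m
  have main : ε ^ (m - s.degree) * (∏ i, ‖(starRingEnd ℂ) (ζ i) ^ s i‖)
      * |(1 - sq ζ) ^ (m - s.degree) * th s.degree ε - 1|
      ≤ (2 * B s.degree + m * B s.degree + B s.degree) * (η + ε) * (ε * r ^ (m - 1)) := by
    have hq : ε ^ 2 ≤ ε := by nlinarith
    rcases hd.eq_or_lt with h | h
    · subst h
      rw [Nat.sub_self, pow_zero, pow_zero, one_mul, one_mul]
      have h3 : r ^ s.degree = r * r ^ (s.degree - 1) := by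
        rw [← pow_succ']; congr 1; omega
      calc _ ≤ r ^ s.degree * (B s.degree * ε ^ 2) :=
            mul_le_mul h2 t1 (abs_nonneg _) (by positivity)
        _ = (r * B s.degree * ε) * (ε * r ^ (s.degree - 1)) := by rw [h3]; ring
        _ ≤ _ := by
            apply mul_le_mul_of_nonneg_right _ (by positivity)
            have h4 : r * B s.degree * ε ≤ 2 * B s.degree * (η + ε) := by
              have : r * B s.degree ≤ 2 * B s.degree := mul_le_mul_of_nonneg_right hr2' hBs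
              calc r * B s.degree * ε ≤ 2 * B s.degree * ε :=
                    mul_le_mul_of_nonneg_right this hε.le
                _ ≤ _ := by
                    apply mul_le_mul_of_nonneg_left _ (by positivity)
                    linarith
            have h5 : 0 ≤ (s.degree * B s.degree + B s.degree) * (η + ε) := by positivity
            linarith
    · have h3 : ε ^ (m - s.degree) * r ^ s.degree ≤ ε * r ^ (m - 1) := by
        have h4 : ε ^ (m - s.degree) = ε * ε ^ (m - s.degree - 1) := by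
          rw [← pow_succ']; congr 1; omega
        have h5 : r ^ (m - 1) = r ^ (m - s.degree - 1) * r ^ s.degree := by
          rw [← pow_add]; congr 1; omega
        rw [h4, h5, mul_assoc]
        apply mul_le_mul_of_nonneg_left _ hε.le
        exact mul_le_mul_of_nonneg_right (pow_le_pow_left₀ hε.le hεr _) (by positivity)
      have h6 : |(1 - sq ζ) ^ (m - s.degree) * th s.degree ε - 1|
          ≤ (m * B s.degree + B s.degree) * (η + ε) := by
        have h7 : |(1 - sq ζ) ^ (m - s.degree) - 1| ≤ m * η := by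
          have h8 : 0 ≤ 1 - sq ζ := by linarith
          have h9 : (1 - sq ζ) ^ (m - s.degree) ≤ 1 := pow_le_one₀ h8 (by linarith)
          have h10 : 1 + ((m - s.degree : ℕ) : ℝ) * (-sq ζ) ≤ (1 + -sq ζ) ^ (m - s.degree) :=
            one_add_mul_le_pow (by linarith) _
          rw [abs_of_nonpos (by linarith)]
          have h11 : ((m - s.degree : ℕ) : ℝ) ≤ m := by exact_mod_cast Nat.sub_le _ _
          have h12 : ((m - s.degree : ℕ) : ℝ) * sq ζ ≤ m * η :=
            mul_le_mul h11 hζ.le ha0 hm0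
          have h13 : (1 + -sq ζ) ^ (m - s.degree) = (1 - sq ζ) ^ (m - s.degree) := by
            rw [← sub_eq_add_neg]
          rw [h13] at h10
          linarith
        have h8 : (1 - sq ζ) ^ (m - s.degree) * th s.degree ε - 1
            = ((1 - sq ζ) ^ (m - s.degree) - 1) * th s.degree ε + (th s.degree ε - 1) := by ring
        rw [h8]
        refine (abs_add_le _ _).trans ?_
        rw [abs_mul]
        have h9 : |(1 - sq ζ) ^ (m - s.degree) - 1| * |th s.degree ε| ≤ (m * η) * B s.degree :=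
          mul_le_mul h7 t2 (abs_nonneg _) (by positivity)
        have h10 : B s.degree * ε ^ 2 ≤ B s.degree * ε := mul_le_mul_of_nonneg_left hq hBs
        have h11 : 0 ≤ m * B s.degree * ε := by positivity
        have h12 : 0 ≤ B s.degree * η := by positivity
        linarith
      calc _ ≤ (ε ^ (m - s.degree) * r ^ s.degree) * ((m * B s.degree + B s.degree) * (η + ε)) :=
            mul_le_mul (mul_le_mul_of_nonneg_left h2 (by positivity)) h6 (abs_nonneg _)
              (by positivity)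
        _ ≤ (ε * r ^ (m - 1)) * ((m * B s.degree + B s.degree) * (η + ε)) :=
            mul_le_mul_of_nonneg_right h3 (by positivity)
        _ ≤ _ := by
            have h7 : 0 ≤ 2 * B s.degree * (η + ε) * (ε * r ^ (m - 1)) := by positivity
            linarith
  calc _ ≤ ‖P.coeff s‖ * ((2 * B s.degree + m * B s.degree + B s.degree) * (η + ε)
        * (ε * r ^ (m - 1))) := mul_le_mul_of_nonneg_left main (norm_nonneg _)
    _ = _ := by ring

end Pool.Agent.H60.FB
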