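import Pool.Agent.H60.FB.Hp
import Pool.Agent.H60.FB.Ident

/-!
Smooth functions of `(ζ, ε)` that vanish for `ε = 0` are small, with all derivatives.
-/

open MvPolynomial MeasureTheory Pool.Agent.H77.FB
open scoped ContDiff

namespace Pool.Agent.H60.FB

section Gen

variable {V U : Type*} [NormedAddCommGroup V] [NormedSpace ℝ V] [FiniteDimensional ℝ V]
  [NormedAddCommGroup U] [NormedSpace ℝ U]

/-- A `C^1` function is Lipschitz on balls. -/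
lemma lip_ball {f : V → U} (hf : ContDiff ℝ 1 f) (R : ℝ) :
    ∃ C : ℝ, 0 ≤ C ∧ ∀ x y, ‖x‖ ≤ R → ‖y‖ ≤ R → ‖f x - f y‖ ≤ C * ‖x - y‖ := by
  have : ProperSpace V := FiniteDimensional.proper ℝ V
  obtain ⟨C, hC⟩ := (isCompact_closedBall (0 : V) R).exists_bound_of_continuousOn
    (hf.continuous_fderiv (by simp)).continuousOn
  refine ⟨max C 0, le_max_right _ _, fun x y hx hy => ?_⟩
  have h1 := (convex_closedBall (0 : V) R).norm_image_sub_le_of_norm_fderiv_le (𝕜 := ℝ)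
    (fun z _ => (hf.differentiable (by simp)) z)
    (fun z hz => (hC z hz).trans (le_max_left C 0))
    (mem_closedBall_zero_iff.2 hy) (mem_closedBall_zero_iff.2 hx)
  exact h1

/-- Second order Taylor estimate on balls. -/
lemma taylor_of_lip {f : V → U} (hf : Differentiable ℝ f) {R C : ℝ}
    (hC : ∀ x y, ‖x‖ ≤ R → ‖y‖ ≤ R → ‖fderiv ℝ f x - fderiv ℝ f y‖ ≤ C * ‖x - y‖)
    {x h : V} (hx : ‖x‖ ≤ R) (hh : ‖x + h‖ ≤ R) :
    ‖f (x + h) - f x - fderiv ℝ f x h‖ ≤ C * ‖h‖ ^ 2 := by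
  have hC0 : 0 ≤ C * ‖h‖ := by
    have := hC (x + h) x hh hx
    rw [add_sub_cancel_left] at this
    exact (norm_nonneg _).trans this
  have h1 : ∀ z ∈ segment ℝ x (x + h), ‖z‖ ≤ R ∧ ‖z - x‖ ≤ ‖h‖ := by
    intro z hz
    have h2 : z ∈ Metric.closedBall (0 : V) R :=
      (convex_closedBall (0 : V) R).segment_subset (mem_closedBall_zero_iff.2 hx)
        (mem_closedBall_zero_iff.2 hh) hz
    refine ⟨mem_closedBall_zero_iff.1 h2, ?_⟩
    rw [segment_eq_image'] at hz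
    obtain ⟨t, ht, rfl⟩ := hz
    rw [add_sub_cancel_left, add_sub_cancel_left, norm_smul, Real.norm_of_nonneg ht.1]
    exact mul_le_of_le_one_left (norm_nonneg _) ht.2
  have h3 := (convex_segment x (x + h)).norm_image_sub_le_of_norm_fderiv_le (𝕜 := ℝ)
    (f := fun z => f z - fderiv ℝ f x z) (C := C * ‖h‖)
    (fun z _ => (hf z).sub (fderiv ℝ f x).differentiableAt) (fun z hz => by
      have h4 : fderiv ℝ (fun z => f z - fderiv ℝ f x z) z = fderiv ℝ f z - fderiv ℝ f x :=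
        ((hf z).hasFDerivAt.sub (fderiv ℝ f x).hasFDerivAt).fderiv
      rw [h4]
      have h5 := hC z x (h1 z hz).1 hx
      rcases eq_or_ne h 0 with h0 | h0
      · subst h0
        have : z = x := by
          have := (h1 z hz).2
          rw [norm_zero] at this
          exact sub_eq_zero.1 (norm_le_zero_iff.1 this)
        subst this
        simp
      · have hC' : 0 ≤ C := nonneg_of_mul_nonneg_left hC0 (norm_pos_iff.2 h0)
        exact h5.trans (mul_le_mul_of_nonneg_left (h1 z hz).2 hC'))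
    (left_mem_segment ℝ x (x + h)) (right_mem_segment ℝ x (x + h))
  have h6 : f (x + h) - fderiv ℝ f x (x + h) - (f x - fderiv ℝ f x x)
      = f (x + h) - f x - fderiv ℝ f x h := by
    rw [map_add]; abel
  rw [h6, add_sub_cancel_left] at h3
  calc _ ≤ C * ‖h‖ * ‖h‖ := h3
    _ = _ := by ring

lemma taylor_ball {f : V → U} (hf : ContDiff ℝ 2 f) (R : ℝ) :
    ∃ C : ℝ, 0 ≤ C ∧ ∀ x h, ‖x‖ ≤ R → ‖x + h‖ ≤ R →
      ‖f (x + h) - f x - fderiv ℝ f x h‖ ≤ C * ‖h‖ ^ 2 := by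
  have h1 : ContDiff ℝ 1 (fderiv ℝ f) := hf.fderiv_right (by norm_num)
  obtain ⟨C, hC0, hC⟩ := lip_ball h1 R
  exact ⟨C, hC0, fun x h hx hh => taylor_of_lip (hf.differentiable (by simp)) hC hx hh⟩

end Gen

variable {n : ℕ} {U : Type*} [NormedAddCommGroup U] [NormedSpace ℝ U]

/-- Smooth functions of `(ζ, ε)` vanishing for `ε = 0`. -/
structure Van (f : (Fin n → ℂ) × ℝ → U) : Prop where
  smooth : ContDiff ℝ ∞ f
  zero : ∀ ζ, f (ζ, 0) = 0

/-- The derivative in `ζ`. -/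
noncomputable def dz (f : (Fin n → ℂ) × ℝ → U) (x : (Fin n → ℂ) × ℝ) : (Fin n → ℂ) →L[ℝ] U :=
  (fderiv ℝ f x).comp (ContinuousLinearMap.inl ℝ (Fin n → ℂ) ℝ)

lemma dz_hasFDerivAt {f : (Fin n → ℂ) × ℝ → U} {ζ : Fin n → ℂ} {ε : ℝ}
    (hf : DifferentiableAt ℝ f (ζ, ε)) :
    HasFDerivAt (fun ζ => f (ζ, ε)) (dz f (ζ, ε)) ζ :=
  hf.hasFDerivAt.comp ζ (hasFDerivAt_prodMk_left ζ ε)

lemma contDiff_dz {f : (Fin n → ℂ) × ℝ → U} (hf : ContDiff ℝ ∞ f) : ContDiff ℝ ∞ (dz f) :=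
  (hf.fderiv_right (m := ∞) (by simp)).clm_comp contDiff_const

lemma Van.dz {f : (Fin n → ℂ) × ℝ → U} (hf : Van f) : Van (dz f) := by
  refine ⟨contDiff_dz hf.smooth, fun ζ => ?_⟩
  have h1 := dz_hasFDerivAt (ε := 0) (hf.smooth.differentiable (by simp) (ζ, 0))
  have h2 : (fun ζ => f (ζ, 0)) = fun _ => (0 : U) := funext hf.zero
  rw [h2] at h1
  exact h1.unique (hasFDerivAt_const 0 ζ)

lemma norm_le_of_sq {ζ : Fin n → ℂ} {R : ℝ} (h : sq ζ ≤ R) : ‖ζ‖ ≤ R + 1 := by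
  have hR : 0 ≤ R := le_trans (Finset.sum_nonneg fun j _ => by positivity) h
  refine (pi_norm_le_iff_of_nonneg (by linarith)).2 fun j => ?_
  have h1 : ‖ζ j‖ ^ 2 ≤ R :=
    le_trans (Finset.single_le_sum (f := fun j => ‖ζ j‖ ^ 2) (fun j _ => by positivity)
      (Finset.mem_univ j)) h
  nlinarith [sq_nonneg (‖ζ j‖ - 1)]

lemma Van.bound {f : (Fin n → ℂ) × ℝ → U} (hf : Van f) (R : ℝ) :
    ∃ C : ℝ, 0 ≤ C ∧ ∀ (ζ : Fin n → ℂ) (ε : ℝ), ‖ζ‖ ≤ R → |ε| ≤ 1 → ‖f (ζ, ε)‖ ≤ C * |ε| := by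
  obtain ⟨C, hC0, hC⟩ := lip_ball (hf.smooth.of_le (m := 1) (by exact_mod_cast le_top)) (max R 1)
  refine ⟨C, hC0, fun ζ ε hζ hε => ?_⟩
  have h1 := hC (ζ, ε) (ζ, 0)
    (norm_prod_le_iff.2 ⟨hζ.trans (le_max_left _ _), hε.trans (le_max_right _ _)⟩)
    (norm_prod_le_iff.2 ⟨hζ.trans (le_max_left _ _), by simp⟩)
  rw [hf.zero, sub_zero, Prod.mk_sub_mk, sub_self, sub_zero] at h1
  have h2 : ‖((0 : Fin n → ℂ), ε)‖ = |ε| := by
    rw [Prod.norm_mk, norm_zero, Real.norm_eq_abs]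
    exact max_eq_right (abs_nonneg ε)
  rwa [h2] at h1

/-- The second order Taylor estimate in `ζ`, with a small constant. -/
lemma Van.taylor {f : (Fin n → ℂ) × ℝ → U} (hf : Van f) (R : ℝ) :
    ∃ C : ℝ, 0 ≤ C ∧ ∀ (ζ w : Fin n → ℂ) (ε : ℝ), ‖ζ‖ ≤ R → ‖ζ + w‖ ≤ R → |ε| ≤ 1 →
      ‖f (ζ + w, ε) - f (ζ, ε) - FB.dz f (ζ, ε) w‖ ≤ C * |ε| * ‖w‖ ^ 2 := by
  obtain ⟨C, hC0, hC⟩ := hf.dz.dz.bound R
  refine ⟨C, hC0, fun ζ w ε hζ hw hε => ?_⟩
  have hd : Differentiable ℝ (fun ζ => f (ζ, ε)) := fun ζ =>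
    (dz_hasFDerivAt (hf.smooth.differentiable (by simp) (ζ, ε))).differentiableAt
  have h1 : ∀ ζ, fderiv ℝ (fun ζ => f (ζ, ε)) ζ = FB.dz f (ζ, ε) := fun ζ =>
    (dz_hasFDerivAt (hf.smooth.differentiable (by simp) (ζ, ε))).fderiv
  have h2 := taylor_of_lip hd (R := R) (C := C * |ε|) (fun x y hx hy => by
    rw [h1, h1]
    exact (convex_closedBall (0 : Fin n → ℂ) R).norm_image_sub_le_of_norm_hasFDerivWithin_le
      (𝕜 := ℝ) (f := fun ζ => FB.dz f (ζ, ε)) (f' := fun ζ => FB.dz (FB.dz f) (ζ, ε))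
      (fun z _ => (dz_hasFDerivAt
        (hf.dz.smooth.differentiable (by simp) (z, ε))).hasFDerivWithinAt)
      (fun z hz => hC z ε (mem_closedBall_zero_iff.1 hz) hε)
      (mem_closedBall_zero_iff.2 hy) (mem_closedBall_zero_iff.2 hx)) hζ hw
  rw [h1] at h2
  exact h2

end Pool.Agent.H60.FB
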