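import Pool.Agent.H60.FB.Reg2

/-!
The pointwise estimate for the multiplier.
-/

open MvPolynomial MeasureTheory Pool.Agent.H77.FB
open scoped ContDiff

namespace Pool.Agent.H60.FB

variable {n : ℕ} {P : MvPolynomial (Fin n) ℂ} {m : ℕ}

lemma GG_lower (hm : 1 ≤ m) {c : ℝ}
    (hcl : ∀ (ζ : Fin n → ℂ) (ε : ℝ), 0 < ε →
      c * (sq ζ + ε ^ 2) ^ (m - 1) ≤ (∑ j, ‖gr P m ε ζ j‖ ^ 2) + (ε ^ 2) ^ (m - 1))
    {ζ : Fin n → ℂ} {ε g r : ℝ} (hε : 0 < ε) (hg : 1 / 2 ≤ g) (hr2 : r ^ 2 = sq ζ + ε ^ 2) :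
    c / 4 ^ m * (ε * r ^ (m - 1)) ^ 2 ≤ GG P m ε g ζ := by
  have h1 : (ε ^ 2) / 4 ≤ (g * ε) ^ 2 := by
    rw [mul_pow]
    nlinarith [sq_nonneg ε, sq_nonneg (g - 1 / 2)]
  have h2 : (1 / 4 : ℝ) ^ m ≤ 1 / 4 := by
    calc (1 / 4 : ℝ) ^ m ≤ (1 / 4) ^ 1 := pow_le_pow_of_le_one (by norm_num) (by norm_num) hm
      _ = 1 / 4 := pow_one _
  have hS : 0 ≤ ∑ j, ‖gr P m ε ζ j‖ ^ 2 := Finset.sum_nonneg fun j _ => by positivity
  have h3 : (1 / 4 : ℝ) ^ m * ε ^ 2 * ∑ j, ‖gr P m ε ζ j‖ ^ 2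
      ≤ (g * ε) ^ 2 * ∑ j, ‖gr P m ε ζ j‖ ^ 2 := by
    apply mul_le_mul_of_nonneg_right _ hS
    nlinarith [sq_nonneg ε]
  have h4 : (1 / 4 : ℝ) ^ m * ε ^ 2 * (ε ^ 2) ^ (m - 1) ≤ (g * ε) ^ (2 * m) := by
    have h5 : (ε ^ 2) ^ m = ε ^ 2 * (ε ^ 2) ^ (m - 1) := by
      rw [← pow_succ']; congr 1; omega
    rw [mul_assoc, ← h5, ← mul_pow, pow_mul]
    exact pow_le_pow_left₀ (by positivity) (by linarith) m
  have h6 := hcl ζ ε hε
  have h7 : c / 4 ^ m * (ε * r ^ (m - 1)) ^ 2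
      = (1 / 4 : ℝ) ^ m * ε ^ 2 * (c * (sq ζ + ε ^ 2) ^ (m - 1)) := by
    rw [← hr2, ← pow_mul, mul_pow, ← pow_mul, mul_comm 2 (m - 1), one_div, inv_pow]
    ring
  rw [h7]
  unfold GG
  calc _ ≤ (1 / 4 : ℝ) ^ m * ε ^ 2 * ((∑ j, ‖gr P m ε ζ j‖ ^ 2) + (ε ^ 2) ^ (m - 1)) :=
        mul_le_mul_of_nonneg_left h6 (by positivity)
    _ = (1 / 4 : ℝ) ^ m * ε ^ 2 * (∑ j, ‖gr P m ε ζ j‖ ^ 2)
        + (1 / 4 : ℝ) ^ m * ε ^ 2 * (ε ^ 2) ^ (m - 1) := by ring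
    _ ≤ _ := add_le_add h3 h4

lemma le_of_le_sq {a r : ℝ} (ha : a ≤ 1) (hr : 0 < r) (h : a ≤ r ^ 2) : a ≤ r := by
  by_contra hcon
  push Not at hcon
  nlinarith

theorem weight_of (hP : P.totalDegree ≤ m) (hm : 1 ≤ m) (hns : Nonsing P m)
    (hk : ∀ η : ℝ, 0 < η → η ≤ 1 → ∃ (κ : (Fin n → ℂ) × ℝ → ℂ) (ε₀ C : ℝ), 0 < ε₀ ∧
      KD P m η ε₀ C κ) :
    ∃ L : ℝ, ∀ δ > (0 : ℝ), ∃ ψ : (Fin n → ℂ) × ℝ → ℝ, ContDiff ℝ ∞ ψ ∧
      ∃ ε₁ > (0 : ℝ), ∀ ε : ℝ, 0 < ε → ε ≤ ε₁ →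
        IsW L (fun ζ => ψ (ζ, ε)) (fun ζ j => W j (fun y => (ψ y : ℂ)) (ζ, ε)) ∧
        ∀ ζ, ψ (ζ, ε) < 1 →
          1 / 2 * ‖hp P m ε ζ‖ ^ 2 - δ * GG P m ε (1 - ψ (ζ, ε)) ζ
            ≤ (hp P m ε ζ * MM P m ψ (ζ, ε)).re := by
  obtain ⟨Cθ, hCθ, hθ⟩ := th_bound m
  obtain ⟨c, hc0, hcl⟩ := hom_lower hP hm hns
  obtain ⟨Cg, hCg, hg⟩ := gx_bound (P := star' P) (m := m) (by rw [totalDegree_star]; exact hP) hm
  obtain ⟨Ci, hCi, hi⟩ := MM_inner hP hm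
  refine ⟨n + 3, fun δ hδ => ?_⟩
  set K : ℝ := min 1 (δ * (c / 4 ^ m)) with hK
  have hK0 : 0 < K := by positivity
  have hK1 : K ≤ 1 := min_le_left _ _
  have hK2 : K ^ 2 ≤ δ * (c / 4 ^ m) := by
    have : K ≤ δ * (c / 4 ^ m) := min_le_right _ _
    nlinarith
  set η : ℝ := min (1 / 4) (K / (4 * (Ci + Cθ * Cg + 1))) with hη
  have hden : 0 < 4 * (Ci + Cθ * Cg + 1) := by positivity
  have hη0 : 0 < η := by positivity
  have hη4 : η ≤ 1 / 4 := min_le_left _ _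
  have hηK : (Ci + Cθ * Cg) * η ≤ K / 4 := by
    have h1 : η ≤ K / (4 * (Ci + Cθ * Cg + 1)) := min_le_right _ _
    rw [le_div_iff₀ hden] at h1
    have : 0 ≤ Cθ * Cg := by positivity
    nlinarith
  obtain ⟨κ, ε₀, Cy, hε₀, hKD⟩ := hk η hη0 (by linarith)
  obtain ⟨ε₁, hε₁, hW⟩ := isW_psi (P := P) (m := m) hKD.van hKD.out
  obtain ⟨Cn, hCn, ε₂, hε₂, hnear⟩ := MM_near hP hKD.van hKD.out hCθ hθ
  obtain ⟨Cm, hCm, hmid⟩ := mid_taylor P m Cy
  obtain ⟨cs, hcs, ε₃, hε₃, hsh⟩ := shell_lower (P := P) (m := m) hns hη0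
  have hd := contDiff_psi (P := P) (m := m) hKD.van
  set s : ℝ := min 1 (δ * cs) with hs
  have hs0 : 0 < s := by positivity
  have hs2 : s ^ 2 ≤ δ * cs := by
    have h1 : s ≤ δ * cs := min_le_right _ _
    have h2 : s ≤ 1 := min_le_left _ _
    nlinarith
  set rη : ℝ := (η / 2) ^ (m - 1) with hrη
  have hrη0 : 0 < rη := by positivity
  set B : ℝ := Cn + Ci + (2 * Cn + Cθ * Cm) + 1 with hB
  have hB0 : 0 < B := by positivity
  set t : ℝ := min (1 / 4) (min s (min (K / 4) (K / 2 * rη))) with ht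
  have ht0 : 0 < t := by positivity
  refine ⟨psi P m κ, hd, min (min (min ε₀ ε₁) (min ε₂ ε₃)) (min 1 (t / B)), by positivity,
    fun ε hε hεm => ?_⟩
  have h0 : ε ≤ ε₀ := hεm.trans ((min_le_left _ _).trans ((min_le_left _ _).trans
    (min_le_left _ _)))
  have h1 : ε ≤ ε₁ := hεm.trans ((min_le_left _ _).trans ((min_le_left _ _).trans
    (min_le_right _ _)))
  have h2 : ε ≤ ε₂ := hεm.trans ((min_le_left _ _).trans ((min_le_right _ _).trans
    (min_le_left _ _)))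
  have h3 : ε ≤ ε₃ := hεm.trans ((min_le_left _ _).trans ((min_le_right _ _).trans
    (min_le_right _ _)))
  have h4 : ε ≤ 1 := hεm.trans ((min_le_right _ _).trans (min_le_left _ _))
  have h5 : B * ε ≤ t := by
    have : ε ≤ t / B := hεm.trans ((min_le_right _ _).trans (min_le_right _ _))
    rw [le_div_iff₀ hB0] at this
    linarith
  have ht1 : t ≤ 1 / 4 := min_le_left _ _
  have ht2 : t ≤ s := (min_le_right _ _).trans (min_le_left _ _)
  have ht3 : t ≤ K / 4 := (min_le_right _ _).trans ((min_le_right _ _).trans (min_le_left _ _))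
  have ht4 : t ≤ K / 2 * rη :=
    (min_le_right _ _).trans ((min_le_right _ _).trans (min_le_right _ _))
  have hCθm : 0 ≤ Cθ * Cm := by positivity
  have b1 : Cn * ε ≤ t := by nlinarith
  have b2 : Ci * ε ≤ t := by nlinarith
  have b3 : (2 * Cn + Cθ * Cm) * ε ≤ t := by nlinarith
  have hw := hW ε hε h1
  refine ⟨hw, fun ζ hζ => ?_⟩
  have habs : |ε| ≤ ε₀ := by rw [abs_of_pos hε]; exact h0
  have habs3 : |ε| ≤ ε₃ := by rw [abs_of_pos hε]; exact h3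
  have hsq2 : sq ζ ≤ 2 := hw.bdd ζ hζ
  have hlow : -1 ≤ psi P m κ (ζ, ε) := hw.lower ζ
  set g := 1 - psi P m κ (ζ, ε) with hgdef
  have hg0 : 0 < g := by linarith
  have hg2 : g ≤ 2 := by linarith
  have hs0' := sq_nonneg' ζ
  set r : ℝ := Real.sqrt (sq ζ + ε ^ 2) with hr
  have hr2 : r ^ 2 = sq ζ + ε ^ 2 := Real.sq_sqrt (by positivity)
  have hr0 : 0 < r := Real.sqrt_pos.2 (by positivity)
  rcases lt_or_ge (sq ζ) (η / 2) with hin | hout
  · -- the inner region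
    have hhalf : 1 / 2 ≤ g := by
      have : psi P m κ (ζ, ε) ≤ 1 / 2 := hw.inner ζ (by linarith)
      linarith
    have e1 := hi κ hKD.van (η / 2) (by positivity) (by linarith) hKD.inn ζ ε r hin hε h4 hr0 hr2
    refine concl (E := K * (ε * r ^ (m - 1))) ?_ ?_
    · refine e1.trans ?_
      have e2 : Ci * (η / 2 + ε) ≤ K := by
        have : 0 ≤ Cθ * Cg * η := by positivity
        have e6 : Ci * (η / 2 + ε) = Ci * η / 2 + Ci * ε := by ring
        have e7 : (Ci + Cθ * Cg) * η = Ci * η + Cθ * Cg * η := by ring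
        rw [e6]
        linarith
      have e3 : Ci * (η / 2 + ε) * (ε * r ^ (m - 1)) ≤ K * (ε * r ^ (m - 1)) :=
        mul_le_mul_of_nonneg_right e2 (by positivity)
      have e4 : 0 ≤ 1 / 4 * ‖hp P m ε ζ‖ := by positivity
      linarith
    · have e5 := GG_lower (g := g) hm hcl hε hhalf hr2
      calc (K * (ε * r ^ (m - 1))) ^ 2 = K ^ 2 * (ε * r ^ (m - 1)) ^ 2 := by ring
        _ ≤ δ * (c / 4 ^ m) * (ε * r ^ (m - 1)) ^ 2 :=
            mul_le_mul_of_nonneg_right hK2 (by positivity)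
        _ = δ * (c / 4 ^ m * (ε * r ^ (m - 1)) ^ 2) := by ring
        _ ≤ _ := mul_le_mul_of_nonneg_left e5 hδ.le
  · obtain ⟨y, τ, hτ0, hτ1, hτ, hκy, hy, heq⟩ := hKD.eqn ζ ε habs hout hsq2
    rw [abs_of_pos hε] at hy
    have en := hnear ζ ε hε h2 hζ _ rfl
    rw [hκy] at en
    rcases le_or_gt (sq ζ) η with hmidr | hshell
    · -- the middle region
      have hhalf : 1 / 2 ≤ g := by
        have : psi P m κ (ζ, ε) ≤ 1 / 2 := hw.inner ζ (by linarith)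
        linarith
      have em := hmid ζ ε hε h4 hsq2 y τ hτ0 hτ1 hy heq
      refine concl (E := K * (ε * r ^ (m - 1))) ?_ ?_
      · refine en.trans ?_
        have e1 : ‖gx (star' P) m (cj ζ)‖ ≤ Cg * r ^ (m - 1) := by
          refine hg (cj ζ) r hr0 ?_
          have : sq (cj ζ) = sq ζ := by simp [sq, cj]
          rw [this, hr2]
          linarith [sq_nonneg ε]
        have e2 : (1 - τ) * ε * sq ζ * ‖gx (star' P) m (cj ζ)‖ ≤ Cg * η * (ε * r ^ (m - 1)) := by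
          have e3 : (1 - τ) * ε * sq ζ ≤ ε * η := by
            have : (1 - τ) * ε ≤ ε := mul_le_of_le_one_left hε.le (by linarith)
            exact mul_le_mul this hmidr hs0' hε.le
          calc _ ≤ (ε * η) * (Cg * r ^ (m - 1)) :=
                mul_le_mul e3 e1 (norm_nonneg _) (by positivity)
            _ = _ := by ring
        have e4 : Cθ * ‖hp (star' P) m ((ε * (1 - sq ζ) : ℝ) : ℂ)
              (fun j => (starRingEnd ℂ) (ζ j) + (τ * y) * gr P m ε ζ j)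
                - (starRingEnd ℂ) (hp P m ε ζ)‖
            ≤ Cθ * (Cg * η * (ε * r ^ (m - 1)) + Cm * ε ^ 2) :=
          mul_le_mul_of_nonneg_left (em.trans (by linarith)) hCθ
        have e5 : rη ≤ r ^ (m - 1) := by
          apply pow_le_pow_left₀ (by positivity)
          refine le_of_le_sq (by linarith) hr0 ?_
          rw [hr2]
          linarith [sq_nonneg ε]
        have e6 : Cn * ε ^ 2 * g + Cθ * (Cm * ε ^ 2) ≤ K / 2 * (ε * r ^ (m - 1)) := by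
          have e7 : Cn * ε ^ 2 * g ≤ Cn * ε ^ 2 * 2 :=
            mul_le_mul_of_nonneg_left hg2 (by positivity)
          have e8 : (2 * Cn + Cθ * Cm) * ε * ε ≤ K / 2 * rη * ε :=
            mul_le_mul_of_nonneg_right (b3.trans ht4) hε.le
          have e9 : K / 2 * rη * ε ≤ K / 2 * r ^ (m - 1) * ε := by gcongr
          calc Cn * ε ^ 2 * g + Cθ * (Cm * ε ^ 2) ≤ Cn * ε ^ 2 * 2 + Cθ * (Cm * ε ^ 2) := by
                linarith
            _ = (2 * Cn + Cθ * Cm) * ε * ε := by ring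
            _ ≤ K / 2 * rη * ε := e8
            _ ≤ K / 2 * r ^ (m - 1) * ε := e9
            _ = K / 2 * (ε * r ^ (m - 1)) := by ring
        have e10 : Cθ * (Cg * η * (ε * r ^ (m - 1))) ≤ K / 4 * (ε * r ^ (m - 1)) := by
          have : Cθ * Cg * η ≤ K / 4 := by
            have : 0 ≤ Ci * η := by positivity
            have e7 : (Ci + Cθ * Cg) * η = Ci * η + Cθ * Cg * η := by ring
            linarith
          calc _ = Cθ * Cg * η * (ε * r ^ (m - 1)) := by ring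
            _ ≤ _ := mul_le_mul_of_nonneg_right this (by positivity)
        have e11 : Cn * ε * ‖hp P m ε ζ‖ ≤ 1 / 4 * ‖hp P m ε ζ‖ :=
          mul_le_mul_of_nonneg_right (b1.trans ht1) (norm_nonneg _)
        have e12 : 0 ≤ K / 4 * (ε * r ^ (m - 1)) := by positivity
        linarith
      · have e5 := GG_lower (g := g) hm hcl hε hhalf hr2
        calc (K * (ε * r ^ (m - 1))) ^ 2 = K ^ 2 * (ε * r ^ (m - 1)) ^ 2 := by ring
          _ ≤ δ * (c / 4 ^ m) * (ε * r ^ (m - 1)) ^ 2 :=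
              mul_le_mul_of_nonneg_right hK2 (by positivity)
          _ = δ * (c / 4 ^ m * (ε * r ^ (m - 1)) ^ 2) := by ring
          _ ≤ _ := mul_le_mul_of_nonneg_left e5 hδ.le
    · -- the shell
      have hτ1' := hτ hshell.le
      subst hτ1'
      rw [Complex.ofReal_one, one_mul, heq, sub_self, norm_zero, mul_zero, add_zero] at en
      refine concl (E := Cn * ε ^ 2 * g) ?_ ?_
      · refine en.trans ?_
        have e11 : Cn * ε * ‖hp P m ε ζ‖ ≤ 1 / 4 * ‖hp P m ε ζ‖ :=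
          mul_le_mul_of_nonneg_right (b1.trans ht1) (norm_nonneg _)
        linarith
      · have e1 := hsh ζ ε hshell.le hsq2 habs3
        have e2 : (g * ε) ^ 2 * cs ≤ GG P m ε g ζ := by
          unfold GG
          have e3 : (g * ε) ^ 2 * cs ≤ (g * ε) ^ 2 * ∑ j, ‖gr P m ε ζ j‖ ^ 2 :=
            mul_le_mul_of_nonneg_left e1 (by positivity)
          have e4 : 0 ≤ (g * ε) ^ (2 * m) := by positivity
          linarith
        have e5 : (Cn * ε) ^ 2 ≤ δ * cs := by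
          refine le_trans ?_ hs2
          exact pow_le_pow_left₀ (by positivity) (b1.trans ht2) 2
        calc (Cn * ε ^ 2 * g) ^ 2 = (Cn * ε) ^ 2 * (g * ε) ^ 2 := by ring
          _ ≤ (δ * cs) * (g * ε) ^ 2 := mul_le_mul_of_nonneg_right e5 (by positivity)
          _ = δ * ((g * ε) ^ 2 * cs) := by ring
          _ ≤ _ := mul_le_mul_of_nonneg_left e2 hδ.le

end Pool.Agent.H60.FB
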