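import Pool.Agent.H60.FB.Sm

/-!
The Wirtinger calculus, and the structure of the coefficients `a_L`.
-/

open MvPolynomial MeasureTheory Pool.Agent.H77.FB
open scoped ContDiff

namespace Pool.Agent.H60.FB

variable {n : ℕ}

lemma W_eq (j : Fin n) (b : (Fin n → ℂ) × ℝ → ℂ) (x : (Fin n → ℂ) × ℝ) :
    W j b x = (1 / 2) * (dz b x (Pi.single j 1) - Complex.I * dz b x (Pi.single j Complex.I)) :=
  rfl

lemma dz_add {f g : (Fin n → ℂ) × ℝ → ℂ} {x : (Fin n → ℂ) × ℝ} (hf : DifferentiableAt ℝ f x)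
    (hg : DifferentiableAt ℝ g x) : dz (fun y => f y + g y) x = dz f x + dz g x := by
  have h : fderiv ℝ (fun y => f y + g y) x = fderiv ℝ f x + fderiv ℝ g x :=
    (hf.hasFDerivAt.add hg.hasFDerivAt).fderiv
  unfold dz
  rw [h, ContinuousLinearMap.add_comp]

lemma dz_mul {f g : (Fin n → ℂ) × ℝ → ℂ} {x : (Fin n → ℂ) × ℝ} (hf : DifferentiableAt ℝ f x)
    (hg : DifferentiableAt ℝ g x) (v : Fin n → ℂ) :
    dz (fun y => f y * g y) x v = dz f x v * g x + f x * dz g x v := by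
  have h : fderiv ℝ (fun y => f y * g y) x = f x • fderiv ℝ g x + g x • fderiv ℝ f x :=
    (hf.hasFDerivAt.mul hg.hasFDerivAt).fderiv
  unfold dz
  rw [h]
  simp only [ContinuousLinearMap.comp_apply, add_apply, smul_apply, smul_eq_mul]
  ring

lemma W_add {f g : (Fin n → ℂ) × ℝ → ℂ} {x : (Fin n → ℂ) × ℝ} (hf : DifferentiableAt ℝ f x)
    (hg : DifferentiableAt ℝ g x) (j : Fin n) :
    W j (fun y => f y + g y) x = W j f x + W j g x := by
  rw [W_eq, W_eq, W_eq, dz_add hf hg, add_apply, add_apply]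
  ring

lemma W_mul {f g : (Fin n → ℂ) × ℝ → ℂ} {x : (Fin n → ℂ) × ℝ} (hf : DifferentiableAt ℝ f x)
    (hg : DifferentiableAt ℝ g x) (j : Fin n) :
    W j (fun y => f y * g y) x = W j f x * g x + f x * W j g x := by
  rw [W_eq, W_eq, W_eq, dz_mul hf hg, dz_mul hf hg]
  ring

lemma W_congr {f g : (Fin n → ℂ) × ℝ → ℂ} {x : (Fin n → ℂ) × ℝ} (h : f =ᶠ[nhds x] g)
    (j : Fin n) : W j f x = W j g x := by
  unfold W
  rw [h.fderiv_eq]

/-- Functions of `ε` only. -/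
lemma W_snd (h : ℝ → ℂ) {x : (Fin n → ℂ) × ℝ} (hh : DifferentiableAt ℝ h x.2) (j : Fin n) :
    W j (fun y => h y.2) x = 0 := by
  have h1 : HasFDerivAt (fun y : (Fin n → ℂ) × ℝ => h y.2)
      ((fderiv ℝ h x.2).comp (ContinuousLinearMap.snd ℝ (Fin n → ℂ) ℝ)) x :=
    hh.hasFDerivAt.comp x hasFDerivAt_snd
  have h2 : ∀ v : Fin n → ℂ, fderiv ℝ (fun y : (Fin n → ℂ) × ℝ => h y.2) x (v, 0) = 0 := by
    intro v
    rw [h1.fderiv]
    simp
  unfold W
  rw [h2, h2]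
  ring

/-- Functions holomorphic in `ζ`. -/
lemma W_hol {b : (Fin n → ℂ) × ℝ → ℂ} {ζ : Fin n → ℂ} {ε : ℝ}
    (hb : DifferentiableAt ℝ b (ζ, ε)) {A : (Fin n → ℂ) →L[ℂ] ℂ}
    (hA : HasFDerivAt (fun ζ => b (ζ, ε)) A ζ) (j : Fin n) :
    W j b (ζ, ε) = A (Pi.single j 1) ∧ W j (fun y => (starRingEnd ℂ) (b y)) (ζ, ε) = 0 := by
  have h1 : dz b (ζ, ε) = A.restrictScalars ℝ :=
    (dz_hasFDerivAt hb).unique (hA.restrictScalars ℝ)
  have h2 : dz (fun y => (starRingEnd ℂ) (b y)) (ζ, ε)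
      = (Complex.conjCLE : ℂ →L[ℝ] ℂ).comp (A.restrictScalars ℝ) := by
    have h3 : DifferentiableAt ℝ (fun y => (starRingEnd ℂ) (b y)) (ζ, ε) :=
      (Complex.conjCLE : ℂ →L[ℝ] ℂ).differentiableAt.comp (ζ, ε) hb
    exact (dz_hasFDerivAt h3).unique
      ((Complex.conjCLE : ℂ →L[ℝ] ℂ).hasFDerivAt.comp ζ (hA.restrictScalars ℝ))
  have h5 : (Pi.single j Complex.I : Fin n → ℂ) = Complex.I • Pi.single j (1 : ℂ) := by
    rw [← Pi.single_smul]; simp
  refine ⟨?_, ?_⟩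
  · rw [W_eq, h1]
    simp only [ContinuousLinearMap.coe_restrictScalars']
    rw [h5, map_smul, smul_eq_mul]
    linear_combination (-(1 / 2 : ℂ) * A (Pi.single j 1)) * Complex.I_sq
  · rw [W_eq, h2]
    simp only [ContinuousLinearMap.comp_apply, ContinuousLinearMap.coe_restrictScalars',
      ContinuousLinearEquiv.coe_coe, Complex.conjCLE_apply]
    rw [h5, map_smul, smul_eq_mul, map_mul, Complex.conj_I]
    linear_combination ((1 / 2 : ℂ) * (starRingEnd ℂ) (A (Pi.single j 1))) * Complex.I_sq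

/-- Real valued functions: the derivative in terms of the Wirtinger derivatives. -/
lemma dz_real {b : (Fin n → ℂ) × ℝ → ℝ} {x : (Fin n → ℂ) × ℝ} (hb : DifferentiableAt ℝ b x)
    (w : Fin n → ℂ) : dz b x w = 2 * (∑ j, w j * W j (fun y => (b y : ℂ)) x).re := by
  have h1 : ∀ v : Fin n → ℂ, dz (fun y => (b y : ℂ)) x v = ((dz b x v : ℝ) : ℂ) := by
    intro v
    have h8 := (Complex.ofRealCLM : ℝ →L[ℝ] ℂ).hasFDerivAt.comp x hb.hasFDerivAt
    have h9 : fderiv ℝ (fun y => (b y : ℂ)) x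
        = (Complex.ofRealCLM : ℝ →L[ℝ] ℂ).comp (fderiv ℝ b x) := h8.fderiv
    unfold dz
    rw [h9]; rfl
  have h2 : w = ∑ j, ((w j).re • (Pi.single j 1 : Fin n → ℂ)
      + (w j).im • (Pi.single j Complex.I : Fin n → ℂ)) := by
    funext i
    rw [Finset.sum_apply, Finset.sum_eq_single i]
    · simp
    · intro j _ hj
      simp [Pi.single_eq_of_ne (Ne.symm hj)]
    · simp
  conv_lhs => rw [h2]
  rw [map_sum, Complex.re_sum, Finset.mul_sum]
  refine Finset.sum_congr rfl fun j _ => ?_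
  rw [map_add, map_smul, map_smul, W_eq, h1, h1]
  simp only [smul_eq_mul, Complex.mul_re, Complex.sub_re, Complex.sub_im, Complex.mul_im,
    Complex.ofReal_re, Complex.ofReal_im, Complex.I_re, Complex.I_im, Complex.div_re,
    Complex.one_re, Complex.one_im, Complex.div_im, Complex.normSq_ofNat, Complex.re_ofNat,
    Complex.im_ofNat]
  ring

/-- The value of `W` on smooth functions vanishing for `ε = 0`. -/
lemma Van.W {f : (Fin n → ℂ) × ℝ → ℂ} (hf : Van f) (j : Fin n) : Van (FB.W j f) := by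
  refine ⟨contDiff_W hf.smooth j, fun ζ => ?_⟩
  rw [W_eq, hf.dz.zero]
  simp

lemma Van.conj {f : (Fin n → ℂ) × ℝ → ℂ} (hf : Van f) :
    Van (fun y => (starRingEnd ℂ) (f y)) := by
  refine ⟨(Complex.conjCLE : ℂ →L[ℝ] ℂ).contDiff.comp hf.smooth, fun ζ => ?_⟩
  simp [hf.zero]

lemma Van.mul {f g : (Fin n → ℂ) × ℝ → ℂ} (hf : Van f) (hg : ContDiff ℝ ∞ g) :
    Van (fun y => f y * g y) :=
  ⟨hf.smooth.mul hg, fun ζ => by rw [hf.zero, zero_mul]⟩

/-- The numbers `θ_k = ∏_{i<k} (1 - i ε²)`. -/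
noncomputable def th (k : ℕ) (ε : ℝ) : ℝ := ∏ i ∈ Finset.range k, (1 - i * ε ^ 2)

lemma th_succ (k : ℕ) (ε : ℝ) : th (k + 1) ε = (1 - k * ε ^ 2) * th k ε := by
  unfold th
  rw [Finset.prod_range_succ, mul_comm]

lemma continuous_th (k : ℕ) : Continuous (th k) := by
  unfold th
  fun_prop

lemma contDiff_th (k : ℕ) : ContDiff ℝ ∞ (th k) := by
  unfold th
  exact contDiff_prod fun i _ => contDiff_const.sub (contDiff_const.mul (contDiff_id.pow 2))

lemma th_bound (k : ℕ) : ∃ C : ℝ, 0 ≤ C ∧ ∀ ε : ℝ, |ε| ≤ 1 →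
    |th k ε - 1| ≤ C * ε ^ 2 ∧ |th k ε| ≤ C := by
  induction k with
  | zero => exact ⟨1, zero_le_one, fun ε _ => by simp [th]; positivity⟩
  | succ k ih =>
    obtain ⟨C, hC, h⟩ := ih
    refine ⟨C * (1 + k) + k + 1, by positivity, fun ε hε => ?_⟩
    obtain ⟨h1, h2⟩ := h ε hε
    rw [th_succ]
    have h3 : ε ^ 2 ≤ 1 := by
      rw [← sq_abs]; exact pow_le_one₀ (abs_nonneg ε) hε
    have h4 : 0 ≤ ε ^ 2 := sq_nonneg ε
    have hk : (0 : ℝ) ≤ k := Nat.cast_nonneg k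
    constructor
    · have h5 : (1 - (k : ℝ) * ε ^ 2) * th k ε - 1 = (th k ε - 1) - k * ε ^ 2 * th k ε := by ring
      rw [h5]
      refine (abs_sub _ _).trans ?_
      rw [abs_mul, abs_of_nonneg (by positivity : 0 ≤ (k : ℝ) * ε ^ 2)]
      have h6 : (k : ℝ) * ε ^ 2 * |th k ε| ≤ k * ε ^ 2 * C :=
        mul_le_mul_of_nonneg_left h2 (by positivity)
      nlinarith
    · rw [abs_mul]
      have h5 : |1 - (k : ℝ) * ε ^ 2| ≤ 1 + (k : ℝ) := by
        rw [abs_le]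
        constructor <;> nlinarith
      have h6 : |1 - (k : ℝ) * ε ^ 2| * |th k ε| ≤ (1 + (k : ℝ)) * C :=
        mul_le_mul h5 h2 (abs_nonneg _) (by positivity)
      nlinarith

/-- The product of the Wirtinger derivatives of `ψ` along `L`. -/
noncomputable def pr (ψ : (Fin n → ℂ) × ℝ → ℝ) : List (Fin n) → (Fin n → ℂ) × ℝ → ℂ
  | [] => fun _ => 1
  | j :: L => fun x => W j (fun y => (ψ y : ℂ)) x * pr ψ L x

lemma contDiff_pr {ψ : (Fin n → ℂ) × ℝ → ℝ} (hψ : ContDiff ℝ ∞ ψ) (L : List (Fin n)) :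
    ContDiff ℝ ∞ (pr ψ L) := by
  have hψc : ContDiff ℝ ∞ (fun y => (ψ y : ℂ)) := Complex.ofRealCLM.contDiff.comp hψ
  induction L with
  | nil => exact contDiff_const
  | cons j L ih => exact (contDiff_W hψc j).mul ih

lemma list_prod_ls (u : Fin n → ℂ) (s : Fin n →₀ ℕ) :
    ((ls s).map u).prod = ∏ i, u i ^ s i := by
  have h1 : ((ls s).map u).prod = ((Finsupp.toMultiset s).map u).prod := by
    conv_rhs => rw [← Multiset.coe_toList (Finsupp.toMultiset s)]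
    rw [Multiset.map_coe, Multiset.prod_coe]
    rfl
  rw [h1, Finset.prod_multiset_map_count]
  rw [Finset.prod_subset (Finset.subset_univ _)]
  · refine Finset.prod_congr rfl fun i _ => ?_
    rw [Finsupp.count_toMultiset]
  · intro i _ hi
    rw [Multiset.mem_toFinset, ← Multiset.count_eq_zero] at hi
    rw [hi, pow_zero]

lemma pr_eq (ψ : (Fin n → ℂ) × ℝ → ℝ) (L : List (Fin n)) (x : (Fin n → ℂ) × ℝ) :
    pr ψ L x = (L.map (fun j => W j (fun y => (ψ y : ℂ)) x)).prod := by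
  induction L with
  | nil => rfl
  | cons j L ih => rw [List.map_cons, List.prod_cons, ← ih]; rfl

/-- The structure of `a_L`. -/
lemma aL_struct {ψ : (Fin n → ℂ) × ℝ → ℝ} (hψ : ContDiff ℝ ∞ ψ) (L : List (Fin n)) :
    ∃ c : (Fin n → ℂ) × ℝ → ℂ, ContDiff ℝ ∞ c ∧ ∀ x,
      aL ψ L x = (th L.length x.2 : ℂ) * pr ψ L x + (x.2 : ℂ) ^ 2 * ((1 - ψ x : ℝ) : ℂ) * c x := by
  have hψc : ContDiff ℝ ∞ (fun y => (ψ y : ℂ)) := Complex.ofRealCLM.contDiff.comp hψ
  have he : ContDiff ℝ ∞ (fun x : (Fin n → ℂ) × ℝ => (x.2 : ℂ)) :=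
    Complex.ofRealCLM.contDiff.comp contDiff_snd
  have hg : ContDiff ℝ ∞ (fun x : (Fin n → ℂ) × ℝ => ((1 - ψ x : ℝ) : ℂ)) :=
    Complex.ofRealCLM.contDiff.comp (contDiff_const.sub hψ)
  induction L with
  | nil => exact ⟨fun _ => 0, contDiff_const, fun x => by simp [aL, th, pr]⟩
  | cons j L ih =>
    obtain ⟨c, hc, h⟩ := ih
    have hth : ContDiff ℝ ∞ (fun x : (Fin n → ℂ) × ℝ => (th L.length x.2 : ℂ)) :=
      Complex.ofRealCLM.contDiff.comp ((contDiff_th _).comp contDiff_snd)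
    have hgc : ContDiff ℝ ∞ (fun x => ((1 - ψ x : ℝ) : ℂ) * c x) := hg.mul hc
    refine ⟨fun x => (1 - L.length * (x.2 : ℂ) ^ 2) * W j (fun y => (ψ y : ℂ)) x * c x
      - (th L.length x.2 : ℂ) * W j (pr ψ L) x
      - (x.2 : ℂ) ^ 2 * W j (fun x => ((1 - ψ x : ℝ) : ℂ) * c x) x, ?_, fun x => ?_⟩
    · exact ((((contDiff_const.sub (contDiff_const.mul (he.pow 2))).mul (contDiff_W hψc j)).mul
        hc).sub (hth.mul (contDiff_W (contDiff_pr hψ L) j))).sub
        ((he.pow 2).mul (contDiff_W hgc j))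
    · have hd : ∀ {f : (Fin n → ℂ) × ℝ → ℂ}, ContDiff ℝ ∞ f → DifferentiableAt ℝ f x :=
        fun hf => (hf.differentiable (by simp)) x
      have h1 : aL ψ L = fun x => (th L.length x.2 : ℂ) * pr ψ L x
          + (x.2 : ℂ) ^ 2 * (((1 - ψ x : ℝ) : ℂ) * c x) := by
        funext y; rw [h y]; ring
      have h2 : W j (aL ψ L) x = (th L.length x.2 : ℂ) * W j (pr ψ L) x
          + (x.2 : ℂ) ^ 2 * W j (fun x => ((1 - ψ x : ℝ) : ℂ) * c x) x := by
        rw [h1, W_add (hd (hth.mul (contDiff_pr hψ L))) (hd ((he.pow 2).mul hgc)),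
          W_mul (hd hth) (hd (contDiff_pr hψ L)), W_mul (hd (he.pow 2)) (hd hgc),
          W_snd (fun ε => (th L.length ε : ℂ)), W_snd (fun ε => (ε : ℂ) ^ 2)]
        · ring
        · have : DifferentiableAt ℝ (fun ε : ℝ => (ε : ℂ)) x.2 :=
            Complex.ofRealCLM.differentiableAt
          exact this.pow 2
        · have : ContDiff ℝ ∞ (fun ε : ℝ => (th L.length ε : ℂ)) :=
            Complex.ofRealCLM.contDiff.comp (contDiff_th _)
          exact this.differentiable (by simp) x.2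
      change (1 - L.length * (x.2 : ℂ) ^ 2) * W j (fun y => (ψ y : ℂ)) x * aL ψ L x
        - (x.2 : ℂ) ^ 2 * ((1 - ψ x : ℝ) : ℂ) * W j (aL ψ L) x
        = (th (L.length + 1) x.2 : ℂ) * (W j (fun y => (ψ y : ℂ)) x * pr ψ L x) + _
      rw [h2, h x, th_succ]
      push_cast
      ring

end Pool.Agent.H60.FB
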